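import Mathlib

/-!
# Local subalgebras of a field, derivations and symmetric tensors
-/

set_option autoImplicit false

namespace Pool.Agent.MP2b98ed

variable {K : Type} [Field K] [Algebra ℂ K]

/-- `O` is generated by `S` and by inverting units of `O`. -/
def Gen (O : Subalgebra ℂ K) (S : Set K) : Prop :=
  S ⊆ O ∧ ∀ R : Subalgebra ℂ K, S ⊆ R → (∀ r ∈ R, r ∈ O → r⁻¹ ∈ O → r⁻¹ ∈ R) → O ≤ R

/-- nonzero units of `O`. -/
def Un (O : Subalgebra ℂ K) (a : K) : Prop := a ∈ O ∧ a ≠ 0 ∧ a⁻¹ ∈ O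

/-- `O` is a local ring. -/
def Loc (O : Subalgebra ℂ K) : Prop := ∀ a ∈ O, ∀ b ∈ O, a + b = 1 → Un O a ∨ Un O b

/-- the derivations preserving `O`. -/
def TT (O : Subalgebra ℂ K) : Set (Derivation ℂ K K) := {D | ∀ f ∈ O, D f ∈ O}

/-- the symmetric tensors preserving `O`. -/
noncomputable def Sy (O : Subalgebra ℂ K) (m : ℕ) :
    Submodule O (SymmetricAlgebra K (Derivation ℂ K K)) :=
  Submodule.span O {τ | ∃ D : Fin m → Derivation ℂ K K,
    (∀ k, D k ∈ TT O) ∧ τ = ∏ k, SymmetricAlgebra.ι K _ (D k)}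

/-- the embedding of the derivations in the symmetric algebra. -/
noncomputable abbrev ii : Derivation ℂ K K →ₗ[K] SymmetricAlgebra K (Derivation ℂ K K) :=
  SymmetricAlgebra.ι K (Derivation ℂ K K)

section Un

variable {O : Subalgebra ℂ K}

lemma Un.mul {a b : K} (ha : Un O a) (hb : Un O b) : Un O (a * b) :=
  ⟨O.mul_mem ha.1 hb.1, mul_ne_zero ha.2.1 hb.2.1, by
    rw [mul_inv]; exact O.mul_mem ha.2.2 hb.2.2⟩

lemma Un.inv {a : K} (ha : Un O a) : Un O a⁻¹ :=
  ⟨ha.2.2, inv_ne_zero ha.2.1, by rw [inv_inv]; exact ha.1⟩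

lemma Un.neg {a : K} (ha : Un O a) : Un O (-a) :=
  ⟨O.neg_mem ha.1, neg_ne_zero.mpr ha.2.1, by rw [inv_neg]; exact O.neg_mem ha.2.2⟩

lemma Un.const {c : ℂ} (hc : c ≠ 0) : Un O (algebraMap ℂ K c) :=
  ⟨O.algebraMap_mem c, by simpa using hc, by
    rw [← map_inv₀]; exact O.algebraMap_mem _⟩

lemma Un.one : Un O (1 : K) := ⟨O.one_mem, one_ne_zero, by simp⟩

lemma Un.div {a b : K} (ha : Un O a) (hb : Un O b) : Un O (a / b) := by
  rw [div_eq_mul_inv]; exact ha.mul hb.inv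

lemma Un.of_mul_left {a b : K} (h : Un O (a * b)) (ha : a ∈ O) (hb : b ∈ O) : Un O a := by
  have h0 := mul_ne_zero_iff.mp h.2.1
  refine ⟨ha, h0.1, ?_⟩
  have : a⁻¹ = b * (a * b)⁻¹ := by
    rw [mul_inv]
    field_simp [h0.1, h0.2]
  rw [this]
  exact O.mul_mem hb h.2.2

lemma Un.of_mul_right {a b : K} (h : Un O (a * b)) (ha : a ∈ O) (hb : b ∈ O) : Un O b := by
  rw [mul_comm] at h
  exact h.of_mul_left hb ha

/-- unit plus nonunit is a unit. -/
lemma Loc.unit_add (hO : Loc O) {u a : K} (hu : Un O u) (ha : a ∈ O) (hna : ¬ Un O a) :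
    Un O (u + a) := by
  have h1 := hO ((u + a) * u⁻¹) (O.mul_mem (O.add_mem hu.1 ha) hu.2.2) (-(a * u⁻¹))
    (O.neg_mem (O.mul_mem ha hu.2.2)) (by field_simp [hu.2.1]; ring)
  rcases h1 with h | h
  · have := h.mul hu
    rwa [mul_assoc, inv_mul_cancel₀ hu.2.1, mul_one] at this
  · exfalso
    apply hna
    have h2 := h.neg
    rw [neg_neg] at h2
    exact h2.of_mul_left ha hu.2.2

lemma Loc.nonunit_mul {a b : K} (ha : a ∈ O) (hb : b ∈ O) (hna : ¬ Un O a) : ¬ Un O (a * b) :=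
  fun h => hna (h.of_mul_left ha hb)

lemma Loc.nonunit_mul' {a b : K} (ha : a ∈ O) (hb : b ∈ O) (hnb : ¬ Un O b) : ¬ Un O (a * b) :=
  fun h => hnb (h.of_mul_right ha hb)

lemma Loc.nonunit_add (hO : Loc O) {a b : K} (ha : a ∈ O) (hb : b ∈ O) (hna : ¬ Un O a)
    (hnb : ¬ Un O b) : ¬ Un O (a + b) := by
  intro h
  have := hO.unit_add h (O.neg_mem ha) (fun h' => hna (by simpa using h'.neg))
  exact hnb (by simpa using this)

end Un

section TT

variable {O : Subalgebra ℂ K}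

lemma TT.add {D E : Derivation ℂ K K} (hD : D ∈ TT O) (hE : E ∈ TT O) : D + E ∈ TT O :=
  fun f hf => O.add_mem (hD f hf) (hE f hf)

lemma TT.neg {D : Derivation ℂ K K} (hD : D ∈ TT O) : -D ∈ TT O :=
  fun f hf => O.neg_mem (hD f hf)

lemma TT.sub {D E : Derivation ℂ K K} (hD : D ∈ TT O) (hE : E ∈ TT O) : D - E ∈ TT O :=
  fun f hf => O.sub_mem (hD f hf) (hE f hf)

lemma TT.smul {D : Derivation ℂ K K} {a : K} (ha : a ∈ O) (hD : D ∈ TT O) : a • D ∈ TT O :=
  fun f hf => O.mul_mem ha (hD f hf)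

/-- A derivation preserves `O` if it maps generators into `O`. -/
lemma Gen.mem_TT {S : Set K} (hG : Gen O S) {D : Derivation ℂ K K} (hD : ∀ a ∈ S, D a ∈ O) :
    D ∈ TT O := by
  let R : Subalgebra ℂ K :=
    { carrier := {f | f ∈ O ∧ D f ∈ O}
      mul_mem' := by
        rintro a b ⟨ha, ha'⟩ ⟨hb, hb'⟩
        refine ⟨O.mul_mem ha hb, ?_⟩
        rw [Derivation.leibniz]
        exact O.add_mem (O.mul_mem ha hb') (O.mul_mem hb ha')
      add_mem' := by
        rintro a b ⟨ha, ha'⟩ ⟨hb, hb'⟩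
        refine ⟨O.add_mem ha hb, ?_⟩
        rw [map_add]
        exact O.add_mem ha' hb'
      algebraMap_mem' := by
        intro c
        refine ⟨O.algebraMap_mem c, ?_⟩
        rw [Derivation.map_algebraMap]
        exact O.zero_mem }
  have h := hG.2 R (fun a ha => ⟨hG.1 ha, hD a ha⟩) (by
    rintro r ⟨hr, hr'⟩ - hri
    refine ⟨hri, ?_⟩
    rw [Derivation.leibniz_inv]
    have : -r⁻¹ ^ 2 • D r = -(r⁻¹ * r⁻¹ * D r) := by
      rw [smul_eq_mul]; ring
    rw [this]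
    exact O.neg_mem (O.mul_mem (O.mul_mem hri hri) hr'))
  exact fun f hf => (h hf).2

end TT

section Sy

variable {O : Subalgebra ℂ K}

lemma Sy.ii_mem {D : Derivation ℂ K K} (hD : D ∈ TT O) : ii D ∈ Sy O 1 :=
  Submodule.subset_span ⟨fun _ => D, fun _ => hD, by simp⟩

lemma Sy.one_mem : (1 : SymmetricAlgebra K (Derivation ℂ K K)) ∈ Sy O 0 :=
  Submodule.subset_span ⟨Fin.elim0, fun k => k.elim0, by simp⟩

lemma Sy.smul_mem {m : ℕ} {a : K} (ha : a ∈ O)
    {τ : SymmetricAlgebra K (Derivation ℂ K K)} (h : τ ∈ Sy O m) : a • τ ∈ Sy O m :=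
  (Sy O m).smul_mem (⟨a, ha⟩ : O) h

lemma Sy.mul_mem {m m' : ℕ} {a b : SymmetricAlgebra K (Derivation ℂ K K)}
    (ha : a ∈ Sy O m) (hb : b ∈ Sy O m') : a * b ∈ Sy O (m + m') := by
  induction ha using Submodule.span_induction with
  | zero => rw [zero_mul]; exact Submodule.zero_mem _
  | add x y _ _ hx hy => rw [add_mul]; exact Submodule.add_mem _ hx hy
  | smul c x _ hx =>
    rw [smul_mul_assoc]; exact Submodule.smul_mem _ _ hx
  | mem x hx =>
    obtain ⟨D, hD, rfl⟩ := hx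
    induction hb using Submodule.span_induction with
    | zero => rw [mul_zero]; exact Submodule.zero_mem _
    | add x y _ _ hx hy => rw [mul_add]; exact Submodule.add_mem _ hx hy
    | smul c x _ hx =>
      rw [mul_smul_comm]; exact Submodule.smul_mem _ _ hx
    | mem x hx =>
      obtain ⟨E, hE, rfl⟩ := hx
      refine Submodule.subset_span ⟨Fin.append D E, ?_, ?_⟩
      · intro k
        refine Fin.addCases (fun i => ?_) (fun i => ?_) k
        · rw [Fin.append_left]; exact hD i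
        · rw [Fin.append_right]; exact hE i
      · rw [Fin.prod_univ_add]
        simp only [Fin.append_left, Fin.append_right]

lemma Sy.mul_mem' {m m' l : ℕ} {a b : SymmetricAlgebra K (Derivation ℂ K K)}
    (ha : a ∈ Sy O m) (hb : b ∈ Sy O m') (h : m + m' = l) : a * b ∈ Sy O l :=
  h ▸ Sy.mul_mem ha hb

lemma Sy.pow_mem {m : ℕ} {a : SymmetricAlgebra K (Derivation ℂ K K)}
    (ha : a ∈ Sy O m) (k l : ℕ) (h : k * m = l) : a ^ k ∈ Sy O l := by
  subst h
  induction k with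
  | zero => rw [pow_zero, zero_mul]; exact Sy.one_mem
  | succ k ih =>
    rw [pow_succ, Nat.succ_mul]
    exact Sy.mul_mem ih ha

end Sy

end Pool.Agent.MP2b98ed
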