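import Pool.Agent.MP2b98ed.Big

/-!
# Sections of the twisted symmetric powers on the surfaces with a torus action
-/

set_option autoImplicit false

open Polynomial

namespace Pool.Agent.MP2b98ed

variable {K A : Type} [Field K] [Algebra ℂ K] [CommRing A] [Algebra K A]

/-- the building blocks, for `a = ∂/∂t`, `b = v ∂/∂v` -/
def EE (G G' : K) (a b : A) (m i : ℕ) : A :=
  if i % 2 = 0 then (a * (G • a + G' • b)) ^ (i / 2) * b ^ (m - i)
  else (a * (G • a + G' • b)) ^ (i / 2) * (G • a) * b ^ (m - i)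

lemma EE_lead {S : Subalgebra ℂ K} {x y a b : A} {G G' ε δ : K} (hε : ε ∈ S) (hδ : δ ∈ S)
    (hy : b = y) (ha : Lead S x y 1 1 ε a) (hGa : Lead S x y 1 1 δ (G • a))
    (hGab : Lead S x y 1 1 δ (G • a + G' • b)) {m i : ℕ} (hi : i ≤ m) :
    Lead S x y m i (if i % 2 = 0 then (ε * δ) ^ (i / 2) else (ε * δ) ^ (i / 2) * δ)
      (EE G G' a b m i) := by
  subst hy
  have hq : Lead S x b 2 2 (ε * δ) (a * (G • a + G' • b)) := ha.mul hε hδ hGab
  have hεδ := S.mul_mem hε hδ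
  have hqk := hq.pow hεδ (i / 2)
  have hbk := (Lead.snd (S := S) (a := x) (b := b)).pow S.one_mem (m - i)
  unfold EE
  split_ifs with h
  · refine (hqk.mul (S.pow_mem hεδ _) (S.pow_mem S.one_mem _) hbk).congr ?_ ?_ ?_
    · omega
    · omega
    · simp
  · refine (((hqk.mul (S.pow_mem hεδ _) hδ hGa)).mul (S.mul_mem (S.pow_mem hεδ _) hδ)
      (S.pow_mem S.one_mem _) hbk).congr ?_ ?_ ?_
    · omega
    · omega
    · simp

variable {t y : K} {Dt Dy : Derivation ℂ K K}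

theorem big_sections (ht0 : t ≠ 0) (f g u : ℂ[X]) (n : ℕ) (hg0 : (aeval t g : K) ≠ 0)
    (hu : t⁻¹ ^ 4 * aeval t g = aeval t⁻¹ u) (hu0 : u.coeff 0 ≠ 0) (m : ℕ) :
    ∃ P : ℕ → SymmetricAlgebra K (Derivation ℂ K K),
      (∀ j ≤ m, ∀ O : Subalgebra ℂ K, Fin3 O t y Dt Dy f g → P j ∈ Sy O m) ∧
      (∀ j ≤ m, ∀ O : Subalgebra ℂ K, Inf3 O t y Dt Dy f n → (t⁻¹ ^ 2) • P j ∈ Sy O m) ∧
      ∀ O : Subalgebra ℂ K, t ∈ O → (aeval t g : K)⁻¹ ∈ O →
        ∀ i k, i + k = m → ii (XX t Dt Dy f) ^ i * ii (TH t y Dy f) ^ k ∈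
        Submodule.span O (P '' {j | j ≤ m}) := by
  set G : K := aeval t g with hG
  set G' : K := aeval t (derivative g) with hG'
  set a := ii (XX t Dt Dy f) with ha
  set b := ii (TH t y Dy f) with hb
  set x := ii (XI t y Dt Dy f n) with hx
  have haxb : a = (-t⁻¹ ^ 2) • x + (-(n * t⁻¹)) • b := by
    rw [hx, XI, map_sub, map_neg, map_smul, map_smul, ← ha, ← hb, smul_sub, smul_neg, smul_smul,
      smul_smul]
    have e1 : -t⁻¹ ^ 2 * t ^ 2 = -1 := by
      rw [neg_mul, ← mul_pow, inv_mul_cancel₀ ht0, one_pow]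
    have e2 : -t⁻¹ ^ 2 * ((n : K) * t) = -(n * t⁻¹) := by
      field_simp
    rw [e1, e2]
    simp
  have hs := mem_RL_s t
  have hn : (n : K) ∈ RL t := natCast_mem _ n
  have hGR : G ∈ RL t := aeval_mem_of_mem (mem_RL_t t) g
  have hG'R : G' ∈ RL t := aeval_mem_of_mem (mem_RL_t t) _
  have hε : -t⁻¹ ^ 2 ∈ RL t := (RL t).neg_mem ((RL t).pow_mem hs 2)
  have hδ : G * -t⁻¹ ^ 2 ∈ RL t := (RL t).mul_mem hGR hε
  have hbW : b ∈ WW (RL t) x b 1 1 := by
    have := WW.gen (S := RL t) (a := x) (b := b) (d := 1) (i := 1) (j := 0) (k := 1)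
      (by omega) rfl
    simpa using this
  -- leading terms at infinity
  have La : Lead (RL t) x b 1 1 (-t⁻¹ ^ 2) a := by
    refine ⟨0, rfl, ?_⟩
    have : a - (-t⁻¹ ^ 2) • (x ^ 1 * b ^ 0) = (-(n * t⁻¹)) • b := by
      rw [haxb]; simp
    rw [this]
    exact WW.smul ((RL t).neg_mem ((RL t).mul_mem hn hs)) hbW
  have LGa : Lead (RL t) x b 1 1 (G * -t⁻¹ ^ 2) (G • a) := by
    obtain ⟨k, hk, h⟩ := La
    refine ⟨k, hk, ?_⟩
    rw [mul_smul, ← smul_sub]
    exact WW.smul hGR h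
  have LGab : Lead (RL t) x b 1 1 (G * -t⁻¹ ^ 2) (G • a + G' • b) :=
    LGa.add_mem (WW.smul hG'R hbW)
  have L1 : ∀ i ≤ m, Lead (RL t) x b m i
      (t ^ (2 * (i % 2)) * aeval t⁻¹ (if i % 2 = 0 then u ^ (i / 2) else -u ^ (i / 2 + 1)))
      (EE G G' a b m i) := by
    intro i hi
    refine (EE_lead hε hδ rfl La LGa LGab hi).congr rfl rfl ?_
    have e1 : -t⁻¹ ^ 2 * (G * -t⁻¹ ^ 2) = aeval t⁻¹ u := by
      rw [← hu]; ring
    rw [e1]
    split_ifs with h
    · rw [h, map_pow]; simp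
    · have h' : i % 2 = 1 := by omega
      rw [h', map_neg, map_pow, ← hu]
      have e2 : t ^ (2 * 1) * t⁻¹ ^ 4 = t⁻¹ ^ 2 := by
        field_simp
      calc (t⁻¹ ^ 4 * G) ^ (i / 2) * (G * -t⁻¹ ^ 2)
          = -((t⁻¹ ^ 4 * G) ^ (i / 2) * (t⁻¹ ^ 2 * G)) := by ring
        _ = -((t⁻¹ ^ 4 * G) ^ (i / 2) * ((t ^ (2 * 1) * t⁻¹ ^ 4) * G)) := by rw [e2]
        _ = t ^ (2 * 1) * -(t⁻¹ ^ 4 * G) ^ (i / 2 + 1) := by ring
  have hucoeff : ∀ i : ℕ, (if i % 2 = 0 then u ^ (i / 2) else -u ^ (i / 2 + 1)).coeff 0 ≠ 0 := by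
    intro i
    split_ifs with h
    · rw [coeff_zero_eq_eval_zero, eval_pow, ← coeff_zero_eq_eval_zero]
      exact pow_ne_zero _ hu0
    · rw [coeff_neg, coeff_zero_eq_eval_zero, eval_pow, ← coeff_zero_eq_eval_zero]
      exact neg_ne_zero.mpr (pow_ne_zero _ hu0)
  have hcancel := cancel ht0 (x := x) (y := b) (m := m) (EE G G' a b m)
    (fun i => if i % 2 = 0 then u ^ (i / 2) else -u ^ (i / 2 + 1)) (fun i => i % 2)
    hucoeff (fun i => by omega) L1
  -- the sections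
  have key : ∀ i : ℕ, ∃ c : ℕ → ℂ[X], i ≤ m →
      (t⁻¹ ^ 2) • (EE G G' a b m i - ∑ j ∈ Finset.range i, (aeval t (c j) : K) • EE G G' a b m j) ∈
        WW (Rs t) x b m (i + 1) := by
    intro i
    by_cases hi : i ≤ m
    swap
    · exact ⟨fun _ => 0, fun h => absurd h hi⟩
    obtain ⟨k, hk, hl⟩ := L1 i hi
    obtain ⟨c, hc⟩ := hcancel i (by omega) _ hl
    refine ⟨c, fun _ => ?_⟩
    set ε := t ^ (2 * (i % 2)) * aeval t⁻¹ (if i % 2 = 0 then u ^ (i / 2) else -u ^ (i / 2 + 1))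
      with hεd
    have e : (t⁻¹ ^ 2) • (EE G G' a b m i - ∑ j ∈ Finset.range i,
        (aeval t (c j) : K) • EE G G' a b m j) =
        (t⁻¹ ^ 2 * ε) • (x ^ i * b ^ k) + (t⁻¹ ^ 2) • (EE G G' a b m i - ε • (x ^ i * b ^ k) -
          ∑ j ∈ Finset.range i, (aeval t (c j) : K) • EE G G' a b m j) := by
      simp only [Algebra.smul_def, map_mul]
      ring
    rw [e]
    refine Submodule.add_mem _ (WW.smul ?_ (WW.gen (by omega) hk)) (WW.mono (Nat.le_succ i) hc)
    have hu' : ∀ q : ℂ[X], aeval t⁻¹ q ∈ Rs t := fun q => aeval_mem_of_mem (mem_Rs_s t) q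
    rcases Nat.mod_two_eq_zero_or_one i with h | h
    · rw [hεd, h]
      have : t⁻¹ ^ 2 * (t ^ (2 * 0) * aeval t⁻¹ (if (0 : ℕ) = 0 then u ^ (i / 2)
          else -u ^ (i / 2 + 1))) = t⁻¹ ^ 2 * aeval t⁻¹ (u ^ (i / 2)) := by simp
      rw [this]
      exact (Rs t).mul_mem ((Rs t).pow_mem (mem_Rs_s t) 2) (hu' _)
    · rw [hεd, h]
      have : t⁻¹ ^ 2 * (t ^ (2 * 1) * aeval t⁻¹ (if (1 : ℕ) = 0 then u ^ (i / 2)
          else -u ^ (i / 2 + 1))) = aeval t⁻¹ (-u ^ (i / 2 + 1)) := by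
        rw [← mul_assoc, mul_one, ← mul_pow, inv_mul_cancel₀ ht0]
        simp
      rw [this]
      exact hu' _
  choose c hc using key
  refine ⟨fun i => EE G G' a b m i - ∑ j ∈ Finset.range i, (aeval t (c i j) : K) • EE G G' a b m j,
    ?_, ?_, ?_⟩
  · rintro j hj O ⟨ht, hT, hGX, hq⟩
    have hE : ∀ i ≤ m, EE G G' a b m i ∈ Sy O m := by
      intro i hi
      unfold EE
      split_ifs with h
      · exact Sy.mul_mem' (Sy.pow_mem hq _ _ rfl) (Sy.pow_mem hT _ _ rfl) (by omega)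
      · exact Sy.mul_mem' (Sy.mul_mem' (Sy.pow_mem hq _ _ rfl) hGX rfl) (Sy.pow_mem hT _ _ rfl)
          (by omega)
    refine Submodule.sub_mem _ (hE j hj) (Submodule.sum_mem _ fun l hl => ?_)
    have := Finset.mem_range.mp hl
    exact Sy.smul_mem (aeval_mem_of_mem ht _) (hE l (by omega))
  · rintro j hj O ⟨hsO, hT, hX⟩
    have h := hc j hj
    have hW : ∀ w ∈ WW (Rs t) x b m (j + 1), w ∈ Sy O m := by
      intro w hw
      induction hw using Submodule.span_induction with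
      | zero => exact Submodule.zero_mem _
      | add x y _ _ hx hy => exact Submodule.add_mem _ hx hy
      | smul c x _ hx =>
        have hcO : (c : K) ∈ O := by
          have : Rs t ≤ O := by
            apply Algebra.adjoin_le
            rintro z hz
            rw [Set.mem_singleton_iff] at hz
            rw [hz]
            exact hsO
          exact this c.2
        exact Sy.smul_mem hcO hx
      | mem w hw =>
        obtain ⟨j', k', -, hk', rfl⟩ := hw
        exact Sy.mul_mem' (Sy.pow_mem hX _ _ rfl) (Sy.pow_mem hT _ _ rfl) (by omega)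
    exact hW _ h
  · intro O htO hGi
    -- leading terms over `O`
    have hGO : G ∈ O := aeval_mem_of_mem htO _
    have aK : Lead O a b 1 1 1 a := ⟨0, rfl, by simp⟩
    have GaK : Lead O a b 1 1 G (G • a) := ⟨0, rfl, by simp⟩
    have hbW' : b ∈ WW O a b 1 1 := by
      have := WW.gen (S := O) (a := a) (b := b) (d := 1) (i := 1) (j := 0)
        (k := 1) (by omega) rfl
      simpa using this
    have GabK : Lead O a b 1 1 G (G • a + G' • b) :=
      GaK.add_mem (WW.smul (aeval_mem_of_mem htO _) hbW')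
    have L2 : ∀ i ≤ m, Lead O a b m i
        (if i % 2 = 0 then (1 * G) ^ (i / 2) else (1 * G) ^ (i / 2) * G) (EE G G' a b m i) :=
      fun i hi => EE_lead O.one_mem hGO rfl aK GaK GabK hi
    have hεO : ∀ i, (if i % 2 = 0 then (1 * G) ^ (i / 2) else (1 * G) ^ (i / 2) * G) ∈ O := by
      intro i
      rw [one_mul]
      split_ifs
      · exact O.pow_mem hGO _
      · exact O.mul_mem (O.pow_mem hGO _) hGO
    apply lead_span (ε := fun i => if i % 2 = 0 then (1 * G) ^ (i / 2) else (1 * G) ^ (i / 2) * G)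
    · intro i _
      have h1 : (1 * G) ≠ 0 := by rwa [one_mul]
      show (if i % 2 = 0 then (1 * G) ^ (i / 2) else (1 * G) ^ (i / 2) * G) ≠ 0
      split_ifs
      · exact pow_ne_zero _ h1
      · exact mul_ne_zero (pow_ne_zero _ h1) hg0
    · intro i _
      show (if i % 2 = 0 then (1 * G) ^ (i / 2) else (1 * G) ^ (i / 2) * G)⁻¹ ∈ O
      rw [one_mul]
      split_ifs
      · rw [← inv_pow]; exact O.pow_mem hGi _
      · rw [mul_inv, ← inv_pow]; exact O.mul_mem (O.pow_mem hGi _) hGi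
    · intro i hi
      rw [sub_eq_add_neg]
      refine (L2 i hi).add_mem (Submodule.neg_mem _ (Submodule.sum_mem _ fun j hj => ?_))
      have := Finset.mem_range.mp hj
      refine WW.smul (aeval_mem_of_mem htO _) ?_
      have h := (L2 j (by omega)).mem (hεO j)
      exact WW.mono (by omega) h

end Pool.Agent.MP2b98ed
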