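import Pool.Agent.MP2b98ed.GenPos
import Pool.Agent.MP2b98ed.BigP

/-!
# The algebraic part of the main theorem
-/

set_option autoImplicit false

open Polynomial

namespace Pool.Agent.MP2b98ed

section ai

variable {K : Type} [Field K] [Algebra ℂ K]

lemma ai_swap {a b : K} (h : AlgebraicIndependent ℂ ![a, b]) : AlgebraicIndependent ℂ ![b, a] := by
  refine (algebraicIndependent_equiv' (Equiv.swap (0 : Fin 2) 1) ?_).mpr h
  ext i
  fin_cases i <;> simp

/-- if `y` is algebraic over `ℂ(t)` whenever `w` is, and `t`, `y` are algebraically independent,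
then `w`, `t` are. -/
lemma ai_change {t y w : K} (h : AlgebraicIndependent ℂ ![t, y])
    (hw : ∀ A : Subalgebra ℂ K, t ∈ A → IsAlgebraic A w → IsAlgebraic A y) :
    AlgebraicIndependent ℂ ![t, w] := by
  have key : ∀ c : K, AlgebraicIndependent ℂ ![c, t] ↔
      AlgebraicIndependent ℂ (fun o : Option (Fin 1) => o.elim c ![t]) := by
    intro c
    symm
    refine algebraicIndependent_equiv' (finSuccEquiv 1).symm ?_
    ext o
    cases o with
    | none => rfl
    | some i => fin_cases i; rfl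
  apply ai_swap
  have h := ai_swap h
  rw [key] at h ⊢
  rw [AlgebraicIndependent.option_iff] at h ⊢
  refine ⟨h.1, fun h2 => h.2 (hw _ ?_ h2)⟩
  exact Algebra.subset_adjoin ⟨0, rfl⟩

lemma ai_el {t y : K} (h : AlgebraicIndependent ℂ ![t, y]) (g l : ℂ[X])
    (hg : (aeval t g : K) ≠ 0) : AlgebraicIndependent ℂ ![t, aeval t g / (y - aeval t l)] := by
  refine ai_change h fun A htA hw => ?_
  have hmem : ∀ p : ℂ[X], IsAlgebraic A (aeval t p : K) := fun p =>
    isAlgebraic_algebraMap (⟨aeval t p, aeval_mem_of_mem htA p⟩ : A)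
  have h1 : y = aeval t l + aeval t g * (aeval t g / (y - aeval t l))⁻¹ := by
    rw [inv_div, mul_div_cancel₀ _ hg]; ring
  rw [h1]
  exact (hmem l).add ((hmem g).mul (IsAlgebraic.inv_iff.mpr hw))

lemma ai_poly {t y : K} (h : AlgebraicIndependent ℂ ![t, y]) (p : ℂ[X]) : y ≠ aeval t p := by
  intro hy
  have := ai_ne h (MvPolynomial.X 1 - Polynomial.aeval (MvPolynomial.X 0) p)
    ![0, p.eval 0 + 1] (by
      rw [map_sub, MvPolynomial.eval_X]
      have : MvPolynomial.eval ![0, p.eval 0 + 1] (Polynomial.aeval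
          (MvPolynomial.X 0 : MvPolynomial (Fin 2) ℂ) p) = p.eval 0 := by
        have h1 := Polynomial.aeval_algHom_apply (MvPolynomial.aeval ![0, p.eval 0 + 1])
          (MvPolynomial.X 0 : MvPolynomial (Fin 2) ℂ) p
        rw [MvPolynomial.aeval_X] at h1
        simpa using h1.symm
      rw [this]
      simp)
  apply this
  rw [map_sub, MvPolynomial.aeval_X]
  have h1 := Polynomial.aeval_algHom_apply (MvPolynomial.aeval ![t, y])
    (MvPolynomial.X 0 : MvPolynomial (Fin 2) ℂ) p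
  rw [← h1, MvPolynomial.aeval_X]
  simp [hy]

end ai

/-- The conclusion of the algebraic part. -/
def AlgOut (K : Type) [Field K] [Algebra ℂ K] (n : ℕ) (t y : K) (f g : ℂ[X]) : Prop :=
  ∃ (S R : Set K), S.Finite ∧ R.Finite ∧ (∀ h ∈ S, h ≠ 0) ∧ ∃ E1 E2 : Derivation ℂ K K,
    (∀ O : Subalgebra ℂ K, R ⊆ O → ∀ D ∈ TT O, ∃ α ∈ O, ∃ β ∈ O, D = α • E1 + β • E2) ∧
    ∀ m, 1 ≤ m → ∃ Φ : Set (SymmetricAlgebra K (Derivation ℂ K K)),
      (∀ O : Subalgebra ℂ K, Loc O → LT O t y n f g → ∃ h ∈ S, ∀ τ ∈ Φ, h • τ ∈ Sy O m) ∧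
      ∀ O : Subalgebra ℂ K, R ⊆ O →
        ∀ i k, i + k = m → ii E1 ^ i * ii E2 ^ k ∈ Submodule.span O Φ

variable {K : Type} [Field K] [Algebra ℂ K]

lemma alg_big {n : ℕ} (hn : 3 ≤ n) {a : Fin 4 → ℂ} {f : ℂ[X]} (hf : f.natDegree ≤ 3)
    {t y : K} {Dt Dy : Derivation ℂ K K} (hc : Coord t y Dt Dy)
    (hai : AlgebraicIndependent ℂ ![t, y])
    (hD : ∀ D : Derivation ℂ K K, D = D t • Dt + D y • Dy) :
    AlgOut K n t y f (gp a Finset.univ) := by
  have ht := ai_fst hai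
  have ht0 : t ≠ 0 := by simpa using ht 0
  have hy := ai_poly hai
  have hy0 : y ≠ 0 := by simpa using hy 0
  have hv0 : y - aeval t f ≠ 0 := sub_ne_zero.mpr (hy f)
  have hg0 : (aeval t (gp a Finset.univ) : K) ≠ 0 := gp_ne a ht _
  have hfn : f.natDegree ≤ n := hf.trans hn
  refine ⟨{1, t⁻¹ ^ 2}, {t, y, (y - aeval t f)⁻¹, (aeval t (gp a Finset.univ))⁻¹}, Set.toFinite _, Set.toFinite _, ?_,
    XX t Dt Dy f, TH t y Dy f, ?_, ?_⟩
  · rintro h (rfl | rfl)
    · exact one_ne_zero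
    · exact pow_ne_zero _ (inv_ne_zero ht0)
  · intro O hR D hDO
    have htO : t ∈ O := hR (by simp)
    have hyO : y ∈ O := hR (by simp)
    have hvO : (y - aeval t f)⁻¹ ∈ O := hR (by simp)
    refine ⟨D t, hDO t htO, (D y - aeval t (derivative f) * D t) * (y - aeval t f)⁻¹,
      O.mul_mem (O.sub_mem (hDO y hyO) (O.mul_mem (aeval_mem_of_mem htO _) (hDO t htO))) hvO, ?_⟩
    rw [XX, TH, smul_add, smul_smul, smul_smul, add_assoc, ← add_smul]
    conv_lhs => rw [hD D]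
    congr 2
    rw [mul_assoc, inv_mul_cancel₀ hv0]
    ring
  · intro m _
    have hu : t⁻¹ ^ 4 * aeval t (gp a Finset.univ) =
        (aeval t⁻¹ (∏ i : Fin 4, (1 - C (a i) * X)) : K) := by
      rw [gp_aeval, map_prod]
      have h4 : (t⁻¹ ^ 4 : K) = ∏ _i : Fin 4, t⁻¹ := by simp
      rw [h4, ← Finset.prod_mul_distrib]
      refine Finset.prod_congr rfl fun i _ => ?_
      simp only [map_sub, map_one, map_mul, aeval_C, aeval_X]
      field_simp
    obtain ⟨P, h1, h2, h3⟩ := big_sections (Dt := Dt) (Dy := Dy) (y := y) ht0 f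
      (gp a Finset.univ) _ n hg0 hu (by
        rw [coeff_zero_eq_eval_zero, eval_prod]
        simp) m
    refine ⟨P '' {j | j ≤ m}, ?_, fun O hR => h3 O (hR (by simp)) (hR (by simp))⟩
    intro O _ hO
    rcases hO with h | h | h | h | h
    · refine ⟨1, by simp, ?_⟩
      rintro _ ⟨j, hj, rfl⟩
      rw [one_smul]
      exact h1 j hj O (typeA hc f hg0 h)
    · refine ⟨1, by simp, ?_⟩
      rintro _ ⟨j, hj, rfl⟩
      rw [one_smul]
      exact h1 j hj O (typeB hc f hv0 h.1)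
    · refine ⟨1, by simp, ?_⟩
      rintro _ ⟨j, hj, rfl⟩
      rw [one_smul]
      exact h1 j hj O (typeC hc f hy0 h.1)
    · refine ⟨t⁻¹ ^ 2, by simp, ?_⟩
      rintro _ ⟨j, hj, rfl⟩
      exact h2 j hj O (typeD hc f ht0 n hfn h.1)
    · refine ⟨t⁻¹ ^ 2, by simp, ?_⟩
      rintro _ ⟨j, hj, rfl⟩
      exact h2 j hj O (typeE hc f ht0 hy0 n hfn h.1)

lemma alg_small {n : ℕ} (hn : n ≤ 2) {a c : Fin 4 → ℂ} (hq : QN n a c ≠ 0) {f : ℂ[X]}
    (hf : ∀ i, f.eval (a i) = c i)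
    {t y : K} {Dt Dy : Derivation ℂ K K} (hc : Coord t y Dt Dy)
    (hai : AlgebraicIndependent ℂ ![t, y])
    (hD : ∀ D : Derivation ℂ K K, D = D t • Dt + D y • Dy) :
    AlgOut K n t y f (gp a Finset.univ) := by
  have ha : Function.Injective a := QV_inj (left_ne_zero_of_mul hq)
  have hG := gp_two hn hq
  obtain ⟨h, hE⟩ := exists_el hn ha hf hG
  have ht := ai_fst hai
  have hy := ai_poly hai
  set l := ll n a c with hl
  set s := ss n with hs
  set b := bb n a c with hb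
  have hGs0 : (aeval t (gp a s) : K) ≠ 0 := gp_ne a ht _
  have hL0 : y - aeval t l ≠ 0 := sub_ne_zero.mpr (hy l)
  have hai' := ai_el hai (gp a s) l hGs0
  set w : K := aeval t (gp a s) / (y - aeval t l) with hw
  have hDyw : Dy w = -(aeval t (gp a s) / (y - aeval t l) ^ 2) := by
    rw [hw, div_eq_mul_inv, der_mul, der_inv, der_aeval, map_sub, der_aeval, hc.yt, hc.yy]
    field_simp
    ring
  have hDyw0 : Dy w ≠ 0 := by
    rw [hDyw]
    exact neg_ne_zero.mpr (div_ne_zero hGs0 (pow_ne_zero _ hL0))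
  set Ew := (Dy w)⁻¹ • Dy with hEw
  set Et := Dt - (Dt w) • Ew with hEt
  have hcw : Coord t w Et Ew := by
    refine ⟨?_, ?_, ?_, ?_⟩
    · simp [hEt, hEw, hc.tt, hc.yt]
    · simp [hEt, hEw, hDyw0]
    · simp [hEw, hc.yt]
    · simp [hEw, hDyw0]
  refine ⟨{1} ∪ (Set.range fun i => (t - algebraMap ℂ K (a i)) ^ 2) ∪
    (Set.range fun i => (w - algebraMap ℂ K (b i)) ^ 2),
    {t, w, (algebraMap ℂ K (Ec a b) * Gk t a)⁻¹, (algebraMap ℂ K (Ec b a) * Gk w b)⁻¹,
      ((algebraMap ℂ K (Ec a b) * Gk t a) * (algebraMap ℂ K (Ec b a) * Gk w b) -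
        Bk t w a b * Bk w t b a)⁻¹}, ?_, Set.toFinite _, ?_, Et, Ew, ?_, ?_⟩
  · exact ((Set.finite_singleton _).union (Set.finite_range _)).union (Set.finite_range _)
  · rintro h ((rfl | ⟨i, rfl⟩) | ⟨i, rfl⟩)
    · exact one_ne_zero
    · exact pow_ne_zero _ (sub_ne_zero.mpr (ht _))
    · exact pow_ne_zero _ (sub_ne_zero.mpr (ai_snd hai' _))
  · intro O hR D hDO
    have htO : t ∈ O := hR (by simp)
    have hwO : w ∈ O := hR (by simp)
    refine ⟨D t, hDO t htO, D w, hDO w hwO, ?_⟩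
    have h1 : D w = D t * Dt w + D y * Dy w := by
      conv_lhs => rw [hD D]
      simp
    rw [hEt, smul_sub, smul_smul, sub_add, ← sub_smul]
    conv_lhs => rw [hD D]
    rw [sub_eq_add_neg]
    congr 1
    rw [← neg_smul, hEw, smul_smul]
    congr 1
    rw [h1]
    field_simp
    ring
  · intro m hm
    obtain ⟨Φ, h1, h2⟩ := small_final hcw hai' ha hG.h12 hG.h13 hG.h23 hG.h02 hG.hE hm
    refine ⟨Φ, ?_, fun O hR => h2 O (hR (by simp)) (hR (by simp)) (hR (by simp)) (hR (by simp))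
      (hR (by simp))⟩
    intro O hO hLT
    obtain ⟨h, hh, hΦ⟩ := h1 O (conv_all hE hO ht hy hLT)
    refine ⟨h, ?_, hΦ⟩
    rcases hh with rfl | ⟨i, rfl⟩ | ⟨i, rfl⟩
    · left; left; rfl
    · left; right; exact ⟨i, rfl⟩
    · right; exact ⟨i, rfl⟩

/-- The interpolation polynomial. -/
lemma exists_f {a : Fin 4 → ℂ} (ha : Function.Injective a) (c : Fin 4 → ℂ) :
    ∃ f : ℂ[X], f.natDegree ≤ 3 ∧ ∀ i, f.eval (a i) = c i := by
  refine ⟨Lagrange.interpolate Finset.univ a c, ?_, fun i =>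
    Lagrange.eval_interpolate_at_node c ha.injOn (Finset.mem_univ i)⟩
  have h := Lagrange.degree_interpolate_lt c (s := Finset.univ) (v := a) ha.injOn
  rw [Finset.card_univ, Fintype.card_fin] at h
  by_cases h0 : Lagrange.interpolate Finset.univ a c = 0
  · rw [h0]; simp
  · have := (Polynomial.natDegree_lt_iff_degree_lt h0).mpr h
    omega

/-- The algebraic part of the main theorem. -/
theorem alg_main (n : ℕ) {a c : Fin 4 → ℂ} (hq : QN n a c ≠ 0) {f : ℂ[X]}
    (hf3 : f.natDegree ≤ 3) (hf : ∀ i, f.eval (a i) = c i)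
    {t y : K} {Dt Dy : Derivation ℂ K K} (hc : Coord t y Dt Dy)
    (hai : AlgebraicIndependent ℂ ![t, y])
    (hD : ∀ D : Derivation ℂ K K, D = D t • Dt + D y • Dy) :
    AlgOut K n t y f (gp a Finset.univ) := by
  rcases Nat.lt_or_ge n 3 with hn | hn
  · exact alg_small (by omega) hq hf hc hai hD
  · exact alg_big hn hf3 hc hai hD

end Pool.Agent.MP2b98ed
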