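import Pool.Agent.MP2b98ed.Geo5

/-!
# Ample line bundles and rational sections
-/

set_option autoImplicit false

open CategoryTheory Limits AlgebraicGeometry TopologicalSpace

namespace Pool.Agent.MP2b98ed

open Pool.Agent.MP77a250.St St

section

variable {X : Scheme.{0}} [IsIntegral X] (s : X ⟶ SC)

/-- functions as rational functions -/
noncomputable def gK {U : X.Opens} (h : Nonempty U) : Fn X U →+* KK s := toRat h

lemma gK_apply {U : X.Opens} (h : Nonempty U) (f : Γ(X, U)) :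
    gK s h f = X.germToFunctionField U f := rfl

lemma gK_res {U V : X.Opens} (hV : Nonempty V) (h : V ≤ U) (f : Fn X U) :
    gK s hV (res h f) = gK s (hV.map fun x => ⟨x.1, h x.2⟩) f := by
  have hU : Nonempty U := hV.map fun x => ⟨x.1, h x.2⟩
  have hx : genericPoint X ∈ V :=
    ((genericPoint_spec X).mem_open_set_iff V.2).mpr ⟨_, trivial, hV.some.2⟩
  exact congrArg (fun g => g.hom f) (X.presheaf.germ_res (homOfLE h) (genericPoint X) hx)

lemma gK_mem {U : X.Opens} (h : Nonempty U) (f : Fn X U) {x : X} (hx : x ∈ U) :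
    gK s h f ∈ regAt s x :=
  ⟨(X.presheaf.germ U x hx).hom f, Scheme.algebraMap_germ_eq_germToFunctionField X hx f⟩

lemma gK_injective {U : X.Opens} (h : Nonempty U) : Function.Injective (gK s h) :=
  Scheme.germToFunctionField_injective X U

lemma gK_un {U : X.Opens} (h : Nonempty U) (f : (Fn X U)ˣ) {x : X} (hx : x ∈ U) :
    Un (regAt s x) (gK s h f) := by
  refine ⟨gK_mem s h f hx, ?_, ?_⟩
  · intro h0
    have h1 : gK s h (f : Fn X U) * gK s h ((f⁻¹ : (Fn X U)ˣ) : Fn X U) = 1 := by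
      rw [← map_mul, Units.mul_inv, map_one]
    rw [h0, zero_mul] at h1
    exact zero_ne_one h1
  · have h1 : gK s h (f : Fn X U) * gK s h ((f⁻¹ : (Fn X U)ˣ) : Fn X U) = 1 := by
      rw [← map_mul, Units.mul_inv, map_one]
    rw [← eq_inv_of_mul_eq_one_right h1]
    exact gK_mem s h _ hx

lemma mem_basicOpen_iff {U : X.Opens} (h : Nonempty U) (f : Γ(X, U)) (x : X) :
    x ∈ X.basicOpen f ↔ x ∈ U ∧ Un (regAt s x) (gK s h f) := by
  have key : ∀ hx : x ∈ U, (⟨gK s h f, gK_mem s h f hx⟩ : regAt s x) =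
      stalkTo s x (X.presheaf.germ U x hx f) := fun hx => Subtype.ext
    (Scheme.algebraMap_germ_eq_germToFunctionField X hx f).symm
  constructor
  · intro h'
    have hx : x ∈ U := X.basicOpen_le f h'
    rw [X.mem_basicOpen _ _ hx] at h'
    refine ⟨hx, (un_iff s (gK_mem s h f hx)).mpr ?_⟩
    rw [key hx]
    exact h'.map (stalkTo s x)
  · rintro ⟨hx, hu⟩
    rw [X.mem_basicOpen _ _ hx]
    have h1 := (un_iff s (gK_mem s h f hx)).mp hu
    rw [key hx] at h1
    exact isUnit_of_map_unit (stalkTo s x) _ h1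

/-- denominators -/
lemma exists_den {V : X.Opens} (hV : IsAffineOpen V) (hne : Nonempty V) (a : KK s) :
    ∃ b c : Fn X V, gK s hne b ≠ 0 ∧ a * gK s hne b = gK s hne c := by
  have := functionField_isFractionRing_of_isAffineOpen X V hV
  obtain ⟨⟨c, b⟩, h⟩ := IsLocalization.surj (nonZeroDivisors Γ(X, V)) (show X.functionField from a)
  refine ⟨(b : Γ(X, V)), c, ?_, h⟩
  intro h0
  have h1 := nonZeroDivisors.ne_zero b.2
  exact h1 (gK_injective s hne (h0.trans (map_zero _).symm))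

/-- common denominators -/
lemma exists_common_den {V : X.Opens} (hV : IsAffineOpen V) (hne : Nonempty V) {S : Set (KK s)}
    (hS : S.Finite) : ∃ b : Fn X V, gK s hne b ≠ 0 ∧ ∀ a ∈ S, ∃ c : Fn X V,
      a * gK s hne b = gK s hne c := by
  induction S, hS using Set.Finite.induction_on with
  | empty => exact ⟨1, by rw [map_one]; exact one_ne_zero, fun a ha => absurd ha (by simp)⟩
  | @insert a S _ _ ih =>
    obtain ⟨b, hb, h⟩ := ih
    obtain ⟨b', c', hb', hc'⟩ := exists_den s hV hne a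
    refine ⟨b * b', by rw [map_mul]; exact mul_ne_zero hb hb', ?_⟩
    rintro a' (rfl | ha')
    · exact ⟨b * c', by rw [map_mul, map_mul, ← hc']; ring⟩
    · obtain ⟨c, hc⟩ := h a' ha'
      exact ⟨c * b', by rw [map_mul, map_mul, ← hc]; ring⟩

omit [IsIntegral X] in
lemma nonvan_le {V : X.Opens} (f : Fn X V) : nonvan f ≤ V := X.basicOpen_le (U := V) f

omit [IsIntegral X] in
lemma ext_ring' {V W : X.Opens} (hV : IsAffineOpen V) (f : Γ(X, V)) (hD : X.basicOpen f ≤ W)
    (a : Γ(X, W)) : ∃ (m : ℕ) (c : Γ(X, V)),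
      (X.presheaf.map (homOfLE hD).op).hom a *
        (X.presheaf.map (homOfLE (X.basicOpen_le f)).op).hom f ^ m =
      (X.presheaf.map (homOfLE (X.basicOpen_le f)).op).hom c := by
  have hloc := hV.isLocalization_basicOpen f
  obtain ⟨⟨c, ⟨_, m, rfl⟩⟩, hc⟩ := IsLocalization.surj (Submonoid.powers f)
    (show Γ(X, X.basicOpen f) from (X.presheaf.map (homOfLE hD).op).hom a)
  exact ⟨m, c, by rw [← map_pow]; exact hc⟩

omit [IsIntegral X] in
lemma ext_ring {V W : X.Opens} (hV : IsAffineOpen V) (f : Fn X V) (hD : nonvan f ≤ W)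
    (a : Fn X W) : ∃ (m : ℕ) (c : Fn X V),
      res hD a * res (nonvan_le f) f ^ m = res (nonvan_le f) c := ext_ring' hV f hD a

/-- extension of functions after multiplication by a power -/
lemma ext_aux {V W : X.Opens} (hV : IsAffineOpen V) (hneV : Nonempty V) (hneW : Nonempty W)
    (f : Fn X V) (hD : nonvan f ≤ W) (hneD : Nonempty (nonvan f)) (a : Fn X W) :
    ∀ᶠ N : ℕ in Filter.atTop, ∀ x ∈ V, gK s hneV f ^ N * gK s hneW a ∈ regAt s x := by
  obtain ⟨m, c, hc⟩ := ext_ring hV f hD a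
  have e0 : gK s hneD (res hD a) = gK s hneW a := gK_res s hneD hD a
  have e1 : gK s hneD (res (nonvan_le f) c) = gK s hneV c := gK_res s hneD _ c
  have e2 : gK s hneD (res (nonvan_le f) f) = gK s hneV f := gK_res s hneD _ _
  have hc' : gK s hneW a * gK s hneV f ^ m = gK s hneV c := by
    rw [← e0, ← e1, ← e2, ← map_pow, ← map_mul, hc]
  filter_upwards [Filter.eventually_ge_atTop m] with N hN x hx
  have e3 : gK s hneV f ^ N * gK s hneW a = gK s hneV f ^ (N - m) * gK s hneV c := by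
    rw [← hc', ← pow_sub_mul_pow _ hN]
    ring
  rw [e3]
  exact mul_mem (pow_mem (gK_mem s hneV f hx) _) (gK_mem s hneV c hx)

variable {L : LineBundle X}

/-- the section in the trivialisations, as rational functions -/
noncomputable def secK {n : ℕ} (σ : L.PowSection n) (i : L.ι) : KK s :=
  open Classical in if h : Nonempty (L.U i) then gK s h (σ.s i) else 1

lemma secK_eq {n : ℕ} (σ : L.PowSection n) {i : L.ι} (h : Nonempty (L.U i)) :
    secK s σ i = gK s h (σ.s i) := dif_pos h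

lemma secK_mem {n : ℕ} (σ : L.PowSection n) {i : L.ι} {x : X} (hx : x ∈ L.U i) :
    secK s σ i ∈ regAt s x := by
  rw [secK_eq s σ ⟨⟨x, hx⟩⟩]
  exact gK_mem s _ _ hx

lemma secK_glue {n : ℕ} (σ : L.PowSection n) {i j : L.ι}
    (h : Nonempty (L.U i ⊓ L.U j : X.Opens)) :
    secK s σ i = gK s h (L.g i j) ^ n * secK s σ j := by
  have hi : Nonempty (L.U i) := h.map fun x => ⟨x.1, x.2.1⟩
  have hj : Nonempty (L.U j) := h.map fun x => ⟨x.1, x.2.2⟩
  have h1 := congrArg (gK s h) (σ.glue i j (L.U i ⊓ L.U j) inf_le_left inf_le_right)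
  rw [gK_res, map_mul, gK_res] at h1
  rw [secK_eq s σ hi, secK_eq s σ hj, h1]
  congr 1
  rw [Units.val_pow_eq_pow_val, map_pow]
  congr 1
  exact gK_res s h (le_inf inf_le_left inf_le_right) _

omit [IsIntegral X] in
lemma Un.pow {K : Type} [Field K] [Algebra ℂ K] {O : Subalgebra ℂ K} {a : K} (h : Un O a)
    (n : ℕ) : Un O (a ^ n) := by
  induction n with
  | zero => rw [pow_zero]; exact Un.one
  | succ n ih => rw [pow_succ]; exact ih.mul h

lemma mem_nonvanishing {n : ℕ} (σ : L.PowSection n) {i : L.ι} {x : X} (hx : x ∈ L.U i) :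
    x ∈ σ.nonvanishing ↔ Un (regAt s x) (secK s σ i) := by
  have hi : Nonempty (L.U i) := ⟨⟨x, hx⟩⟩
  constructor
  · intro h
    obtain ⟨j, hj⟩ := Opens.mem_iSup.mp h
    have hxj : x ∈ L.U j := nonvan_le _ hj
    have hij : Nonempty (L.U i ⊓ L.U j : X.Opens) := ⟨⟨x, hx, hxj⟩⟩
    have h1 := ((mem_basicOpen_iff s ⟨⟨x, hxj⟩⟩ (σ.s j) x).mp hj).2
    rw [secK_glue s σ hij, secK_eq s σ ⟨⟨x, hxj⟩⟩]
    exact ((gK_un s hij _ (x := x) ⟨hx, hxj⟩).pow n).mul h1
  · intro h
    exact Opens.mem_iSup.mpr ⟨i, (mem_basicOpen_iff s hi (σ.s i) x).mpr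
      ⟨hx, by rwa [← secK_eq s σ hi]⟩⟩

/-- functions on the affine set `X_σ` extend to sections of powers -/
lemma ext_all [CompactSpace X] {n : ℕ} (σ : L.PowSection n) (hne : Nonempty σ.nonvanishing)
    (a : Fn X σ.nonvanishing) :
    ∀ᶠ N : ℕ in Filter.atTop, ∀ x i, x ∈ L.U i → secK s σ i ^ N * gK s hne a ∈ regAt s x := by
  have hξ : ∀ U : X.Opens, Nonempty U → genericPoint X ∈ U := fun U hU =>
    ((genericPoint_spec X).mem_open_set_iff U.2).mpr ⟨_, trivial, hU.some.2⟩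
  have key : ∀ x0 : X, ∃ V : X.Opens, x0 ∈ V ∧ ∀ᶠ N : ℕ in Filter.atTop, ∀ x ∈ V, ∀ i,
      x ∈ L.U i → secK s σ i ^ N * gK s hne a ∈ regAt s x := by
    intro x0
    obtain ⟨i, hi⟩ := L.covers x0
    obtain ⟨_, ⟨V, hV, rfl⟩, hxV, hVi⟩ := X.isBasis_affineOpens.exists_subset_of_mem_open
      hi (L.U i).2
    have hVi' : V ≤ L.U i := hVi
    have hneV : Nonempty V := ⟨⟨x0, hxV⟩⟩
    have hnei : Nonempty (L.U i) := ⟨⟨x0, hi⟩⟩
    have hf : gK s hneV (res hVi' (σ.s i)) = secK s σ i := by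
      rw [gK_res, secK_eq s σ hnei]
    have hD : nonvan (res hVi' (σ.s i)) ≤ σ.nonvanishing := by
      intro x hx
      have h1 := (mem_basicOpen_iff s hneV _ x).mp hx
      rw [hf] at h1
      exact (mem_nonvanishing s σ (hVi' h1.1)).mpr h1.2
    have hneD : Nonempty (nonvan (res hVi' (σ.s i))) := by
      refine ⟨⟨genericPoint X, (mem_basicOpen_iff s hneV _ _).mpr ⟨hξ V hneV, ?_⟩⟩⟩
      rw [hf]
      exact (mem_nonvanishing s σ (hξ _ hnei)).mp (hξ _ hne)
    refine ⟨V, hxV, ?_⟩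
    filter_upwards [ext_aux s hV hneV hne _ hD hneD a] with N hN x hx j hj
    rw [hf] at hN
    have hji : Nonempty (L.U j ⊓ L.U i : X.Opens) := ⟨⟨x, hj, hVi' hx⟩⟩
    rw [secK_glue s σ hji, mul_pow, mul_assoc]
    exact mul_mem (((gK_un s hji _ (x := x) ⟨hj, hVi' hx⟩).pow n).pow N).1 (hN x hx)
  choose V hxV hV using key
  obtain ⟨t, ht⟩ := CompactSpace.elim_nhds_subcover (fun x => (V x : Set X))
    (fun x => (V x).2.mem_nhds (hxV x))
  have h1 : ∀ᶠ N : ℕ in Filter.atTop, ∀ x0 ∈ t, ∀ x ∈ V x0, ∀ i,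
      x ∈ L.U i → secK s σ i ^ N * gK s hne a ∈ regAt s x :=
    (Filter.eventually_all_finset t).mpr fun x0 _ => hV x0
  filter_upwards [h1] with N hN x i hx
  have h2 : x ∈ ⋃ x0 ∈ t, (V x0 : Set X) := by rw [ht]; trivial
  simp only [Set.mem_iUnion] at h2
  obtain ⟨x0, hx0, hxV0⟩ := h2
  exact hN x0 hx0 x hxV0 i hx

/-- powers of a line bundle -/
noncomputable def lpow (L : LineBundle X) (k : ℕ) : LineBundle X where
  ι := L.ι
  U := L.U
  covers := L.covers
  g i j := L.g i j ^ k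
  cocycle := by
    intro i j l V hij hjl hil
    have h := congrArg (· ^ k) (L.cocycle i j l V hij hjl hil)
    simp only [mul_pow] at h
    simp only [resU, map_pow] at h ⊢
    exact h

omit [IsIntegral X] in
lemma pow_glue {n : ℕ} (σ : L.PowSection n) (k : ℕ) (i j : L.ι) (V : X.Opens) (hi : V ≤ L.U i)
    (hj : V ≤ L.U j) : res hi (σ.s i ^ k) =
      ((resU (le_inf hi hj) (L.g i j ^ k) ^ n : (Fn X V)ˣ) : Fn X V) * res hj (σ.s j ^ k) := by
  have h := congrArg (· ^ k) (σ.glue i j V hi hj)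
  simp only [mul_pow] at h
  rw [map_pow, map_pow, h]
  congr 1
  rw [resU, resU, map_pow, Units.val_pow_eq_pow_val, Units.val_pow_eq_pow_val,
    Units.val_pow_eq_pow_val, ← pow_mul, ← pow_mul, mul_comm]

omit [IsIntegral X] in
lemma lpow_ample (hL : L.IsAmple) {k : ℕ} (hk : 0 < k) : (lpow L k).IsAmple := by
  refine ⟨hL.1, fun x => ?_⟩
  obtain ⟨n, hn, σ, hx, haff⟩ := hL.2 x
  let σ' : (lpow L k).PowSection n :=
    { s := fun i => σ.s i ^ k
      glue := pow_glue σ k }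
  have hnv : σ'.nonvanishing = σ.nonvanishing := by
    have h1 : ∀ i, nonvan (σ.s i ^ k) = nonvan (σ.s i) := fun i =>
      X.basicOpen_pow (U := L.U i) (σ.s i) hk
    exact iSup_congr h1
  exact ⟨n, hn, σ', by rw [hnv]; exact hx, by rw [hnv]; exact haff⟩

lemma sec_pow_glue {n : ℕ} (τ : L.PowSection n) (N : ℕ) (b : KK s) {i j : L.ι}
    (h : Nonempty (L.U i ⊓ L.U j : X.Opens)) : secK s τ i ^ N * b =
      gK s h ((L.g i j ^ (n * N) : (Fn X (L.U i ⊓ L.U j))ˣ) : Fn X (L.U i ⊓ L.U j)) *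
      (secK s τ j ^ N * b) := by
  rw [secK_glue s τ h, mul_pow, ← pow_mul, Units.val_pow_eq_pow_val, map_pow, mul_assoc]

/-- Given finitely many nonzero rational functions, some ample line bundle has a nonzero rational
section which vanishes on their divisors of zeros. -/
theorem exists_ample (hL : L.IsAmple) {S : Set (KK s)} (hS : S.Finite) :
    ∃ A : LineBundle X, A.IsAmple ∧ ∃ σ : A.ι → KK s,
      (∀ i, Nonempty (A.U i) → σ i ≠ 0) ∧
      (∀ i j (h : Nonempty (A.U i ⊓ A.U j : X.Opens)), σ i = gK s h (A.g i j) * σ j) ∧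
      ∀ h ∈ S, ∀ i, ∀ x ∈ A.U i, σ i * h⁻¹ ∈ regAt s x := by
  have hcomp := hL.1
  obtain ⟨n, hn, τ, hξ, haff⟩ := hL.2 (genericPoint X)
  have hne : Nonempty τ.nonvanishing := ⟨⟨_, hξ⟩⟩
  obtain ⟨b, hb0, hb⟩ := exists_common_den s haff hne (hS.image fun h => h⁻¹)
  have h1 : ∀ᶠ N : ℕ in Filter.atTop, ∀ h ∈ S, ∀ x i, x ∈ L.U i →
      secK s τ i ^ N * (h⁻¹ * gK s hne b) ∈ regAt s x := by
    rw [hS.eventually_all]
    intro h hh
    obtain ⟨c, hc⟩ := hb h⁻¹ ⟨h, hh, rfl⟩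
    rw [hc]
    exact ext_all s τ hne c
  obtain ⟨N, hN, hN1⟩ := (h1.and (Filter.eventually_gt_atTop 0)).exists
  refine ⟨lpow L (n * N), lpow_ample hL (Nat.mul_pos hn hN1),
    fun i => secK s τ i ^ N * gK s hne b, ?_, ?_, ?_⟩
  · intro i hi
    refine mul_ne_zero (pow_ne_zero _ ?_) hb0
    have hξi : genericPoint X ∈ L.U i :=
      ((genericPoint_spec X).mem_open_set_iff (L.U i).2).mpr ⟨_, trivial, hi.some.2⟩
    exact ((mem_nonvanishing s τ hξi).mp hξ).2.1
  · intro i j h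
    exact sec_pow_glue s τ N _ h
  · intro h hh i x hx
    have := hN h hh x i hx
    have e : secK s τ i ^ N * gK s hne b * h⁻¹ = secK s τ i ^ N * (h⁻¹ * gK s hne b) := by ring
    rw [e]
    exact this

end

end Pool.Agent.MP2b98ed
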