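import Pool.Agent.MP2b98ed.Pole

/-!
# The vector fields on the surfaces with a torus action
-/

set_option autoImplicit false

open Polynomial

namespace Pool.Agent.MP2b98ed

variable {K : Type} [Field K] [Algebra ℂ K]

/-- `Dt`, `Dy` are the partial derivatives for the coordinates `t`, `y`. -/
structure Coord (t y : K) (Dt Dy : Derivation ℂ K K) : Prop where
  tt : Dt t = 1
  ty : Dt y = 0
  yt : Dy t = 0
  yy : Dy y = 1

lemma der_aeval (D : Derivation ℂ K K) (t : K) (p : ℂ[X]) :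
    D (aeval t p) = aeval t (derivative p) * D t := by
  rw [Derivation.map_aeval, smul_eq_mul]

lemma der_inv (D : Derivation ℂ K K) (a : K) : D a⁻¹ = -(a⁻¹ ^ 2 * D a) := by
  rw [Derivation.leibniz_inv, smul_eq_mul]
  ring

lemma der_mul (D : Derivation ℂ K K) (a b : K) : D (a * b) = a * D b + b * D a := by
  rw [Derivation.leibniz, smul_eq_mul, smul_eq_mul]

lemma der_pow (D : Derivation ℂ K K) (a : K) (n : ℕ) :
    D (a ^ n) = n * (a ^ (n - 1) * D a) := by
  rw [Derivation.leibniz_pow, smul_eq_mul, nsmul_eq_mul]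

section

variable {t y : K} {Dt Dy : Derivation ℂ K K} (hc : Coord t y Dt Dy) (f : ℂ[X])

/-- `∂/∂t` for the coordinates `t`, `v = y - f(t)` -/
noncomputable def XX (t : K) (Dt Dy : Derivation ℂ K K) (f : ℂ[X]) : Derivation ℂ K K :=
  Dt + (aeval t (derivative f) : K) • Dy

/-- `v ∂/∂v` for the coordinates `t`, `v = y - f(t)` -/
noncomputable def TH (t y : K) (Dy : Derivation ℂ K K) (f : ℂ[X]) : Derivation ℂ K K :=
  (y - aeval t f) • Dy

include hc

lemma XX_t : XX t Dt Dy f t = 1 := by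
  simp [XX, hc.tt, hc.yt]

lemma XX_y : XX t Dt Dy f y = aeval t (derivative f) := by
  simp [XX, hc.ty, hc.yy]

lemma TH_t : TH t y Dy f t = 0 := by
  simp [TH, hc.yt]

lemma TH_y : TH t y Dy f y = y - aeval t f := by
  simp [TH, hc.yy]

lemma XX_p (p : ℂ[X]) : XX t Dt Dy f (aeval t p) = aeval t (derivative p) := by
  rw [der_aeval, XX_t hc, mul_one]

lemma TH_p (p : ℂ[X]) : TH t y Dy f (aeval t p) = 0 := by
  rw [der_aeval, TH_t hc, mul_zero]

lemma XX_v : XX t Dt Dy f (y - aeval t f) = 0 := by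
  rw [map_sub, XX_y hc, XX_p hc, sub_self]

lemma TH_v : TH t y Dy f (y - aeval t f) = y - aeval t f := by
  rw [map_sub, TH_y hc, TH_p hc, sub_zero]

/-- the three conditions at the points with finite `t`. -/
def Fin3 (O : Subalgebra ℂ K) (t y : K) (Dt Dy : Derivation ℂ K K) (f g : ℂ[X]) : Prop :=
  t ∈ O ∧ ii (TH t y Dy f) ∈ Sy O 1 ∧ (aeval t g : K) • ii (XX t Dt Dy f) ∈ Sy O 1 ∧
    ii (XX t Dt Dy f) * ((aeval t g : K) • ii (XX t Dt Dy f) +
      (aeval t (derivative g) : K) • ii (TH t y Dy f)) ∈ Sy O 2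

lemma typeA {O : Subalgebra ℂ K} {g : ℂ[X]} (hg : (aeval t g : K) ≠ 0)
    (hG : Gen O {t, (y - aeval t f) / aeval t g}) : Fin3 O t y Dt Dy f g := by
  set v := y - aeval t f with hv
  set G : K := aeval t g with hGd
  set G' : K := aeval t (derivative g) with hG'
  set X := XX t Dt Dy f with hX
  set T := TH t y Dy f with hT
  have ht : t ∈ O := hG.1 (by simp)
  have hu : v / G ∈ O := hG.1 (by simp)
  have hG'O : G' ∈ O := aeval_mem_of_mem ht _
  have hGO : G ∈ O := aeval_mem_of_mem ht _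
  have hXG : X G = G' := XX_p hc f g
  have hTG : T G = 0 := TH_p hc f g
  have hXv : X v = 0 := XX_v hc f
  have hTv : T v = v := TH_v hc f
  have hXt : X t = 1 := XX_t hc f
  have hTt : T t = 0 := TH_t hc f
  have hTT : T ∈ TT O := by
    apply hG.mem_TT
    rintro a (rfl | rfl)
    · rw [hTt]; exact O.zero_mem
    · rw [div_eq_mul_inv, der_mul, der_inv, hTG, hTv]
      convert hu using 1
      field_simp
      ring
  have hD : X + (G' / G) • T ∈ TT O := by
    apply hG.mem_TT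
    rintro a (rfl | rfl)
    · rw [Derivation.add_apply, Derivation.smul_apply, hXt, hTt, smul_zero, add_zero]
      exact O.one_mem
    · rw [Derivation.add_apply, Derivation.smul_apply, smul_eq_mul, div_eq_mul_inv v, der_mul,
        der_mul, der_inv, der_inv, hTG, hTv, hXG, hXv]
      convert O.zero_mem using 1
      field_simp
      ring
  have hGX : G • X ∈ TT O := by
    have e : G • X = G • (X + (G' / G) • T) - G' • T := by
      rw [smul_add, smul_smul, mul_div_cancel₀ _ hg]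
      abel
    rw [e]
    exact TT.sub (TT.smul hGO hD) (TT.smul hG'O hTT)
  have hGX' : G • ii X = ii (G • X) := by rw [map_smul]
  refine ⟨ht, Sy.ii_mem hTT, ?_, ?_⟩
  · rw [hGX']
    exact Sy.ii_mem hGX
  · have e : ii X * (G • ii X + G' • ii T) = ii (G • X) * ii (X + (G' / G) • T) := by
      rw [map_smul, map_add, map_smul]
      have e1 : G' • ii T = G • ((G' / G) • ii T) := by
        rw [smul_smul, mul_div_cancel₀ _ hg]
      rw [e1, ← smul_add, mul_smul_comm, smul_mul_assoc]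
    rw [e]
    exact Sy.mul_mem' (Sy.ii_mem hGX) (Sy.ii_mem hD) rfl

lemma typeB {O : Subalgebra ℂ K} {g : ℂ[X]} (hv0 : y - aeval t f ≠ 0)
    (hG : Gen O {t, y - aeval t f, aeval t g / (y - aeval t f)}) : Fin3 O t y Dt Dy f g := by
  set v := y - aeval t f with hv
  set G : K := aeval t g with hGd
  set G' : K := aeval t (derivative g) with hG'
  set X := XX t Dt Dy f with hX
  set T := TH t y Dy f with hT
  have ht : t ∈ O := hG.1 (by simp)
  have hvO : v ∈ O := hG.1 (by simp)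
  have hu : G / v ∈ O := hG.1 (by simp)
  have hG'O : G' ∈ O := aeval_mem_of_mem ht _
  have hGO : G ∈ O := aeval_mem_of_mem ht _
  have hXG : X G = G' := XX_p hc f g
  have hTG : T G = 0 := TH_p hc f g
  have hXv : X v = 0 := XX_v hc f
  have hTv : T v = v := TH_v hc f
  have hXt : X t = 1 := XX_t hc f
  have hTt : T t = 0 := TH_t hc f
  have hTT : T ∈ TT O := by
    apply hG.mem_TT
    rintro a (rfl | rfl | rfl)
    · rw [hTt]; exact O.zero_mem
    · rw [hTv]; exact hvO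
    · rw [div_eq_mul_inv, der_mul, der_inv, hTG, hTv]
      convert O.neg_mem hu using 1
      field_simp
      ring
  have h3 : v • X ∈ TT O := by
    apply hG.mem_TT
    rintro a (rfl | rfl | rfl)
    · rw [Derivation.smul_apply, hXt, smul_eq_mul, mul_one]; exact hvO
    · rw [Derivation.smul_apply, hXv, smul_zero]; exact O.zero_mem
    · rw [Derivation.smul_apply, smul_eq_mul, div_eq_mul_inv, der_mul, der_inv, hXG, hXv]
      convert hG'O using 1
      field_simp
      ring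
  have h2 : v⁻¹ • (G • X + G' • T) ∈ TT O := by
    apply hG.mem_TT
    rintro a (rfl | rfl | rfl)
    · rw [Derivation.smul_apply, Derivation.add_apply, Derivation.smul_apply,
        Derivation.smul_apply, hXt, hTt, smul_zero, add_zero, smul_eq_mul, smul_eq_mul, mul_one]
      rwa [mul_comm, ← div_eq_mul_inv]
    · rw [Derivation.smul_apply, Derivation.add_apply, Derivation.smul_apply,
        Derivation.smul_apply, hXv, hTv, smul_zero, zero_add, smul_eq_mul, smul_eq_mul]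
      convert hG'O using 1
      field_simp
    · rw [Derivation.smul_apply, Derivation.add_apply, Derivation.smul_apply,
        Derivation.smul_apply, smul_eq_mul, smul_eq_mul, smul_eq_mul, div_eq_mul_inv, der_mul,
        der_mul, der_inv, der_inv, hTG, hTv, hXG, hXv]
      convert O.zero_mem using 1
      field_simp
      ring
  refine ⟨ht, Sy.ii_mem hTT, ?_, ?_⟩
  · have e : G • ii X = (G / v) • ii (v • X) := by
      rw [map_smul, smul_smul, div_mul_cancel₀ _ hv0]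
    rw [e]
    exact Sy.smul_mem hu (Sy.ii_mem h3)
  · have e : ii X * (G • ii X + G' • ii T) = ii (v • X) * ii (v⁻¹ • (G • X + G' • T)) := by
      rw [map_smul, map_smul, map_add, map_smul, map_smul, smul_mul_smul_comm,
        mul_inv_cancel₀ hv0, one_smul]
    rw [e]
    exact Sy.mul_mem' (Sy.ii_mem h3) (Sy.ii_mem h2) rfl

lemma typeC {O : Subalgebra ℂ K} {g : ℂ[X]} (hy0 : y ≠ 0)
    (hG : Gen O {t, y⁻¹}) : Fin3 O t y Dt Dy f g := by
  set G : K := aeval t g with hGd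
  set G' : K := aeval t (derivative g) with hG'
  set X := XX t Dt Dy f with hX
  set T := TH t y Dy f with hT
  have ht : t ∈ O := hG.1 (by simp)
  have hu : y⁻¹ ∈ O := hG.1 (by simp)
  have hG'O : G' ∈ O := aeval_mem_of_mem ht _
  have hGO : G ∈ O := aeval_mem_of_mem ht _
  have hXt : X t = 1 := XX_t hc f
  have hTt : T t = 0 := TH_t hc f
  have hXy : X y = aeval t (derivative f) := XX_y hc f
  have hTy : T y = y - aeval t f := TH_y hc f
  have hf : aeval t f ∈ O := aeval_mem_of_mem ht _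
  have hf' : aeval t (derivative f) ∈ O := aeval_mem_of_mem ht _
  have hTT : T ∈ TT O := by
    apply hG.mem_TT
    rintro a (rfl | rfl)
    · rw [hTt]; exact O.zero_mem
    · rw [der_inv, hTy]
      convert O.sub_mem (O.mul_mem (O.mul_mem hu hu) hf) hu using 1
      field_simp
      ring
  have hXX : X ∈ TT O := by
    apply hG.mem_TT
    rintro a (rfl | rfl)
    · rw [hXt]; exact O.one_mem
    · rw [der_inv, hXy]
      exact O.neg_mem (O.mul_mem (O.pow_mem hu 2) hf')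
  refine ⟨ht, Sy.ii_mem hTT, Sy.smul_mem hGO (Sy.ii_mem hXX), ?_⟩
  exact Sy.mul_mem' (Sy.ii_mem hXX) (Submodule.add_mem _ (Sy.smul_mem hGO (Sy.ii_mem hXX))
    (Sy.smul_mem hG'O (Sy.ii_mem hTT))) rfl

end

lemma hat_poly {t : K} (ht0 : t ≠ 0) (n : ℕ) (f : ℂ[X]) (hf : f.natDegree ≤ n) :
    ∃ F : ℂ[X], t⁻¹ ^ n * aeval t f = aeval t⁻¹ F := by
  refine Polynomial.induction_with_natDegree_le
    (fun f => ∃ F : ℂ[X], t⁻¹ ^ n * aeval t f = aeval t⁻¹ F) n ⟨0, by simp⟩ ?_ ?_ f hf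
  · intro k r _ hk
    refine ⟨C r * X ^ (n - k), ?_⟩
    simp only [map_mul, map_pow, aeval_C, aeval_X]
    have h1 : t⁻¹ ^ n = t⁻¹ ^ (n - k) * t⁻¹ ^ k := by rw [← pow_add]; congr 1; omega
    rw [h1]
    have h2 : t⁻¹ ^ (n - k) * t⁻¹ ^ k * (algebraMap ℂ K r * t ^ k) =
        algebraMap ℂ K r * t⁻¹ ^ (n - k) * (t⁻¹ ^ k * t ^ k) := by ring
    rw [h2, ← mul_pow, inv_mul_cancel₀ ht0]
    ring
  · rintro p q _ _ ⟨P, hP⟩ ⟨Q, hQ⟩
    exact ⟨P + Q, by rw [map_add, mul_add, hP, hQ, map_add]⟩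

/-- the derivative of `f(t)/t^n` with respect to `1/t` is a polynomial in `1/t`. -/
lemma hat_deriv {t : K} (ht0 : t ≠ 0) (n : ℕ) (f : ℂ[X]) (hf : f.natDegree ≤ n) :
    ∃ F : ℂ[X], t⁻¹ ^ n * (n * t * aeval t f - t ^ 2 * aeval t (derivative f)) =
      aeval t⁻¹ F := by
  refine Polynomial.induction_with_natDegree_le
    (fun f => ∃ F : ℂ[X], t⁻¹ ^ n * (n * t * aeval t f - t ^ 2 * aeval t (derivative f)) =
      aeval t⁻¹ F) n ⟨0, by simp⟩ ?_ ?_ f hf
  · intro k r _ hk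
    refine ⟨C ((n - k : ℕ) * r) * X ^ (n - k - 1), ?_⟩
    simp only [map_mul, map_pow, aeval_C, aeval_X, derivative_C_mul, derivative_X_pow,
      map_natCast]
    rcases Nat.lt_or_ge k n with h | h
    · obtain ⟨l, rfl⟩ : ∃ l, n = k + l + 1 := ⟨n - k - 1, by omega⟩
      have e1 : k + l + 1 - k = l + 1 := by omega

      rw [e1, Nat.add_sub_cancel]
      have e3 : (t : K) ^ 2 * (algebraMap ℂ K r * (k * t ^ (k - 1))) =
          algebraMap ℂ K r * (k * t ^ (k + 1)) := by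
        rcases k with _ | k
        · simp
        · simp only [Nat.add_sub_cancel]
          ring
      rw [e3]
      have e4 : t⁻¹ ^ (k + l + 1) = t⁻¹ ^ l * t⁻¹ ^ (k + 1) := by rw [← pow_add]; congr 1; omega
      rw [e4]
      have e5 : t⁻¹ ^ l * t⁻¹ ^ (k + 1) * (((k + l + 1 : ℕ) : K) * t * (algebraMap ℂ K r * t ^ k) -
          algebraMap ℂ K r * ((k : K) * t ^ (k + 1))) =
          (((l + 1 : ℕ) : K)) * algebraMap ℂ K r * t⁻¹ ^ l * (t⁻¹ ^ (k + 1) * t ^ (k + 1)) := by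
        push_cast
        ring
      rw [e5, ← mul_pow, inv_mul_cancel₀ ht0, one_pow, mul_one]
    · have : k = n := by omega
      subst this
      rw [Nat.sub_self]
      have e3 : (t : K) ^ 2 * (algebraMap ℂ K r * (k * t ^ (k - 1))) =
          k * t * (algebraMap ℂ K r * t ^ k) := by
        rcases k with _ | k
        · simp
        · simp only [Nat.add_sub_cancel]
          ring
      rw [e3, sub_self, mul_zero]
      simp
  · rintro p q _ _ ⟨P, hP⟩ ⟨Q, hQ⟩
    refine ⟨P + Q, ?_⟩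
    rw [derivative_add, map_add, map_add, map_add, ← hP, ← hQ]
    ring

section

variable {t y : K} {Dt Dy : Derivation ℂ K K} (hc : Coord t y Dt Dy) (f : ℂ[X])

/-- `∂/∂s` for the coordinates `s = 1/t`, `v' = v/t^n`. -/
noncomputable def XI (t y : K) (Dt Dy : Derivation ℂ K K) (f : ℂ[X]) (n : ℕ) :
    Derivation ℂ K K :=
  -(t ^ 2 • XX t Dt Dy f) - ((n : K) * t) • TH t y Dy f

include hc

lemma typeD_aux (ht0 : t ≠ 0) (n : ℕ) (hf : f.natDegree ≤ n) {O : Subalgebra ℂ K}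
    (hs : t⁻¹ ∈ O) :
    XI t y Dt Dy f n t⁻¹ ∈ O ∧ TH t y Dy f t⁻¹ ∈ O ∧
    XI t y Dt Dy f n (t⁻¹ ^ n * y) ∈ O ∧
      ∃ F ∈ O, TH t y Dy f (t⁻¹ ^ n * y) = t⁻¹ ^ n * y - F := by
  have hXt : XX t Dt Dy f t = 1 := XX_t hc f
  have hTt : TH t y Dy f t = 0 := TH_t hc f
  have hXy : XX t Dt Dy f y = aeval t (derivative f) := XX_y hc f
  have hTy : TH t y Dy f y = y - aeval t f := TH_y hc f
  have hTs : TH t y Dy f t⁻¹ = 0 := by rw [der_inv, hTt]; simp
  have hXs : XX t Dt Dy f t⁻¹ = -t⁻¹ ^ 2 := by rw [der_inv, hXt]; simp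
  have hIs : XI t y Dt Dy f n t⁻¹ = 1 := by
    rw [XI, Derivation.sub_apply, Derivation.neg_apply, Derivation.smul_apply,
      Derivation.smul_apply, hTs, hXs, smul_zero, sub_zero, smul_eq_mul]
    field_simp
  have hTsn : TH t y Dy f (t⁻¹ ^ n) = 0 := by rw [der_pow, hTs]; simp
  have hXsn : XX t Dt Dy f (t⁻¹ ^ n) = -(n * t⁻¹ ^ (n + 1)) := by
    rw [der_pow, hXs]
    rcases n with _ | n
    · simp
    · simp only [Nat.add_sub_cancel]
      ring
  obtain ⟨F, hF⟩ := hat_poly ht0 n f hf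
  obtain ⟨F', hF'⟩ := hat_deriv ht0 n f hf
  refine ⟨by rw [hIs]; exact O.one_mem, by rw [hTs]; exact O.zero_mem, ?_,
    aeval t⁻¹ F, aeval_mem_of_mem hs F, ?_⟩
  · have e : XI t y Dt Dy f n (t⁻¹ ^ n * y) = aeval t⁻¹ F' := by
      rw [← hF', XI, Derivation.sub_apply, Derivation.neg_apply, Derivation.smul_apply,
        Derivation.smul_apply, der_mul, der_mul, hTsn, hTy, hXy, hXsn, smul_eq_mul, smul_eq_mul]
      have : t ^ 2 * t⁻¹ ^ (n + 1) = t * t⁻¹ ^ n := by
        rw [pow_succ' t⁻¹ n]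
        field_simp
      linear_combination (n : K) * y * this
    rw [e]
    exact aeval_mem_of_mem hs F'
  · rw [der_mul, hTsn, hTy, ← hF]
    ring

/-- the conditions at the points with `t ≠ 0`. -/
def Inf3 (O : Subalgebra ℂ K) (t y : K) (Dt Dy : Derivation ℂ K K) (f : ℂ[X]) (n : ℕ) : Prop :=
  t⁻¹ ∈ O ∧ ii (TH t y Dy f) ∈ Sy O 1 ∧ ii (XI t y Dt Dy f n) ∈ Sy O 1

lemma typeD (ht0 : t ≠ 0) (n : ℕ) (hf : f.natDegree ≤ n) {O : Subalgebra ℂ K}
    (hG : Gen O {t⁻¹, t⁻¹ ^ n * y}) : Inf3 O t y Dt Dy f n := by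
  have hs : t⁻¹ ∈ O := hG.1 (by simp)
  have hy' : t⁻¹ ^ n * y ∈ O := hG.1 (by simp)
  obtain ⟨h1, h2, h3, F, hF, h4⟩ := typeD_aux hc f ht0 n hf hs
  refine ⟨hs, Sy.ii_mem (hG.mem_TT ?_), Sy.ii_mem (hG.mem_TT ?_)⟩
  · rintro a (rfl | rfl)
    · exact h2
    · rw [h4]; exact O.sub_mem hy' hF
  · rintro a (rfl | rfl)
    · exact h1
    · exact h3

lemma typeE (ht0 : t ≠ 0) (hy0 : y ≠ 0) (n : ℕ) (hf : f.natDegree ≤ n) {O : Subalgebra ℂ K}
    (hG : Gen O {t⁻¹, (t⁻¹ ^ n * y)⁻¹}) : Inf3 O t y Dt Dy f n := by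
  have hs : t⁻¹ ∈ O := hG.1 (by simp)
  have hy' : (t⁻¹ ^ n * y)⁻¹ ∈ O := hG.1 (by simp)
  obtain ⟨h1, h2, h3, F, hF, h4⟩ := typeD_aux hc f ht0 n hf hs
  have hne : t⁻¹ ^ n * y ≠ 0 := mul_ne_zero (pow_ne_zero _ (inv_ne_zero ht0)) hy0
  refine ⟨hs, Sy.ii_mem (hG.mem_TT ?_), Sy.ii_mem (hG.mem_TT ?_)⟩
  · rintro a (rfl | rfl)
    · exact h2
    · rw [der_inv, h4]
      set z := t⁻¹ ^ n * y with hz
      have e : -(z⁻¹ ^ 2 * (z - F)) = z⁻¹ ^ 2 * F - z⁻¹ := by
        field_simp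
        ring
      rw [e]
      exact O.sub_mem (O.mul_mem (O.pow_mem hy' 2) hF) hy'
  · rintro a (rfl | rfl)
    · exact h1
    · rw [der_inv]
      exact O.neg_mem (O.mul_mem (O.pow_mem hy' 2) h3)

end

end Pool.Agent.MP2b98ed
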