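import Pool.Agent.MP2b98ed.Small3

/-!
# Local rings of the blow-ups of Hirzebruch surfaces; elementary transformations
-/

set_option autoImplicit false

open Polynomial

namespace Pool.Agent.MP2b98ed

variable {K : Type} [Field K] [Algebra ℂ K]

/-- the possible local rings of the blow-up of `𝔽_n` at four points on the section `y = f(t)`,
where `g = ∏ (t - t_i)`. -/
def LT (O : Subalgebra ℂ K) (t y : K) (n : ℕ) (f g : ℂ[X]) : Prop :=
  Gen O {t, (y - aeval t f) / aeval t g} ∨
  (Gen O {t, y - aeval t f, aeval t g / (y - aeval t f)} ∧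
    ¬ Un O (aeval t g / (y - aeval t f))) ∨
  (Gen O {t, y⁻¹} ∧ ¬ Un O y⁻¹) ∨
  (Gen O {t⁻¹, t⁻¹ ^ n * y} ∧ ¬ Un O t⁻¹) ∨
  (Gen O {t⁻¹, (t⁻¹ ^ n * y)⁻¹} ∧ ¬ Un O t⁻¹ ∧ ¬ Un O (t⁻¹ ^ n * y)⁻¹)

lemma Gen.of {O : Subalgebra ℂ K} {S S' : Set K} (hG : Gen O S) (hS : S' ⊆ O)
    (h : ∀ R : Subalgebra ℂ K, S' ⊆ R → (∀ r ∈ R, Un O r → r⁻¹ ∈ R) → S ⊆ R) : Gen O S' := by
  refine ⟨hS, fun R hR hinv => hG.2 R (h R hR fun r hr hu => hinv r hr hu.1 hu.2.2) hinv⟩

section conv

variable {O : Subalgebra ℂ K} {t y : K} (a : Fin 4 → ℂ)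

/-- `∏ (X - a_i)` over `i ∈ s` -/
noncomputable def gp (a : Fin 4 → ℂ) (s : Finset (Fin 4)) : ℂ[X] := ∏ i ∈ s, (X - C (a i))

lemma gp_aeval (s : Finset (Fin 4)) : (aeval t (gp a s) : K) =
    ∏ i ∈ s, (t - algebraMap ℂ K (a i)) := by
  simp [gp, map_prod]

lemma gp_un {s : Finset (Fin 4)} (h : ∀ i ∈ s, Un O (t - algebraMap ℂ K (a i))) :
    Un O (aeval t (gp a s) : K) := by
  rw [gp_aeval]
  exact Finset.prod_induction _ (Un O) (fun _ _ => Un.mul) Un.one h

lemma gp_erase {s : Finset (Fin 4)} {j : Fin 4} (hj : j ∈ s) : (aeval t (gp a s) : K) =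
    (t - algebraMap ℂ K (a j)) * aeval t (gp a (s.erase j)) := by
  rw [gp_aeval, gp_aeval, Finset.mul_prod_erase s (fun i => t - algebraMap ℂ K (a i)) hj]

lemma gp_compl (s : Finset (Fin 4)) : (aeval t (gp a Finset.univ) : K) =
    aeval t (gp a s) * aeval t (gp a sᶜ) := by
  rw [gp_aeval, gp_aeval, gp_aeval, Finset.prod_mul_prod_compl]

lemma gp_ne (ht : ∀ c : ℂ, t ≠ algebraMap ℂ K c) (s : Finset (Fin 4)) :
    (aeval t (gp a s) : K) ≠ 0 := by
  rw [gp_aeval]
  exact Finset.prod_ne_zero_iff.mpr fun i _ => sub_ne_zero.mpr (ht _)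

variable {a}

lemma others_un (hO : Loc O) (ha : Function.Injective a) (htO : t ∈ O) {j : Fin 4}
    (hj : ¬ Un O (t - algebraMap ℂ K (a j))) (i : Fin 4) (hi : i ≠ j) :
    Un O (t - algebraMap ℂ K (a i)) := by
  have h1 : t - algebraMap ℂ K (a i) = algebraMap ℂ K (a j - a i) +
      (t - algebraMap ℂ K (a j)) := by rw [map_sub]; ring
  rw [h1]
  exact hO.unit_add (Un.const (sub_ne_zero.mpr fun h => hi (ha h.symm)))
    (O.sub_mem htO (O.algebraMap_mem _)) hj

lemma sub_eval (h : ℂ[X]) (c : ℂ) : ∃ k : ℂ[X],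
    (aeval t h : K) = algebraMap ℂ K (h.eval c) + (t - algebraMap ℂ K c) * aeval t k := by
  obtain ⟨k, hk⟩ := X_sub_C_dvd_sub_C_eval (a := c) (p := h)
  refine ⟨k, ?_⟩
  have := congrArg (aeval t) hk
  simp only [map_sub, map_mul, aeval_X, aeval_C] at this
  rw [← this]
  ring

/-- the data of an elementary transformation at the points `i ∈ s` -/
structure ElData (a b : Fin 4 → ℂ) (s : Finset (Fin 4)) (n : ℕ) (f l h : ℂ[X]) : Prop where
  inj : Function.Injective a
  card : s.card = n
  hf : f = l + gp a s * h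
  deg : l.natDegree ≤ n
  b0 : ∀ i ∈ s, b i = 0
  b1 : ∀ i ∉ s, b i * h.eval (a i) = 1

variable {b : Fin 4 → ℂ} {s : Finset (Fin 4)} {n : ℕ} {f l h : ℂ[X]}
  (E : ElData a b s n f l h) (hO : Loc O) (ht : ∀ c : ℂ, t ≠ algebraMap ℂ K c)
  (hy : ∀ p : ℂ[X], y ≠ aeval t p)

include E hO ht hy

lemma convA (hG : Gen O {t, (y - aeval t f) / aeval t (gp a Finset.univ)}) :
    WT O t (aeval t (gp a s) / (y - aeval t l)) a b := by
  set v := y - aeval t f with hv
  set L := y - aeval t l with hL
  set Gs : K := aeval t (gp a s) with hGs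
  set Gc : K := aeval t (gp a sᶜ) with hGc
  set H : K := aeval t h with hH
  have hGs0 : Gs ≠ 0 := gp_ne a ht s
  have hGc0 : Gc ≠ 0 := gp_ne a ht sᶜ
  have hL0 : L ≠ 0 := sub_ne_zero.mpr (hy l)
  rw [gp_compl a s, ← hGs, ← hGc] at hG
  set u := v / (Gs * Gc) with hu
  have htO : t ∈ O := hG.1 (by simp)
  have huO : u ∈ O := hG.1 (by simp)
  have hHO : H ∈ O := aeval_mem_of_mem htO _
  have hGcO : Gc ∈ O := aeval_mem_of_mem htO _
  have hLv : L = v + Gs * H := by
    rw [hL, hv, E.hf, map_add, map_mul]; ring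
  set w := Gs / L with hw
  have hwi : w⁻¹ = Gc * u + H := by
    rw [hw, inv_div, hLv, hu]
    field_simp
  have hw0 : w ≠ 0 := div_ne_zero hGs0 hL0
  by_cases hall : ∀ i ∈ sᶜ, Un O (t - algebraMap ℂ K (a i))
  · right; left
    have hGu : Un O Gc := gp_un a hall
    refine hG.of ?_ ?_
    · rintro x (rfl | rfl)
      · exact htO
      · rw [SetLike.mem_coe, hwi]
        exact O.add_mem (O.mul_mem hGcO huO) hHO
    · intro R hR hinv
      have h1 : t ∈ R := hR (by simp)
      have h2 : w⁻¹ ∈ R := hR (by simp)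
      rintro x (rfl | rfl)
      · exact h1
      · have e : u = (w⁻¹ - H) * Gc⁻¹ := by
          rw [hwi]; field_simp; ring
        rw [SetLike.mem_coe, e]
        exact R.mul_mem (R.sub_mem h2 (aeval_mem_of_mem h1 _))
          (hinv _ (aeval_mem_of_mem h1 _) hGu)
  · push Not at hall
    obtain ⟨j, hj, hnj⟩ := hall
    right; right; right; right; left
    refine ⟨j, ?_⟩
    have hjs : j ∉ s := by simpa using hj
    have hT0 : t - algebraMap ℂ K (a j) ≠ 0 := sub_ne_zero.mpr (ht _)
    obtain ⟨k, hk⟩ := sub_eval (t := t) h (a j)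
    set T := t - algebraMap ℂ K (a j) with hT
    set Gc' : K := aeval t (gp a (sᶜ.erase j)) with hGc'
    have hGcc : Gc = T * Gc' := gp_erase a hj
    have hGu : Un O Gc' := gp_un a fun i hi =>
      others_un hO E.inj htO hnj i (Finset.mem_erase.mp hi).1
    have hkO : (aeval t k : K) ∈ O := aeval_mem_of_mem htO _
    have hTO : T ∈ O := O.sub_mem htO (O.algebraMap_mem _)
    have hb := E.b1 j hjs
    have hb0 : b j ≠ 0 := fun h => by simp [h] at hb
    have he0 : h.eval (a j) ≠ 0 := fun h => by simp [h] at hb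
    have hbK : algebraMap ℂ K (b j) * algebraMap ℂ K (h.eval (a j)) = 1 := by
      rw [← map_mul, hb, map_one]
    have hbK0 : algebraMap ℂ K (b j) ≠ 0 := by simpa using hb0
    have hwi2 : w⁻¹ = algebraMap ℂ K (h.eval (a j)) + T * (Gc' * u + aeval t k) := by
      rw [hwi, hH, hk, hGcc]; ring
    have hwU : Un O w⁻¹ := by
      rw [hwi2]
      exact hO.unit_add (Un.const he0) (O.mul_mem hTO (O.add_mem (O.mul_mem hGu.1 huO) hkO))
        (Loc.nonunit_mul hTO (O.add_mem (O.mul_mem hGu.1 huO) hkO) hnj)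
    have hwO : w ∈ O := by have := hwU.2.2; rwa [inv_inv] at this
    have hz : (w - algebraMap ℂ K (b j)) / T =
        -(w * algebraMap ℂ K (b j) * (Gc' * u + aeval t k)) := by
      rw [div_eq_iff hT0]
      have e1 : w * w⁻¹ = 1 := mul_inv_cancel₀ hw0
      rw [hwi2] at e1
      linear_combination (algebraMap ℂ K (b j)) * e1 - w * hbK
    refine hG.of ?_ ?_
    · rintro x (rfl | rfl)
      · exact htO
      · rw [SetLike.mem_coe, hz]
        exact O.neg_mem (O.mul_mem (O.mul_mem hwO (O.algebraMap_mem _))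
          (O.add_mem (O.mul_mem hGu.1 huO) hkO))
    · intro R hR hinv
      have h1 : t ∈ R := hR (by simp)
      have h2 : (w - algebraMap ℂ K (b j)) / T ∈ R := hR (by simp)
      have hTR : T ∈ R := R.sub_mem h1 (R.algebraMap_mem _)
      have h3 : w ∈ R := by
        have e : w = algebraMap ℂ K (b j) + (w - algebraMap ℂ K (b j)) / T * T := by
          rw [div_mul_cancel₀ _ hT0]; ring
        rw [e]
        exact R.add_mem (R.algebraMap_mem _) (R.mul_mem h2 hTR)
      have hwU' : Un O w := by have := hwU.inv; rwa [inv_inv] at this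
      rintro x (rfl | rfl)
      · exact h1
      · have e : u = (-((w - algebraMap ℂ K (b j)) / T) * w⁻¹ * algebraMap ℂ K (b j)⁻¹ -
            aeval t k) * Gc'⁻¹ := by
          rw [hz]
          have := hGu.2.1
          rw [map_inv₀]
          field_simp
          ring
        rw [SetLike.mem_coe, e]
        exact R.mul_mem (R.sub_mem (R.mul_mem (R.mul_mem (R.neg_mem h2) (hinv _ h3 hwU'))
          (R.algebraMap_mem _)) (aeval_mem_of_mem h1 _)) (hinv _ (aeval_mem_of_mem h1 _) hGu)

lemma convB (hG : Gen O {t, y - aeval t f, aeval t (gp a Finset.univ) / (y - aeval t f)})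
    (hnu : ¬ Un O ((aeval t (gp a Finset.univ) : K) / (y - aeval t f))) :
    WT O t (aeval t (gp a s) / (y - aeval t l)) a b := by
  have hv0 : y - aeval t f ≠ 0 := sub_ne_zero.mpr (hy f)
  set v := y - aeval t f with hv
  set L := y - aeval t l with hL
  set G : K := aeval t (gp a Finset.univ) with hGd
  set Gs : K := aeval t (gp a s) with hGs
  set H : K := aeval t h with hH
  have hG0 : G ≠ 0 := gp_ne a ht _
  have hGs0 : Gs ≠ 0 := gp_ne a ht s
  have hL0 : L ≠ 0 := sub_ne_zero.mpr (hy l)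
  set u := G / v with hu
  have htO : t ∈ O := hG.1 (by simp)
  have hvO : v ∈ O := hG.1 (by simp)
  have huO : u ∈ O := hG.1 (by simp)
  have hHO : H ∈ O := aeval_mem_of_mem htO _
  have hGO : G ∈ O := aeval_mem_of_mem htO _
  have hGsO : Gs ∈ O := aeval_mem_of_mem htO _
  have hGuv : G = u * v := by rw [hu, div_mul_cancel₀ _ hv0]
  have hLv : L = v + Gs * H := by
    rw [hL, hv, E.hf, map_add, map_mul]; ring
  have hLO : L ∈ O := by rw [hLv]; exact O.add_mem hvO (O.mul_mem hGsO hHO)
  have hvL : v = L - Gs * H := by rw [hLv]; ring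
  set w := Gs / L with hw
  have hw0 : w ≠ 0 := div_ne_zero hGs0 hL0
  have hnG : ¬ Un O G := by rw [hGuv]; exact Loc.nonunit_mul huO hvO hnu
  obtain ⟨j, hnj⟩ : ∃ j, ¬ Un O (t - algebraMap ℂ K (a j)) := by
    by_contra hcon
    push Not at hcon
    exact hnG (gp_un a fun i _ => hcon i)
  have hoth := fun i hi => others_un hO E.inj htO hnj i hi
  have hT0 : t - algebraMap ℂ K (a j) ≠ 0 := sub_ne_zero.mpr (ht _)
  have hGj : G = (t - algebraMap ℂ K (a j)) * aeval t (gp a (Finset.univ.erase j)) :=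
    gp_erase a (Finset.mem_univ j)
  have hGjU : Un O (aeval t (gp a (Finset.univ.erase j)) : K) :=
    gp_un a fun i hi => hoth i (Finset.mem_erase.mp hi).1
  obtain ⟨k, hk⟩ := sub_eval (t := t) h (a j)
  set T := t - algebraMap ℂ K (a j) with hT
  set Gj : K := aeval t (gp a (Finset.univ.erase j)) with hGjd
  have hTO : T ∈ O := O.sub_mem htO (O.algebraMap_mem _)
  have hkO : (aeval t k : K) ∈ O := aeval_mem_of_mem htO _
  by_cases hvU : Un O v
  · -- a point of the fibre
    by_cases hjs : j ∈ s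
    · right; right; right; right; left
      refine ⟨j, ?_⟩
      have hb := E.b0 j hjs
      have hGsj : Gs = T * aeval t (gp a (s.erase j)) := gp_erase a hjs
      have hGsU : Un O (aeval t (gp a (s.erase j)) : K) :=
        gp_un a fun i hi => hoth i (Finset.mem_erase.mp hi).1
      set Gsj : K := aeval t (gp a (s.erase j)) with hGsjd
      have hLU : Un O L := by
        rw [hLv]
        refine hO.unit_add hvU (O.mul_mem hGsO hHO) (Loc.nonunit_mul hGsO hHO ?_)
        rw [hGsj]
        exact Loc.nonunit_mul hTO hGsU.1 hnj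
      have hz : (w - algebraMap ℂ K (b j)) / T = Gsj / L := by
        rw [hb, map_zero, sub_zero, hw, hGsj]
        field_simp
      have hzU : Un O ((w - algebraMap ℂ K (b j)) / T) := by rw [hz]; exact hGsU.div hLU
      refine hG.of ?_ ?_
      · rintro x (rfl | rfl)
        · exact htO
        · exact hzU.1
      · intro R hR hinv
        have h1 : t ∈ R := hR (by simp)
        have h2 : (w - algebraMap ℂ K (b j)) / T ∈ R := hR (Or.inr rfl)
        have h3 := hinv _ h2 hzU
        have h4 : L ∈ R := by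
          have e : L = Gsj * ((w - algebraMap ℂ K (b j)) / T)⁻¹ := by
            rw [hz, inv_div]
            have := hGsU.2.1
            field_simp
          rw [e]
          exact R.mul_mem (aeval_mem_of_mem h1 _) h3
        have h5 : v ∈ R := by
          rw [hvL]
          exact R.sub_mem h4 (R.mul_mem (aeval_mem_of_mem h1 _) (aeval_mem_of_mem h1 _))
        rintro x (rfl | rfl | rfl)
        · exact h1
        · exact h5
        · rw [SetLike.mem_coe, hu, div_eq_mul_inv]
          exact R.mul_mem (aeval_mem_of_mem h1 _) (hinv _ h5 hvU)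
    · right; left
      have hGsU : Un O Gs := gp_un a fun i hi => hoth i fun hij => hjs (hij ▸ hi)
      have hwi : w⁻¹ = L * Gs⁻¹ := by rw [hw, inv_div, div_eq_mul_inv]
      refine hG.of ?_ ?_
      · rintro x (rfl | rfl)
        · exact htO
        · rw [SetLike.mem_coe, hwi]
          exact O.mul_mem hLO hGsU.2.2
      · intro R hR hinv
        have h1 : t ∈ R := hR (by simp)
        have h2 : w⁻¹ ∈ R := hR (by simp)
        have h4 : L ∈ R := by
          have e : L = Gs * w⁻¹ := by rw [hwi]; field_simp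
          rw [e]
          exact R.mul_mem (aeval_mem_of_mem h1 _) h2
        have h5 : v ∈ R := by
          rw [hvL]
          exact R.sub_mem h4 (R.mul_mem (aeval_mem_of_mem h1 _) (aeval_mem_of_mem h1 _))
        rintro x (rfl | rfl | rfl)
        · exact h1
        · exact h5
        · rw [SetLike.mem_coe, hu, div_eq_mul_inv]
          exact R.mul_mem (aeval_mem_of_mem h1 _) (hinv _ h5 hvU)
  · -- the point at infinity of the exceptional curve
    right; right; right; right; right
    refine ⟨j, ?_⟩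
    by_cases hjs : j ∈ s
    · have hb := E.b0 j hjs
      have hGsj : Gs = T * aeval t (gp a (s.erase j)) := gp_erase a hjs
      have hGsU : Un O (aeval t (gp a (s.erase j)) : K) :=
        gp_un a fun i hi => hoth i (Finset.mem_erase.mp hi).1
      set Gsj : K := aeval t (gp a (s.erase j)) with hGsjd
      have hGc : G = Gs * aeval t (gp a sᶜ) := gp_compl a s
      have hGcU : Un O (aeval t (gp a sᶜ) : K) := gp_un a fun i hi => hoth i fun hij => by
        rw [Finset.mem_compl] at hi
        exact hi (hij ▸ hjs)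
      set Gc : K := aeval t (gp a sᶜ) with hGcd
      -- `L = v * μ`
      have hμU : Un O (1 + u * (H * Gc⁻¹)) :=
        hO.unit_add Un.one (O.mul_mem huO (O.mul_mem hHO hGcU.2.2))
          (Loc.nonunit_mul huO (O.mul_mem hHO hGcU.2.2) hnu)
      set μ := 1 + u * (H * Gc⁻¹) with hμ
      have hGc0 := hGcU.2.1
      have hμ0 := hμU.2.1
      have hGs2 : Gs = u * v * Gc⁻¹ := by
        rw [← hGuv, hGc]; field_simp
      have hLμ : L = v * μ := by
        rw [hLv, hμ, hGs2]; ring
      have hwu : w = u * (Gc * μ)⁻¹ := by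
        rw [hw, hLμ, hGs2]; field_simp
      have hwO : w ∈ O := by
        rw [hwu]; exact O.mul_mem huO (hGcU.mul hμU).2.2
      have hwn : ¬ Un O w := by
        rw [hwu]; exact Loc.nonunit_mul huO (hGcU.mul hμU).2.2 hnu
      have hzz : T / (w - algebraMap ℂ K (b j)) = L * Gsj⁻¹ := by
        rw [hb, map_zero, sub_zero, hw, hGsj]
        have := hGsU.2.1
        field_simp
      have h1wU : Un O (1 + -(w * H)) :=
        hO.unit_add Un.one (O.neg_mem (O.mul_mem hwO hHO))
          (fun h => Loc.nonunit_mul hwO hHO hwn (by simpa using h.neg))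
      refine hG.of ?_ ?_
      · rintro x (rfl | rfl)
        · exact hwO
        · rw [SetLike.mem_coe, hzz]
          exact O.mul_mem hLO hGsU.2.2
      · intro R hR hinv
        have h1 : w ∈ R := hR (by simp)
        have h2 : T / (w - algebraMap ℂ K (b j)) ∈ R := hR (Or.inr rfl)
        have hTR : T ∈ R := by
          have e : T = w * (T / (w - algebraMap ℂ K (b j))) := by
            rw [hb, map_zero, sub_zero, mul_div_cancel₀ _ hw0]
          rw [e]
          exact R.mul_mem h1 h2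
        have htR : t ∈ R := by
          have e : t = T + algebraMap ℂ K (a j) := by rw [hT]; ring
          rw [e]; exact R.add_mem hTR (R.algebraMap_mem _)
        have h4 : L ∈ R := by
          have e : L = Gsj * (T / (w - algebraMap ℂ K (b j))) := by
            rw [hzz]
            have := hGsU.2.1
            field_simp
          rw [e]
          exact R.mul_mem (aeval_mem_of_mem htR _) h2
        have h5 : v ∈ R := by
          rw [hvL]
          exact R.sub_mem h4 (R.mul_mem (aeval_mem_of_mem htR _) (aeval_mem_of_mem htR _))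
        have hHR : H ∈ R := aeval_mem_of_mem htR _
        rintro x (rfl | rfl | rfl)
        · exact htR
        · exact h5
        · have e : u = w * Gc * (1 + -(w * H))⁻¹ := by
            have h6 : u * (1 + -(w * H)) = w * Gc := by
              have h7 : w * (Gc * μ) = u := by
                rw [hwu, mul_assoc, inv_mul_cancel₀ (mul_ne_zero hGc0 hμ0), mul_one]
              have h8 : w * (Gc * μ) = w * Gc + w * u * H * (Gc⁻¹ * Gc) := by
                rw [hμ]; ring
              rw [inv_mul_cancel₀ hGc0, mul_one] at h8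
              linear_combination h8 - h7
            rw [← h6, mul_assoc, mul_inv_cancel₀ h1wU.2.1, mul_one]
          rw [SetLike.mem_coe, e]
          exact R.mul_mem (R.mul_mem h1 (aeval_mem_of_mem htR _))
            (hinv _ (R.add_mem R.one_mem (R.neg_mem (R.mul_mem h1 hHR))) h1wU)
    · have hGsU : Un O Gs := gp_un a fun i hi => hoth i fun hij => hjs (hij ▸ hi)
      have hb := E.b1 j hjs
      have hb0 : b j ≠ 0 := fun h => by simp [h] at hb
      have he0 : h.eval (a j) ≠ 0 := fun h => by simp [h] at hb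
      have hbK : algebraMap ℂ K (b j) * algebraMap ℂ K (h.eval (a j)) = 1 := by
        rw [← map_mul, hb, map_one]
      set β := algebraMap ℂ K (b j) with hβ
      set ε := algebraMap ℂ K (h.eval (a j)) with hε
      have hβ0 : β ≠ 0 := by simpa [hβ] using hb0
      have hwi : w⁻¹ = ε + (v * Gs⁻¹ + T * aeval t k) := by
        rw [hw, inv_div, hLv, hH, hk, add_div, mul_div_cancel_left₀ _ hGs0]
        rw [div_eq_mul_inv]
        ring
      have hwU' : Un O w⁻¹ := by
        rw [hwi]
        refine hO.unit_add (Un.const he0) (O.add_mem (O.mul_mem hvO hGsU.2.2)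
          (O.mul_mem hTO hkO)) (hO.nonunit_add (O.mul_mem hvO hGsU.2.2) (O.mul_mem hTO hkO)
          (Loc.nonunit_mul hvO hGsU.2.2 hvU) (Loc.nonunit_mul hTO hkO hnj))
      have hwU : Un O w := by have := hwU'.inv; rwa [inv_inv] at this
      have hTu : T = u * v * Gj⁻¹ := by
        rw [← hGuv, hGj]
        have := hGjU.2.1
        field_simp
      have hμU : Un O (Gs⁻¹ + u * (aeval t k * Gj⁻¹)) :=
        hO.unit_add hGsU.inv (O.mul_mem huO (O.mul_mem hkO hGjU.2.2))
          (Loc.nonunit_mul huO (O.mul_mem hkO hGjU.2.2) hnu)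
      set μ := Gs⁻¹ + u * (aeval t k * Gj⁻¹) with hμ
      have hwβ : w - β = -(w * β * v * μ) := by
        have e1 : w * w⁻¹ = 1 := mul_inv_cancel₀ hw0
        rw [hwi, hTu] at e1
        rw [hμ]
        linear_combination β * e1 - w * hbK
      have hβU : Un O β := Un.const hb0
      have hzz : T / (w - β) = -(u * (Gj * w * β * μ)⁻¹) := by
        rw [hwβ, hTu]
        have := hGjU.2.1
        have := hμU.2.1
        field_simp
      have hUU : Un O (Gj * w * β * μ) := ((hGjU.mul hwU).mul hβU).mul hμU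
      have hzzO : T / (w - β) ∈ O := by
        rw [hzz]
        exact O.neg_mem (O.mul_mem huO hUU.2.2)
      have hzzn : ¬ Un O (T / (w - β)) := by
        rw [hzz]
        exact fun h => Loc.nonunit_mul huO hUU.2.2 hnu (by simpa using h.neg)
      have hwβ0 : w - β ≠ 0 := by
        rw [hwβ]
        have := hμU.2.1
        exact neg_ne_zero.mpr (mul_ne_zero (mul_ne_zero (mul_ne_zero hw0 hβ0) hv0) this)
      set z := T / (w - β) with hzd
      have hzkO : z * (w * β * aeval t k) ∈ O :=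
        O.mul_mem hzzO (O.mul_mem (O.mul_mem hwU.1 hβU.1) hkO)
      have h1U : Un O (1 + z * (w * β * aeval t k)) :=
        hO.unit_add Un.one hzkO
          (Loc.nonunit_mul hzzO (O.mul_mem (O.mul_mem hwU.1 hβU.1) hkO) hzzn)
      refine hG.of ?_ ?_
      · rintro x (rfl | rfl)
        · exact hwU.1
        · exact hzzO
      · intro R hR hinv
        have h1 : w ∈ R := hR (by simp)
        have h2 : z ∈ R := hR (by simp)
        have hβR : β ∈ R := R.algebraMap_mem _
        have hTR : T ∈ R := by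
          have e : T = (w - β) * z := by rw [hzd, mul_div_cancel₀ _ hwβ0]
          rw [e]
          exact R.mul_mem (R.sub_mem h1 hβR) h2
        have htR : t ∈ R := by
          have e : t = T + algebraMap ℂ K (a j) := by rw [hT]; ring
          rw [e]; exact R.add_mem hTR (R.algebraMap_mem _)
        have hGsR : Gs ∈ R := aeval_mem_of_mem htR _
        have h4 : L ∈ R := by
          have e : L = Gs * w⁻¹ := by rw [hw, inv_div]; field_simp
          rw [e]
          exact R.mul_mem hGsR (hinv _ h1 hwU)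
        have h5 : v ∈ R := by
          rw [hvL]
          exact R.sub_mem h4 (R.mul_mem hGsR (aeval_mem_of_mem htR _))
        have hkR : (aeval t k : K) ∈ R := aeval_mem_of_mem htR _
        have hGjR : Gj ∈ R := aeval_mem_of_mem htR _
        rintro x (rfl | rfl | rfl)
        · exact htR
        · exact h5
        · have e : u = -(z * Gj * w * β * Gs⁻¹) * (1 + z * (w * β * aeval t k))⁻¹ := by
            have h6 : u * (1 + z * (w * β * aeval t k)) = -(z * Gj * w * β * Gs⁻¹) := by
              have h7 : z * (Gj * w * β * μ) = -u := by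
                rw [hzz]
                have := hUU.2.1
                rw [neg_mul, mul_assoc, inv_mul_cancel₀ this, mul_one]
              have h8 : z * (Gj * w * β * μ) = z * Gj * w * β * Gs⁻¹ +
                  u * (z * (w * β * aeval t k)) * (Gj * Gj⁻¹) := by
                rw [hμ]; ring
              rw [mul_inv_cancel₀ hGjU.2.1, mul_one] at h8
              linear_combination h7 - h8
            rw [← h6, mul_assoc, mul_inv_cancel₀ h1U.2.1, mul_one]
          rw [SetLike.mem_coe, e]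
          exact R.mul_mem (R.neg_mem (R.mul_mem (R.mul_mem (R.mul_mem (R.mul_mem h2 hGjR) h1) hβR)
            (hinv _ hGsR hGsU))) (hinv _ (R.add_mem R.one_mem (R.mul_mem h2
              (R.mul_mem (R.mul_mem h1 hβR) hkR))) h1U)

lemma convC (hG : Gen O {t, y⁻¹}) (hn : ¬ Un O y⁻¹) :
    WT O t (aeval t (gp a s) / (y - aeval t l)) a b := by
  have hy0 : y ≠ 0 := by simpa using hy 0
  set L := y - aeval t l with hL
  set Gs : K := aeval t (gp a s) with hGs
  have hGs0 : Gs ≠ 0 := gp_ne a ht s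
  have hL0 : L ≠ 0 := sub_ne_zero.mpr (hy l)
  have htO : t ∈ O := hG.1 (by simp)
  have hyO : y⁻¹ ∈ O := hG.1 (by simp)
  set w := Gs / L with hw
  have hlO : (aeval t l : K) ∈ O := aeval_mem_of_mem htO _
  have hM : Un O (1 + -(aeval t l * y⁻¹)) :=
    hO.unit_add Un.one (O.neg_mem (O.mul_mem hlO hyO))
      (fun h => Loc.nonunit_mul' hlO hyO hn (by simpa using h.neg))
  have hLM : L⁻¹ = y⁻¹ * (1 + -(aeval t l * y⁻¹))⁻¹ := by
    rw [← mul_inv]
    congr 1
    rw [hL]
    field_simp
    ring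
  have hLO : L⁻¹ ∈ O := by rw [hLM]; exact O.mul_mem hyO hM.2.2
  have hM' : (1 + -(aeval t l * y⁻¹))⁻¹ = 1 + aeval t l * L⁻¹ := by
    have h1 := hM.2.1
    have h2 : 1 + -(aeval t l * y⁻¹) = L / y := by
      rw [hL]; field_simp; ring
    rw [h2, inv_div]
    have h3 : y = L + aeval t l := by rw [hL]; ring
    nth_rewrite 1 [h3]
    field_simp
  have hN : Un O (1 + aeval t l * L⁻¹) := by rw [← hM']; exact hM.inv
  have hyL : y⁻¹ = L⁻¹ * (1 + aeval t l * L⁻¹)⁻¹ := by
    rw [← hM', inv_inv, hLM, mul_assoc, inv_mul_cancel₀ hM.2.1, mul_one]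
  by_cases hall : ∀ i ∈ s, Un O (t - algebraMap ℂ K (a i))
  · left
    have hGsU : Un O Gs := gp_un a hall
    refine hG.of ?_ ?_
    · rintro x (rfl | rfl)
      · exact htO
      · rw [SetLike.mem_coe, hw, div_eq_mul_inv]
        exact O.mul_mem hGsU.1 hLO
    · intro R hR hinv
      have h1 : t ∈ R := hR (by simp)
      have h2 : w ∈ R := hR (by simp)
      have hGsR : Gs ∈ R := aeval_mem_of_mem h1 _
      have h3 : L⁻¹ ∈ R := by
        have e : L⁻¹ = w * Gs⁻¹ := by rw [hw]; field_simp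
        rw [e]
        exact R.mul_mem h2 (hinv _ hGsR hGsU)
      rintro x (rfl | rfl)
      · exact h1
      · rw [SetLike.mem_coe, hyL]
        exact R.mul_mem h3 (hinv _ (R.add_mem R.one_mem (R.mul_mem (aeval_mem_of_mem h1 _) h3)) hN)
  · push Not at hall
    obtain ⟨j, hjs, hnj⟩ := hall
    right; right; right; right; left
    refine ⟨j, ?_⟩
    have hT0 : t - algebraMap ℂ K (a j) ≠ 0 := sub_ne_zero.mpr (ht _)
    have hb := E.b0 j hjs
    have hGsj : Gs = (t - algebraMap ℂ K (a j)) * aeval t (gp a (s.erase j)) := gp_erase a hjs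
    have hGsU : Un O (aeval t (gp a (s.erase j)) : K) :=
      gp_un a fun i hi => others_un hO E.inj htO hnj i (Finset.mem_erase.mp hi).1
    set Gsj : K := aeval t (gp a (s.erase j)) with hGsjd
    have hz : (w - algebraMap ℂ K (b j)) / (t - algebraMap ℂ K (a j)) = Gsj * L⁻¹ := by
      rw [hb, map_zero, sub_zero, hw, hGsj]
      field_simp
    refine hG.of ?_ ?_
    · rintro x (rfl | rfl)
      · exact htO
      · rw [SetLike.mem_coe, hz]
        exact O.mul_mem hGsU.1 hLO
    · intro R hR hinv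
      have h1 : t ∈ R := hR (by simp)
      have h2 : (w - algebraMap ℂ K (b j)) / (t - algebraMap ℂ K (a j)) ∈ R := hR (Or.inr rfl)
      have h3 : L⁻¹ ∈ R := by
        have e : L⁻¹ = Gsj⁻¹ * ((w - algebraMap ℂ K (b j)) / (t - algebraMap ℂ K (a j))) := by
          rw [hz, ← mul_assoc, inv_mul_cancel₀ hGsU.2.1, one_mul]
        rw [e]
        exact R.mul_mem (hinv _ (aeval_mem_of_mem h1 _) hGsU) h2
      rintro x (rfl | rfl)
      · exact h1
      · rw [SetLike.mem_coe, hyL]
        exact R.mul_mem h3 (hinv _ (R.add_mem R.one_mem (R.mul_mem (aeval_mem_of_mem h1 _) h3)) hN)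

omit hy in
lemma hat_gp (hs : t⁻¹ ∈ O) (hn : ¬ Un O t⁻¹) : Un O (t⁻¹ ^ n * aeval t (gp a s)) ∧
    ∀ R : Subalgebra ℂ K, t⁻¹ ∈ R → t⁻¹ ^ n * aeval t (gp a s) ∈ R := by
  have ht0 : t ≠ 0 := by simpa using ht 0
  have e : t⁻¹ ^ n * aeval t (gp a s) = ∏ i ∈ s, (1 + -(algebraMap ℂ K (a i) * t⁻¹)) := by
    rw [← E.card, gp_aeval, ← Finset.prod_const, ← Finset.prod_mul_distrib]
    refine Finset.prod_congr rfl fun i _ => ?_
    field_simp
    ring
  rw [e]
  refine ⟨Finset.prod_induction _ (Un O) (fun _ _ => Un.mul) Un.one fun i _ =>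
    hO.unit_add Un.one (O.neg_mem (O.mul_mem (O.algebraMap_mem _) hs))
      (fun h => Loc.nonunit_mul' (O.algebraMap_mem _) hs hn (by simpa using h.neg)), fun R hR =>
    R.prod_mem fun i _ => R.add_mem R.one_mem (R.neg_mem (R.mul_mem (R.algebraMap_mem _) hR))⟩

lemma convD (hG : Gen O {t⁻¹, t⁻¹ ^ n * y}) (hn : ¬ Un O t⁻¹) :
    WT O t (aeval t (gp a s) / (y - aeval t l)) a b := by
  have ht0 : t ≠ 0 := by simpa using ht 0
  have hsO : t⁻¹ ∈ O := hG.1 (by simp)
  have hYO : t⁻¹ ^ n * y ∈ O := hG.1 (by simp)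
  obtain ⟨hGU, hGR⟩ := hat_gp E hO ht hsO hn
  obtain ⟨F, hF⟩ := hat_poly ht0 n l E.deg
  have hlR : ∀ R : Subalgebra ℂ K, t⁻¹ ∈ R → t⁻¹ ^ n * aeval t l ∈ R := fun R hR => by
    rw [hF]; exact aeval_mem_of_mem hR _
  set Y := t⁻¹ ^ n * y with hY
  set Gh := t⁻¹ ^ n * aeval t (gp a s) with hGh
  set lh := t⁻¹ ^ n * aeval t l with hlh
  have hwi : (aeval t (gp a s) / (y - aeval t l))⁻¹ = (Y - lh) * Gh⁻¹ := by
    rw [inv_div, hY, hlh, hGh, ← mul_sub, mul_inv, div_eq_mul_inv]
    have : (t⁻¹ ^ n : K) ≠ 0 := pow_ne_zero _ (inv_ne_zero ht0)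
    field_simp
  right; right; right; left
  refine hG.of ?_ ?_
  · rintro x (rfl | rfl)
    · exact hsO
    · rw [SetLike.mem_coe, hwi]
      exact O.mul_mem (O.sub_mem hYO (hlR O hsO)) hGU.2.2
  · intro R hR hinv
    have h1 : t⁻¹ ∈ R := hR (by simp)
    have h2 : (aeval t (gp a s) / (y - aeval t l))⁻¹ ∈ R := hR (Or.inr rfl)
    rintro x (rfl | rfl)
    · exact h1
    · have e : Y = Gh * (aeval t (gp a s) / (y - aeval t l))⁻¹ + lh := by
        rw [hwi]
        have := hGU.2.1
        field_simp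
        ring
      rw [SetLike.mem_coe, e]
      exact R.add_mem (R.mul_mem (hGR R h1) h2) (hlR R h1)

lemma convE (hG : Gen O {t⁻¹, (t⁻¹ ^ n * y)⁻¹}) (hn : ¬ Un O t⁻¹)
    (hn' : ¬ Un O (t⁻¹ ^ n * y)⁻¹) :
    WT O t (aeval t (gp a s) / (y - aeval t l)) a b := by
  have ht0 : t ≠ 0 := by simpa using ht 0
  have hy0 : y ≠ 0 := by simpa using hy 0
  have hsO : t⁻¹ ∈ O := hG.1 (by simp)
  have hYO : (t⁻¹ ^ n * y)⁻¹ ∈ O := hG.1 (by simp)
  obtain ⟨hGU, hGR⟩ := hat_gp E hO ht hsO hn
  obtain ⟨F, hF⟩ := hat_poly ht0 n l E.deg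
  have hlR : ∀ R : Subalgebra ℂ K, t⁻¹ ∈ R → t⁻¹ ^ n * aeval t l ∈ R := fun R hR => by
    rw [hF]; exact aeval_mem_of_mem hR _
  have htn : (t⁻¹ ^ n : K) ≠ 0 := pow_ne_zero _ (inv_ne_zero ht0)
  have hY0 : t⁻¹ ^ n * y ≠ 0 := mul_ne_zero htn hy0
  have hL0 : y - aeval t l ≠ 0 := sub_ne_zero.mpr (hy l)
  have hYl : t⁻¹ ^ n * y - t⁻¹ ^ n * aeval t l ≠ 0 := by
    rw [← mul_sub]; exact mul_ne_zero htn hL0
  set Y := t⁻¹ ^ n * y with hY
  set Gh := t⁻¹ ^ n * aeval t (gp a s) with hGh
  set lh := t⁻¹ ^ n * aeval t l with hlh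
  have hw : aeval t (gp a s) / (y - aeval t l) = Gh * (Y - lh)⁻¹ := by
    rw [hY, hlh, hGh, ← mul_sub, mul_inv, div_eq_mul_inv]
    field_simp
  have hlO := hlR O hsO
  have hM : Un O (1 + -(lh * Y⁻¹)) :=
    hO.unit_add Un.one (O.neg_mem (O.mul_mem hlO hYO))
      (fun h => Loc.nonunit_mul' hlO hYO hn' (by simpa using h.neg))
  have hLM : (Y - lh)⁻¹ = Y⁻¹ * (1 + -(lh * Y⁻¹))⁻¹ := by
    rw [← mul_inv]
    congr 1
    field_simp
    ring
  have hLO : (Y - lh)⁻¹ ∈ O := by rw [hLM]; exact O.mul_mem hYO hM.2.2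
  have hM' : (1 + -(lh * Y⁻¹))⁻¹ = 1 + lh * (Y - lh)⁻¹ := by
    have h2 : 1 + -(lh * Y⁻¹) = (Y - lh) / Y := by
      field_simp; ring
    rw [h2, inv_div]
    field_simp
    ring
  have hN : Un O (1 + lh * (Y - lh)⁻¹) := by rw [← hM']; exact hM.inv
  have hyL : Y⁻¹ = (Y - lh)⁻¹ * (1 + lh * (Y - lh)⁻¹)⁻¹ := by
    rw [← hM', inv_inv, hLM, mul_assoc, inv_mul_cancel₀ hM.2.1, mul_one]
  right; right; left
  refine hG.of ?_ ?_
  · rintro x (rfl | rfl)
    · exact hsO
    · rw [SetLike.mem_coe, hw]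
      exact O.mul_mem hGU.1 hLO
  · intro R hR hinv
    have h1 : t⁻¹ ∈ R := hR (by simp)
    have h2 : (aeval t (gp a s) / (y - aeval t l)) ∈ R := hR (Or.inr rfl)
    have h3 : (Y - lh)⁻¹ ∈ R := by
      have e : (Y - lh)⁻¹ = Gh⁻¹ * (aeval t (gp a s) / (y - aeval t l)) := by
        rw [hw, ← mul_assoc, inv_mul_cancel₀ hGU.2.1, one_mul]
      rw [e]
      exact R.mul_mem (hinv _ (hGR R h1) hGU) h2
    rintro x (rfl | rfl)
    · exact h1
    · rw [SetLike.mem_coe, hyL]
      exact R.mul_mem h3 (hinv _ (R.add_mem R.one_mem (R.mul_mem (hlR R h1) h3)) hN)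

/-- The elementary transformations of `𝔽_n` at the points `i ∈ s`, `|s| = n`: the local rings of the
blow-up of `𝔽_n` are local rings of a blow-up of `ℙ¹ × ℙ¹`. -/
theorem conv_all (hG : LT O t y n f (gp a Finset.univ)) :
    WT O t (aeval t (gp a s) / (y - aeval t l)) a b := by
  rcases hG with h | h | h | h | h
  · exact convA E hO ht hy h
  · exact convB E hO ht hy h.1 h.2
  · exact convC E hO ht hy h.1 h.2
  · exact convD E hO ht hy h.1 h.2
  · exact convE E hO ht hy h.1 h.2.1 h.2.2

end conv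

end Pool.Agent.MP2b98ed
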