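import Pool.Agent.MP2b98ed.Big

/-!
# The partial derivatives on a purely transcendental extension
-/

set_option autoImplicit false

namespace Pool.Agent.MP2b98ed

variable {K : Type} [Field K] [Algebra ℂ K]

/-- every element of `K` is a rational function in `t`, `y`. -/
def GenK (t y : K) : Prop := ∀ z : K, ∃ P Q : MvPolynomial (Fin 2) ℂ,
  MvPolynomial.aeval ![t, y] Q ≠ 0 ∧ z * MvPolynomial.aeval ![t, y] Q = MvPolynomial.aeval ![t, y] P

lemma genK_of {t y : K} (h : ∀ R : Subalgebra ℂ K, t ∈ R → y ∈ R →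
    (∀ r ∈ R, r ≠ 0 → r⁻¹ ∈ R) → R = ⊤) : GenK t y := by
  have h1 := h (IntermediateField.adjoin ℂ (Set.range ![t, y])).toSubalgebra
    (IntermediateField.subset_adjoin _ _ ⟨0, rfl⟩) (IntermediateField.subset_adjoin _ _ ⟨1, rfl⟩)
    (fun r hr _ => (IntermediateField.adjoin ℂ (Set.range ![t, y])).inv_mem hr)
  intro z
  have hz : z ∈ IntermediateField.adjoin ℂ (Set.range ![t, y]) := by
    have : z ∈ (⊤ : Subalgebra ℂ K) := Algebra.mem_top
    rw [← h1] at this
    exact this
  rw [IntermediateField.mem_adjoin_range_iff] at hz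
  obtain ⟨P, Q, hPQ⟩ := hz
  by_cases hQ : MvPolynomial.aeval ![t, y] Q = 0
  · refine ⟨0, 1, by simp, ?_⟩
    rw [hPQ, hQ]
    simp
  · exact ⟨P, Q, hQ, by rw [hPQ, div_mul_cancel₀ _ hQ]⟩

lemma aeval_mem {t y : K} {R : Subalgebra ℂ K} (ht : t ∈ R) (hy : y ∈ R)
    (P : MvPolynomial (Fin 2) ℂ) : MvPolynomial.aeval ![t, y] P ∈ R := by
  induction P using MvPolynomial.induction_on with
  | C c => rw [MvPolynomial.aeval_C]; exact R.algebraMap_mem c
  | add p q hp hq => rw [map_add]; exact R.add_mem hp hq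
  | mul_X p i hp =>
    rw [map_mul, MvPolynomial.aeval_X]
    refine R.mul_mem hp ?_
    fin_cases i
    · exact ht
    · exact hy

/-- derivations with the same values on the coordinates agree. -/
lemma der_ext {t y : K} (hK : GenK t y) {D D' : Derivation ℂ K K} (ht : D t = D' t)
    (hy : D y = D' y) : D = D' := by
  let R : Subalgebra ℂ K :=
    { carrier := {z | D z = D' z}
      mul_mem' := by
        intro a b ha hb
        simp only [Set.mem_setOf_eq] at ha hb ⊢
        rw [Derivation.leibniz, Derivation.leibniz, ha, hb]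
      add_mem' := by
        intro a b ha hb
        simp only [Set.mem_setOf_eq] at ha hb ⊢
        rw [map_add, map_add, ha, hb]
      algebraMap_mem' := fun c => by
        simp only [Set.mem_setOf_eq, Derivation.map_algebraMap] }
  have hR : ∀ P, MvPolynomial.aeval ![t, y] P ∈ R := fun P => aeval_mem (R := R) ht hy P
  ext z
  obtain ⟨P, Q, hQ, hPQ⟩ := hK z
  have h1 : D (z * MvPolynomial.aeval ![t, y] Q) = D' (z * MvPolynomial.aeval ![t, y] Q) := by
    rw [hPQ]; exact hR P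
  rw [der_mul, der_mul, show D (MvPolynomial.aeval ![t, y] Q) = D' _ from hR Q] at h1
  exact mul_left_cancel₀ hQ (add_left_cancel h1)

lemma exists_der {t y : K} (hK : GenK t y) (hai : AlgebraicIndependent ℂ ![t, y]) (d e : K) :
    ∃ D : Derivation ℂ K K, D t = d ∧ D y = e := by
  let φ : MvPolynomial (Fin 2) ℂ →ₐ[ℂ] K := MvPolynomial.aeval ![t, y]
  letI : Algebra (MvPolynomial (Fin 2) ℂ) K := φ.toRingHom.toAlgebra
  have hφ : ∀ P, algebraMap (MvPolynomial (Fin 2) ℂ) K P = MvPolynomial.aeval ![t, y] P :=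
    fun P => rfl
  have hinj : Function.Injective (algebraMap (MvPolynomial (Fin 2) ℂ) K) := hai
  have : FaithfulSMul (MvPolynomial (Fin 2) ℂ) K :=
    (faithfulSMul_iff_algebraMap_injective _ _).mpr hinj
  have hloc : IsFractionRing (MvPolynomial (Fin 2) ℂ) K := by
    refine IsFractionRing.of_field _ _ fun z => ?_
    obtain ⟨P, Q, hQ, hPQ⟩ := hK z
    exact ⟨P, Q, by rw [hφ, hφ, ← hPQ, mul_div_cancel_right₀ _ hQ]⟩
  let ψ : MvPolynomial (Fin 2) ℂ →ₐ[ℂ] TrivSqZeroExt K K := MvPolynomial.aeval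
    ![TrivSqZeroExt.inl t + TrivSqZeroExt.inr d, TrivSqZeroExt.inl y + TrivSqZeroExt.inr e]
  have hψ : ∀ P, (ψ P).fst = MvPolynomial.aeval ![t, y] P := by
    intro P
    have : (TrivSqZeroExt.fstHom ℂ K K).comp ψ = MvPolynomial.aeval ![t, y] := by
      apply MvPolynomial.algHom_ext
      intro i
      fin_cases i <;> simp [ψ]
    exact DFunLike.congr_fun this P
  have hunit : ∀ Q : nonZeroDivisors (MvPolynomial (Fin 2) ℂ), IsUnit (ψ.toRingHom Q) := by
    intro Q
    rw [TrivSqZeroExt.isUnit_iff_isUnit_fst]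
    have h1 : (ψ.toRingHom Q).fst = MvPolynomial.aeval ![t, y] (Q : MvPolynomial (Fin 2) ℂ) :=
      hψ _
    rw [h1, isUnit_iff_ne_zero, ← hφ]
    exact (map_ne_zero_iff _ hinj).mpr (nonZeroDivisors.ne_zero Q.2)
  let Θ : K →+* TrivSqZeroExt K K := IsLocalization.lift hunit
  have hΘ : ∀ P, Θ (MvPolynomial.aeval ![t, y] P) = ψ P := fun P =>
    IsLocalization.lift_eq hunit P
  have hfst : ∀ z, (Θ z).fst = z := by
    have h1 : (TrivSqZeroExt.fstHom ℂ K K).toRingHom.comp Θ = RingHom.id K := by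
      apply IsLocalization.ringHom_ext (nonZeroDivisors (MvPolynomial (Fin 2) ℂ))
      refine RingHom.ext fun P => ?_
      exact (congrArg TrivSqZeroExt.fst (hΘ _)).trans (hψ _)
    exact fun z => DFunLike.congr_fun h1 z
  have hc : ∀ c : ℂ, Θ (algebraMap ℂ K c) = algebraMap ℂ _ c := by
    intro c
    have h1 := hΘ (MvPolynomial.C c)
    rw [MvPolynomial.aeval_C] at h1
    rw [h1]
    simp [ψ]
  let D0 : K →ₗ[ℂ] K :=
    { toFun := fun z => (Θ z).snd
      map_add' := fun a b => by rw [map_add, TrivSqZeroExt.snd_add]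
      map_smul' := fun c a => by
        rw [Algebra.smul_def, map_mul, hc, RingHom.id_apply, ← Algebra.smul_def,
          TrivSqZeroExt.snd_smul] }
  refine ⟨Derivation.mk' D0 ?_, ?_, ?_⟩
  · intro a b
    show (Θ (a * b)).snd = a • (Θ b).snd + b • (Θ a).snd
    rw [map_mul, TrivSqZeroExt.snd_mul, hfst, hfst, op_smul_eq_smul]
  · show (Θ t).snd = d
    have h1 := hΘ (MvPolynomial.X 0)
    rw [MvPolynomial.aeval_X] at h1
    have h2 : Θ t = ψ (MvPolynomial.X 0) := h1
    rw [h2]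
    simp [ψ]
  · show (Θ y).snd = e
    have h1 := hΘ (MvPolynomial.X 1)
    rw [MvPolynomial.aeval_X] at h1
    have h2 : Θ y = ψ (MvPolynomial.X 1) := h1
    rw [h2]
    simp [ψ]

/-- the partial derivatives exist. -/
theorem exists_coord {t y : K} (hK : GenK t y) (hai : AlgebraicIndependent ℂ ![t, y]) :
    ∃ Dt Dy : Derivation ℂ K K, Coord t y Dt Dy ∧ ∀ D : Derivation ℂ K K, D = D t • Dt + D y • Dy := by
  obtain ⟨Dt, h1, h2⟩ := exists_der hK hai 1 0
  obtain ⟨Dy, h3, h4⟩ := exists_der hK hai 0 1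
  refine ⟨Dt, Dy, ⟨h1, h2, h3, h4⟩, fun D => der_ext hK ?_ ?_⟩
  · simp [h1, h3]
  · simp [h2, h4]

end Pool.Agent.MP2b98ed
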