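import Pool.Agent.MP2b98ed.Alg

/-!
# Filtration of the homogeneous polynomials in two symmetric tensors
-/

set_option autoImplicit false

namespace Pool.Agent.MP2b98ed

variable {K A : Type} [Field K] [Algebra ℂ K] [CommRing A] [Algebra K A]

/-- homogeneous polynomials of degree `d` in `a`, `b` of degree `< i` in `a`, with coefficients
in `S`. -/
def WW (S : Subalgebra ℂ K) (a b : A) (d i : ℕ) : Submodule S A :=
  Submodule.span S {τ | ∃ j k, j < i ∧ j + k = d ∧ τ = a ^ j * b ^ k}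

/-- `P` has the leading term `ε a^i b^(d-i)`. -/
def Lead (S : Subalgebra ℂ K) (a b : A) (d i : ℕ) (ε : K) (P : A) : Prop :=
  ∃ k, i + k = d ∧ P - ε • (a ^ i * b ^ k) ∈ WW S a b d i

variable {S : Subalgebra ℂ K} {a b : A}

lemma WW.smul {d i : ℕ} {c : K} (hc : c ∈ S) {P : A} (hP : P ∈ WW S a b d i) :
    c • P ∈ WW S a b d i := (WW S a b d i).smul_mem (⟨c, hc⟩ : S) hP

lemma WW.mono {d i i' : ℕ} (h : i ≤ i') : WW S a b d i ≤ WW S a b d i' := by
  apply Submodule.span_mono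
  rintro _ ⟨j, k, hj, hk, rfl⟩
  exact ⟨j, k, hj.trans_le h, hk, rfl⟩

lemma WW.gen {d i j k : ℕ} (hj : j < i) (hk : j + k = d) : a ^ j * b ^ k ∈ WW S a b d i :=
  Submodule.subset_span ⟨j, k, hj, hk, rfl⟩

lemma WW.mul_gen {d i d' i' j k : ℕ} {P : A} (hP : P ∈ WW S a b d i) (hj : j < i' + 1)
    (hk : j + k = d') : P * (a ^ j * b ^ k) ∈ WW S a b (d + d') (i + i') := by
  induction hP using Submodule.span_induction with
  | zero => rw [zero_mul]; exact Submodule.zero_mem _
  | add x y _ _ hx hy => rw [add_mul]; exact Submodule.add_mem _ hx hy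
  | smul c x _ hx => rw [smul_mul_assoc]; exact Submodule.smul_mem _ _ hx
  | mem x hx =>
    obtain ⟨j', k', hj', hk', rfl⟩ := hx
    have e : a ^ j' * b ^ k' * (a ^ j * b ^ k) = a ^ (j' + j) * b ^ (k' + k) := by ring
    rw [e]
    exact WW.gen (by omega) (by omega)

lemma WW.mul_mem {d i d' i' : ℕ} {P Q : A} (hP : P ∈ WW S a b d i) (hQ : Q ∈ WW S a b d' i') :
    P * Q ∈ WW S a b (d + d') (i + i') := by
  induction hQ using Submodule.span_induction with
  | zero => rw [mul_zero]; exact Submodule.zero_mem _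
  | add x y _ _ hx hy => rw [mul_add]; exact Submodule.add_mem _ hx hy
  | smul c x _ hx => rw [mul_smul_comm]; exact Submodule.smul_mem _ _ hx
  | mem x hx =>
    obtain ⟨j', k', hj', hk', rfl⟩ := hx
    exact WW.mul_gen hP (by omega) hk'

lemma Lead.mul {d i d' i' : ℕ} {ε ε' : K} {P Q : A} (hε : ε ∈ S) (hε' : ε' ∈ S)
    (hP : Lead S a b d i ε P) (hQ : Lead S a b d' i' ε' Q) :
    Lead S a b (d + d') (i + i') (ε * ε') (P * Q) := by
  obtain ⟨k, hk, hP⟩ := hP
  obtain ⟨k', hk', hQ⟩ := hQ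
  refine ⟨k + k', by omega, ?_⟩
  have e : P * Q - (ε * ε') • (a ^ (i + i') * b ^ (k + k')) =
      (P - ε • (a ^ i * b ^ k)) * (Q - ε' • (a ^ i' * b ^ k')) +
      ε' • ((P - ε • (a ^ i * b ^ k)) * (a ^ i' * b ^ k')) +
      ε • ((Q - ε' • (a ^ i' * b ^ k')) * (a ^ i * b ^ k)) := by
    simp only [Algebra.smul_def, map_mul]
    ring
  rw [e]
  refine Submodule.add_mem _ (Submodule.add_mem _ (WW.mul_mem hP hQ) ?_) ?_
  · exact WW.smul hε' (WW.mul_gen hP (by omega) hk')
  · have h := WW.mul_gen hQ (i' := i) (j := i) (by omega) hk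
    rw [add_comm d' d, add_comm i' i] at h
    exact WW.smul hε h

lemma Lead.one : Lead S a b 0 0 1 (1 : A) :=
  ⟨0, rfl, by simp⟩

lemma Lead.pow {d i : ℕ} {ε : K} {P : A} (hε : ε ∈ S) (hP : Lead S a b d i ε P) (k : ℕ) :
    Lead S a b (k * d) (k * i) (ε ^ k) (P ^ k) := by
  induction k with
  | zero => simpa using (Lead.one (S := S) (a := a) (b := b))
  | succ k ih =>
    rw [Nat.succ_mul, Nat.succ_mul, pow_succ, pow_succ]
    exact ih.mul (S.pow_mem hε k) hε hP

lemma Lead.snd : Lead S a b 1 0 1 b := ⟨1, rfl, by simp⟩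

lemma Lead.congr {d i d' i' : ℕ} {ε ε' : K} {P : A} (h : Lead S a b d i ε P) (hd : d = d')
    (hi : i = i') (hε : ε = ε') : Lead S a b d' i' ε' P := by
  subst hd hi hε; exact h

lemma Lead.mem {d i : ℕ} {ε : K} {P : A} (hε : ε ∈ S) (h : Lead S a b d i ε P) :
    P ∈ WW S a b d (i + 1) := by
  obtain ⟨k, hk, h⟩ := h
  have e : P = (P - ε • (a ^ i * b ^ k)) + ε • (a ^ i * b ^ k) := by abel
  rw [e]
  exact Submodule.add_mem _ (WW.mono (Nat.le_succ i) h) (WW.smul hε (WW.gen (by omega) hk))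

lemma Lead.add_mem {d i : ℕ} {ε : K} {P Q : A} (h : Lead S a b d i ε P) (hQ : Q ∈ WW S a b d i) :
    Lead S a b d i ε (P + Q) := by
  obtain ⟨k, hk, h⟩ := h
  refine ⟨k, hk, ?_⟩
  have e : P + Q - ε • (a ^ i * b ^ k) = (P - ε • (a ^ i * b ^ k)) + Q := by abel
  rw [e]
  exact Submodule.add_mem _ h hQ

/-- decomposition according to the leading term. -/
lemma WW.succ_decomp {d i k : ℕ} (hk : i + k = d) {P : A} (hP : P ∈ WW S a b d (i + 1)) :
    ∃ f ∈ S, ∃ Q ∈ WW S a b d i, P = f • (a ^ i * b ^ k) + Q := by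
  induction hP using Submodule.span_induction with
  | zero => exact ⟨0, S.zero_mem, 0, Submodule.zero_mem _, by simp⟩
  | add x y _ _ hx hy =>
    obtain ⟨f, hf, Q, hQ, rfl⟩ := hx
    obtain ⟨f', hf', Q', hQ', rfl⟩ := hy
    refine ⟨f + f', S.add_mem hf hf', Q + Q', Submodule.add_mem _ hQ hQ', ?_⟩
    rw [add_smul]
    abel
  | smul c x _ hx =>
    obtain ⟨f, hf, Q, hQ, rfl⟩ := hx
    refine ⟨c * f, S.mul_mem c.2 hf, c • Q, Submodule.smul_mem _ _ hQ, ?_⟩
    rw [smul_add, mul_smul]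
    rfl
  | mem x hx =>
    obtain ⟨j', k', hj', hk', rfl⟩ := hx
    by_cases h : j' = i
    · subst h
      have : k' = k := by omega
      subst this
      exact ⟨1, S.one_mem, 0, Submodule.zero_mem _, by simp⟩
    · exact ⟨0, S.zero_mem, _, WW.gen (i := i) (j := j') (by omega) hk', by simp⟩

/-- The elements with invertible leading coefficients generate all monomials. -/
lemma lead_span {d : ℕ} {ε : ℕ → K} {P : ℕ → A} (hε : ∀ i ≤ d, ε i ≠ 0)
    (hεi : ∀ i ≤ d, (ε i)⁻¹ ∈ S) (h : ∀ i ≤ d, Lead S a b d i (ε i) (P i)) :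
    ∀ i k, i + k = d → a ^ i * b ^ k ∈ Submodule.span S (P '' {j | j ≤ d}) := by
  intro i
  induction i using Nat.strong_induction_on with
  | _ i ih =>
    intro k hk
    obtain ⟨k', hk', h1⟩ := h i (by omega)
    have : k' = k := by omega
    subst this
    have h2 : P i - ε i • (a ^ i * b ^ k') ∈ Submodule.span S (P '' {j | j ≤ d}) := by
      have h3 : ∀ x ∈ WW S a b d i, x ∈ Submodule.span S (P '' {j | j ≤ d}) := by
        intro x hx
        induction hx using Submodule.span_induction with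
        | zero => exact Submodule.zero_mem _
        | add x y _ _ hx hy => exact Submodule.add_mem _ hx hy
        | smul c x _ hx => exact Submodule.smul_mem _ c hx
        | mem x hx =>
          obtain ⟨j, k, hj, hk, rfl⟩ := hx
          exact ih j hj k hk
      exact h3 _ h1
    have h4 : P i ∈ Submodule.span S (P '' {j | j ≤ d}) :=
      Submodule.subset_span ⟨i, by show i ≤ d; omega, rfl⟩
    have h5 := Submodule.smul_mem _ (⟨(ε i)⁻¹, hεi i (by omega)⟩ : S) (Submodule.sub_mem _ h4 h2)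
    rw [sub_sub_cancel] at h5
    have h6 : (⟨(ε i)⁻¹, hεi i (by omega)⟩ : S) • (ε i • (a ^ i * b ^ k')) =
        a ^ i * b ^ k' := by
      show (ε i)⁻¹ • (ε i • (a ^ i * b ^ k')) = _
      rw [smul_smul, inv_mul_cancel₀ (hε i (by omega)), one_smul]
    rwa [h6] at h5

end Pool.Agent.MP2b98ed
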