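import Pool.Agent.MP2b98ed.Geo6
import Pool.Agent.MP2b98ed.Der

/-!
# The local rings of the blow-up of `𝔽_n` at four points
-/

set_option autoImplicit false

open CategoryTheory Limits AlgebraicGeometry TopologicalSpace

namespace Pool.Agent.MP2b98ed

open Pool.Agent.MP77a250.St St Scheme.IdealSheafData

section

variable {n : ℕ} {F : Scheme.{0}} {sF : F ⟶ SC} (H : Hirzebruch n sF)
  {X : Scheme.{0}} [IsIntegral X] {β : X ⟶ F} {p : Fin 4 × Fin 2 → ℂ}
  (hβ : IsBlowUp β (H.pointsIdeal p)) {t y : KK (β ≫ sF)} (hc : IsCoord H t y)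

include hβ hc

lemma gen_k {x : X} {k : Fin 4} (hk : β x ∈ Set.range (H.chart k))
    (h0 : β x ∉ Set.range (H.chart 0)) :
    Gen (regAt (β ≫ sF) x) {cA t k, cB n t y k} := by
  obtain ⟨ha, hb, hab⟩ := coord_mem H hc hk
  refine ⟨?_, fun R hR hinv => ?_⟩
  · rintro z (rfl | rfl)
    · exact ha
    · exact hb
  have hB : R ⊓ regAt (β ≫ sF) x ≤ regAt (β ≫ sF) x := inf_le_right
  have haR : cA t k ∈ R := hR (by simp)
  have hbR : cB n t y k ∈ R := hR (by simp)
  have hu : ∀ r ∈ R ⊓ regAt (β ≫ sF) x, Un (regAt (β ≫ sF) x) r →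
      r⁻¹ ∈ R ⊓ regAt (β ≫ sF) x := fun r hr hun => ⟨hinv r hr.1 hr.2 hun.2.2, hun.2.2⟩
  refine (lemG hβ hB hu (planePt (R := (R ⊓ regAt (β ≫ sF) x : Subalgebra ℂ (KK (β ≫ sF))))
    ⟨cA t k, haR, ha⟩ ⟨cB n t y k, hbR, hb⟩ ≫ H.chart k) ?_ ?_).trans inf_le_left
  · rw [← Category.assoc, map_planePt, hab]
    rfl
  · have hloc : IsLocalHom (Subalgebra.inclusion hB).toRingHom := by
      constructor
      intro b hb'
      have h2 := (un_iff _ (hB b.2)).mpr hb'
      exact IsUnit.of_mul_eq_one ⟨_, hu b b.2 h2⟩ (Subtype.ext (mul_inv_cancel₀ h2.2.1))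
    have hBloc : IsLocalRing (R ⊓ regAt (β ≫ sF) x : Subalgebra ℂ (KK (β ≫ sF))) :=
      RingHom.domain_isLocalRing (Subalgebra.inclusion hB).toRingHom
    set φ := planePt (R := (R ⊓ regAt (β ≫ sF) x : Subalgebra ℂ (KK (β ≫ sF))))
      ⟨cA t k, haR, ha⟩ ⟨cB n t y k, hbR, hb⟩ ≫ H.chart k with hφ
    have hφ' : Spec.map (CommRingCat.ofHom (Subalgebra.inclusion hB).toRingHom) ≫ φ =
        jx (β ≫ sF) x ≫ β := by
      rw [hφ, ← Category.assoc, map_planePt, hab]
      rfl
    have hcl : φ (IsLocalRing.closedPoint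
        (R ⊓ regAt (β ≫ sF) x : Subalgebra ℂ (KK (β ≫ sF)))) = β x := by
      have h2 : Spec.map (CommRingCat.ofHom (Subalgebra.inclusion hB).toRingHom)
          (IsLocalRing.closedPoint (regAt (β ≫ sF) x)) = IsLocalRing.closedPoint
          (R ⊓ regAt (β ≫ sF) x : Subalgebra ℂ (KK (β ≫ sF))) :=
        IsLocalRing.comap_closedPoint _
      rw [← h2, ← Scheme.Hom.comp_apply, hφ', Scheme.Hom.comp_apply, jx_closed]
    have htop : (H.pointsIdeal p).comap φ = ⊤ := by
      refine comap_eq_top _ _ fun z hz => h0 (support_chart0 H (p := p) ?_)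
      have h1 : φ z ⤳ β x := by
        rw [← hcl]
        exact (IsLocalRing.specializes_closedPoint z).map φ.continuous
      exact h1.mem_closed (H.pointsIdeal p).support.isClosed hz
    rw [htop]
    exact inv_top

variable (ha : Function.Injective fun i => p (i, 0)) {f : Polynomial ℂ}
  (hf : ∀ i, f.eval (p (i, 0)) = p (i, 1))

include ha hf

lemma gen_0_aux {x : X} (hx : β x ∈ Set.range (H.chart 0)) {R : Subalgebra ℂ (KK (β ≫ sF))}
    (hinv : ∀ r ∈ R, r ∈ regAt (β ≫ sF) x → r⁻¹ ∈ regAt (β ≫ sF) x → r⁻¹ ∈ R)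
    (htR : t ∈ R) (hyR : y ∈ R) (d e : KK (β ≫ sF)) (hd : d ≠ 0) (he : e ∈ R)
    (he' : e ∈ regAt (β ≫ sF) x)
    (h : (d = Polynomial.aeval t (gp (fun i => p (i, 0)) Finset.univ) ∧
        e * d = y - Polynomial.aeval t f) ∨
      (d = y - Polynomial.aeval t f ∧
        e * d = Polynomial.aeval t (gp (fun i => p (i, 0)) Finset.univ))) :
    regAt (β ≫ sF) x ≤ R := by
  obtain ⟨ht, hy, hab⟩ := coord_mem H hc hx
  have hB : R ⊓ regAt (β ≫ sF) x ≤ regAt (β ≫ sF) x := inf_le_right
  have hu : ∀ r ∈ R ⊓ regAt (β ≫ sF) x, Un (regAt (β ≫ sF) x) r →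
      r⁻¹ ∈ R ⊓ regAt (β ≫ sF) x := fun r hr hun => ⟨hinv r hr.1 hr.2 hun.2.2, hun.2.2⟩
  set B : Subalgebra ℂ (KK (β ≫ sF)) := R ⊓ regAt (β ≫ sF) x with hBdef
  let tB : B := ⟨t, htR, ht⟩
  let yB : B := ⟨y, hyR, hy⟩
  let eB : B := ⟨e, he, he'⟩
  have hcoe : ∀ g : Polynomial ℂ, ((Polynomial.aeval tB g : B) : KK (β ≫ sF)) =
      Polynomial.aeval t g := fun g => (Polynomial.aeval_algHom_apply B.val tB g).symm
  refine (lemG hβ hB hu (planePt tB yB ≫ H.chart 0) ?_ ?_).trans inf_le_left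
  · rw [← Category.assoc, map_planePt, hab]
    rfl
  · have hidl := idl_pts H ha hf tB yB
    rcases h with ⟨h1, h2⟩ | ⟨h1, h2⟩
    · have hdB : (Polynomial.aeval tB (gp (fun i => p (i, 0)) Finset.univ) : B) ≠ 0 := by
        intro h3
        apply hd
        rw [h1, ← hcoe, h3]
        rfl
      refine inv_of_idl (R := CommRingCat.of B) _ hdB (hidl.trans ?_)
      apply le_antisymm
      · rw [Ideal.span_le]
        rintro z (rfl | rfl)
        · exact Ideal.subset_span rfl
        · rw [SetLike.mem_coe, Ideal.mem_span_singleton]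
          refine ⟨eB, Subtype.ext ?_⟩
          show y - ((Polynomial.aeval tB f : B) : KK (β ≫ sF)) =
            ((Polynomial.aeval tB (gp (fun i => p (i, 0)) Finset.univ) : B) : KK (β ≫ sF)) * e
          rw [hcoe, hcoe, ← h1, ← h2, mul_comm]
      · exact Ideal.span_mono (by simp)
    · have hdB : (yB - Polynomial.aeval tB f : B) ≠ 0 := by
        intro h3
        apply hd
        rw [h1, ← hcoe]
        exact congrArg Subtype.val h3
      refine inv_of_idl (R := CommRingCat.of B) _ hdB (hidl.trans ?_)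
      apply le_antisymm
      · rw [Ideal.span_le]
        rintro z (rfl | rfl)
        · rw [SetLike.mem_coe, Ideal.mem_span_singleton]
          refine ⟨eB, Subtype.ext ?_⟩
          show ((Polynomial.aeval tB (gp (fun i => p (i, 0)) Finset.univ) : B) : KK (β ≫ sF)) =
            (y - ((Polynomial.aeval tB f : B) : KK (β ≫ sF))) * e
          rw [hcoe, hcoe, ← h1, ← h2, mul_comm]
        · exact Ideal.subset_span rfl
      · exact Ideal.span_mono (by simp)

lemma ratio_mem {x : X} (hx : β x ∈ Set.range (H.chart 0)) :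
    (y - Polynomial.aeval t f) / Polynomial.aeval t (gp (fun i => p (i, 0)) Finset.univ) ∈
      regAt (β ≫ sF) x ∨
    Polynomial.aeval t (gp (fun i => p (i, 0)) Finset.univ) / (y - Polynomial.aeval t f) ∈
      regAt (β ≫ sF) x := by
  obtain ⟨ht, hy, hab⟩ := coord_mem H hc hx
  let tO : regAt (β ≫ sF) x := ⟨t, ht⟩
  let yO : regAt (β ≫ sF) x := ⟨y, hy⟩
  have hcoe : ∀ g : Polynomial ℂ, ((Polynomial.aeval tO g : regAt (β ≫ sF) x) : KK (β ≫ sF)) =
      Polynomial.aeval t g :=
    fun g => (Polynomial.aeval_algHom_apply (regAt (β ≫ sF) x).val tO g).symm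
  have hjI : IsInvertibleIdeal ((H.pointsIdeal p).comap (jx (β ≫ sF) x ≫ β)) := by
    rw [comap_comp]
    exact inv_jx _ x hβ.invertible
  have hab' : jx (β ≫ sF) x ≫ β = planePt tO yO ≫ H.chart 0 := hab
  rw [hab'] at hjI
  obtain ⟨a, ha0, hid⟩ := idl_of_inv (R := CommRingCat.of (regAt (β ≫ sF) x)) _ hjI
  have hidl := idl_pts H ha hf tO yO
  set G : regAt (β ≫ sF) x := Polynomial.aeval tO (gp (fun i => p (i, 0)) Finset.univ) with hG
  set V : regAt (β ≫ sF) x := yO - Polynomial.aeval tO f with hV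
  have hspan : Ideal.span {G, V} = Ideal.span {(show regAt (β ≫ sF) x from a)} :=
    hidl.symm.trans hid
  obtain ⟨g', hg'⟩ := Ideal.mem_span_singleton'.mp (hspan.le (Ideal.subset_span (by simp) :
    G ∈ Ideal.span {G, V}))
  obtain ⟨v', hv'⟩ := Ideal.mem_span_singleton'.mp (hspan.le (Ideal.subset_span (by simp) :
    V ∈ Ideal.span {G, V}))
  obtain ⟨c, d, hcd⟩ := Ideal.mem_span_pair.mp (hspan.ge (Ideal.subset_span rfl :
    (show regAt (β ≫ sF) x from a) ∈ Ideal.span {(show regAt (β ≫ sF) x from a)}))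
  have ha1 : (show regAt (β ≫ sF) x from a) ≠ 0 :=
    nonZeroDivisors.ne_zero (M₀ := regAt (β ≫ sF) x) ha0
  have hone : c * g' + d * v' = 1 := by
    apply mul_right_cancel₀ ha1
    rw [one_mul, add_mul, mul_assoc, mul_assoc, hg', hv', hcd]
  have eG : (Polynomial.aeval t (gp (fun i => p (i, 0)) Finset.univ) : KK (β ≫ sF)) =
      (g' : KK (β ≫ sF)) * ((show regAt (β ≫ sF) x from a) : KK (β ≫ sF)) := by
    rw [← hcoe]
    exact (congrArg Subtype.val hg').symm
  have eV : y - Polynomial.aeval t f =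
      (v' : KK (β ≫ sF)) * ((show regAt (β ≫ sF) x from a) : KK (β ≫ sF)) := by
    rw [← hcoe]
    exact (congrArg Subtype.val hv').symm
  have ha2 : ((show regAt (β ≫ sF) x from a) : KK (β ≫ sF)) ≠ 0 := fun h =>
    ha1 (Subtype.ext h)
  rcases IsLocalRing.isUnit_or_isUnit_of_add_one hone with h | h
  · left
    have hu : IsUnit g' := isUnit_of_mul_isUnit_right h
    have h1 : Un (regAt (β ≫ sF) x) (g' : KK (β ≫ sF)) := (un_iff _ g'.2).mpr hu
    rw [eG, eV, mul_div_mul_right _ _ ha2, div_eq_mul_inv]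
    exact mul_mem v'.2 h1.2.2
  · right
    have hu : IsUnit v' := isUnit_of_mul_isUnit_right h
    have h1 : Un (regAt (β ≫ sF) x) (v' : KK (β ≫ sF)) := (un_iff _ v'.2).mpr hu
    rw [eG, eV, mul_div_mul_right _ _ ha2, div_eq_mul_inv]
    exact mul_mem g'.2 h1.2.2

/-- The local rings of the blow-up. -/
theorem LT_all (x : X) : LT (regAt (β ≫ sF) x) t y n f (gp (fun i => p (i, 0)) Finset.univ) := by
  have ht0 := IsCoord.t0 H hc
  have hy0 := IsCoord.y0 H hc
  have hG0 : (Polynomial.aeval t (gp (fun i => p (i, 0)) Finset.univ) : KK (β ≫ sF)) ≠ 0 :=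
    gp_ne _ (ai_fst hc.ai) _
  have hV0 : y - Polynomial.aeval t f ≠ 0 := sub_ne_zero.mpr (ai_poly hc.ai f)
  by_cases h0 : β x ∈ Set.range (H.chart 0)
  · obtain ⟨ht, hy, -⟩ := coord_mem H hc h0
    have ht : t ∈ regAt (β ≫ sF) x := ht
    have hy : y ∈ regAt (β ≫ sF) x := hy
    have hVO : y - Polynomial.aeval t f ∈ regAt (β ≫ sF) x :=
      sub_mem hy (aeval_mem_of_mem ht _)
    by_cases hA : (y - Polynomial.aeval t f) /
        Polynomial.aeval t (gp (fun i => p (i, 0)) Finset.univ) ∈ regAt (β ≫ sF) x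
    · left
      refine ⟨?_, fun R hR hinv => ?_⟩
      · rintro z (rfl | rfl)
        · exact ht
        · exact hA
      have h1 : t ∈ R := hR (by simp)
      have h2 : (y - Polynomial.aeval t f) /
        Polynomial.aeval t (gp (fun i => p (i, 0)) Finset.univ) ∈ R := hR (Or.inr rfl)
      have h3 : y ∈ R := by
        have e : y = Polynomial.aeval t f + (y - Polynomial.aeval t f) /
          Polynomial.aeval t (gp (fun i => p (i, 0)) Finset.univ) *
          Polynomial.aeval t (gp (fun i => p (i, 0)) Finset.univ) := by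
          rw [div_mul_cancel₀ _ hG0]; ring
        rw [e]
        exact add_mem (aeval_mem_of_mem h1 _) (mul_mem h2 (aeval_mem_of_mem h1 _))
      exact gen_0_aux H hβ hc ha hf h0 hinv h1 h3 _ _ hG0 h2 hA
        (Or.inl ⟨rfl, div_mul_cancel₀ _ hG0⟩)
    · right; left
      have hB := (ratio_mem H hβ hc ha hf h0).resolve_left hA
      refine ⟨⟨?_, fun R hR hinv => ?_⟩, fun hun => hA ?_⟩
      · rintro z (rfl | rfl | rfl)
        · exact ht
        · exact hVO
        · exact hB
      · have h1 : t ∈ R := hR (by simp)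
        have h2 : y - Polynomial.aeval t f ∈ R := hR (Or.inr (Or.inl rfl))
        have h4 : Polynomial.aeval t (gp (fun i => p (i, 0)) Finset.univ) /
          (y - Polynomial.aeval t f) ∈ R := hR (Or.inr (Or.inr rfl))
        have h3 : y ∈ R := by
          have e : y = Polynomial.aeval t f + (y - Polynomial.aeval t f) := by ring
          rw [e]
          exact add_mem (aeval_mem_of_mem h1 _) h2
        exact gen_0_aux H hβ hc ha hf h0 hinv h1 h3 _ _ hV0 h4 hB
          (Or.inr ⟨rfl, div_mul_cancel₀ _ hV0⟩)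
      · have := hun.2.2
        rwa [inv_div] at this
  · by_cases h1 : β x ∈ Set.range (H.chart 1)
    · right; right; left
      obtain ⟨ht, hy, -⟩ := coord_mem H hc h1
      refine ⟨gen_k H hβ hc h1 h0, fun hun => h0 ?_⟩
      refine chart_of_mem H hc (k := 0) ht ?_
      have := hun.2.2
      rwa [inv_inv] at this
    · by_cases h2 : β x ∈ Set.range (H.chart 2)
      · right; right; right; left
        obtain ⟨ht, hy, -⟩ := coord_mem H hc h2
        refine ⟨gen_k H hβ hc h2 h0, fun hun => h0 ?_⟩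
        have ht' : t ∈ regAt (β ≫ sF) x := by
          have := hun.2.2
          rwa [inv_inv] at this
        refine chart_of_mem H hc (k := 0) ht' ?_
        show y ∈ regAt (β ≫ sF) x
        have hy' : t⁻¹ ^ n * y ∈ regAt (β ≫ sF) x := hy
        have e : y = t ^ n * (t⁻¹ ^ n * y) := by
          rw [← mul_assoc, ← mul_pow, mul_inv_cancel₀ ht0, one_pow, one_mul]
        rw [e]
        exact mul_mem (pow_mem ht' n) hy'
      · right; right; right; right
        have h3 : β x ∈ Set.range (H.chart 3) := by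
          obtain ⟨k, hk⟩ := H.covers (β x)
          rcases fin4 k with rfl | rfl | rfl | rfl
          · exact absurd hk h0
          · exact absurd hk h1
          · exact absurd hk h2
          · exact hk
        obtain ⟨ht, hy, -⟩ := coord_mem H hc h3
        have ht : t⁻¹ ∈ regAt (β ≫ sF) x := ht
        have hy : (t⁻¹ ^ n * y)⁻¹ ∈ regAt (β ≫ sF) x := hy
        refine ⟨gen_k H hβ hc h3 h0, fun hun => h1 ?_, fun hun => h2 ?_⟩
        · have ht' : t ∈ regAt (β ≫ sF) x := by
            have := hun.2.2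
            rwa [inv_inv] at this
          refine chart_of_mem H hc (k := 1) ht' ?_
          show y⁻¹ ∈ regAt (β ≫ sF) x
          have e : y⁻¹ = t⁻¹ ^ n * (t⁻¹ ^ n * y)⁻¹ := by
            have := pow_ne_zero n (inv_ne_zero ht0)
            rw [mul_inv, ← mul_assoc, mul_inv_cancel₀ this, one_mul]
          rw [e]
          exact mul_mem (pow_mem ht n) hy
        · refine chart_of_mem H hc (k := 2) ht ?_
          show t⁻¹ ^ n * y ∈ regAt (β ≫ sF) x
          have := hun.2.2
          rwa [inv_inv] at this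

omit H hβ hc ha hf in
lemma regAt_gen {X : Scheme.{0}} [IsIntegral X] (s : X ⟶ SC) : regAt s (genericPoint X) = ⊤ := by
  rw [eq_top_iff]
  intro z _
  refine ⟨(show X.presheaf.stalk (genericPoint X) from z), ?_⟩
  have h : X.presheaf.stalkSpecializes (specializes_refl (genericPoint X)) = 𝟙 _ :=
    X.presheaf.stalkSpecializes_refl (genericPoint X)
  exact congrArg (fun g => g.hom (show X.presheaf.stalk (genericPoint X) from z)) h

/-- The function field is generated by the coordinates. -/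
lemma genK_all : GenK t y := by
  apply genK_of
  intro R htR hyR hinv
  have hgen := LT_all H hβ hc ha hf (genericPoint X)
  rw [regAt_gen] at hgen
  have hclose : ∀ r ∈ R, r ∈ (⊤ : Subalgebra ℂ (KK (β ≫ sF))) →
      r⁻¹ ∈ (⊤ : Subalgebra ℂ (KK (β ≫ sF))) → r⁻¹ ∈ R := by
    intro r hr _ _
    by_cases h0 : r = 0
    · rw [h0, inv_zero]; exact zero_mem _
    · exact hinv r hr h0
  have hi : ∀ r ∈ R, r⁻¹ ∈ R := fun r hr => hclose r hr Algebra.mem_top Algebra.mem_top
  have hG : Polynomial.aeval t (gp (fun i => p (i, 0)) Finset.univ) ∈ R := aeval_mem_of_mem htR _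
  have hV : y - Polynomial.aeval t f ∈ R := sub_mem hyR (aeval_mem_of_mem htR _)
  have hY : t⁻¹ ^ n * y ∈ R := mul_mem (pow_mem (hi _ htR) n) hyR
  rw [eq_top_iff]
  rcases hgen with h | ⟨h, -⟩ | ⟨h, -⟩ | ⟨h, -⟩ | ⟨h, -⟩
  · refine h.2 R ?_ hclose
    rintro z (rfl | rfl)
    · exact htR
    · rw [SetLike.mem_coe, div_eq_mul_inv]
      exact mul_mem hV (hi _ hG)
  · refine h.2 R ?_ hclose
    rintro z (rfl | rfl | rfl)
    · exact htR
    · exact hV
    · rw [SetLike.mem_coe, div_eq_mul_inv]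
      exact mul_mem hG (hi _ hV)
  · refine h.2 R ?_ hclose
    rintro z (rfl | rfl)
    · exact htR
    · exact hi _ hyR
  · refine h.2 R ?_ hclose
    rintro z (rfl | rfl)
    · exact hi _ htR
    · exact hY
  · refine h.2 R ?_ hclose
    rintro z (rfl | rfl)
    · exact hi _ htR
    · exact hi _ hY

end

end Pool.Agent.MP2b98ed
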