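import Pool.Agent.MP2b98ed.Amp
import Pool.Agent.MP2b98ed.Geo7

/-!
# The main theorem
-/

set_option autoImplicit false

open CategoryTheory Limits AlgebraicGeometry TopologicalSpace

namespace Pool.Agent.MP2b98ed

open Pool.Agent.MP77a250.St St

section alg

variable {K : Type} [Field K] [Algebra ℂ K] {A : Type} [CommRing A] [Algebra K A]

/-- monomials in `x`, `y` of degree `m` -/
def Mon (x y : A) (m : ℕ) : Set A := {τ | ∃ i k, i + k = m ∧ τ = x ^ i * y ^ k}

lemma mon_mul {O : Subalgebra ℂ K} {x y : A} {m : ℕ} {a b : K} (ha : a ∈ O) (hb : b ∈ O) {τ : A}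
    (h : τ ∈ Submodule.span O (Mon x y m)) :
    (a • x + b • y) * τ ∈ Submodule.span O (Mon x y (m + 1)) := by
  induction h using Submodule.span_induction with
  | zero => rw [mul_zero]; exact Submodule.zero_mem _
  | add u v _ _ hu hv => rw [mul_add]; exact Submodule.add_mem _ hu hv
  | smul c u _ hu => rw [mul_smul_comm]; exact Submodule.smul_mem _ _ hu
  | mem u hu =>
    obtain ⟨i, k, hik, rfl⟩ := hu
    have e : (a • x + b • y) * (x ^ i * y ^ k) = (⟨a, ha⟩ : O) • (x ^ (i + 1) * y ^ k) +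
        (⟨b, hb⟩ : O) • (x ^ i * y ^ (k + 1)) := by
      show _ = a • (x ^ (i + 1) * y ^ k) + b • (x ^ i * y ^ (k + 1))
      simp only [Algebra.smul_def]
      ring
    rw [e]
    exact Submodule.add_mem _
      (Submodule.smul_mem _ _ (Submodule.subset_span ⟨i + 1, k, by omega, rfl⟩))
      (Submodule.smul_mem _ _ (Submodule.subset_span ⟨i, k + 1, by omega, rfl⟩))

lemma mon_prod {O : Subalgebra ℂ K} {x y : A} : ∀ (m : ℕ) (z : Fin m → A),
    (∀ k, ∃ a ∈ O, ∃ b ∈ O, z k = (a : K) • x + (b : K) • y) →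
    ∏ k, z k ∈ Submodule.span O (Mon x y m) := by
  intro m
  induction m with
  | zero =>
    intro z _
    rw [Fin.prod_univ_zero]
    exact Submodule.subset_span ⟨0, 0, rfl, by simp⟩
  | succ m ih =>
    intro z hz
    rw [Fin.prod_univ_succ]
    obtain ⟨a, ha, b, hb, h⟩ := hz 0
    rw [h]
    exact mon_mul ha hb (ih _ fun k => hz k.succ)

end alg

section

variable {X : Scheme.{0}} [IsIntegral X] (s : X ⟶ SC)

/-- the symmetric algebra -/
abbrev SA {X : Scheme.{0}} [IsIntegral X] (s : X ⟶ SC) : Type :=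
  SymmetricAlgebra (KK s) (Derivation ℂ (KK s) (KK s))

/-- a symmetric tensor as an element of the symmetric algebra -/
abbrev toSA {X : Scheme.{0}} [IsIntegral X] {s : X ⟶ SC} (τ : SymT s) : SA s := τ

lemma scal_eq (c : KK s) (τ : SA s) : (scal s c τ : SA s) = c • τ :=
  (Algebra.smul_def c τ).symm

lemma mem_spanAt_of {x : X} {T : Set (SA s)} {τ : SA s}
    (h : τ ∈ Submodule.span (regAt s x) T) : τ ∈ spanAt s x T := by
  induction h using Submodule.span_induction with
  | zero => exact (spanAt s x T).zero_mem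
  | add a b _ _ ha hb => exact (spanAt s x T).add_mem ha hb
  | mem v hv =>
    refine AddSubgroup.subset_closure ⟨1, one_mem _, v, hv, ?_⟩
    exact ((scal_eq s 1 v).trans (one_smul _ v)).symm
  | smul c v _ hv =>
    have key : ∀ w : SA s, w ∈ spanAt s x T → (c : KK s) • w ∈ spanAt s x T := by
      intro w hw
      refine AddSubgroup.closure_induction (p := fun w _ => ((c : KK s) • (w : SA s)) ∈
        spanAt s x T) ?_ ?_ ?_ ?_ hw
      · rintro _ ⟨d, hd, v, hv, rfl⟩
        refine AddSubgroup.subset_closure ⟨c * d, mul_mem c.2 hd, v, hv, ?_⟩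
        exact ((congrArg (fun z : SA s => (c : KK s) • z) (scal_eq s d v)).trans
          (smul_smul _ _ _)).trans (scal_eq s _ v).symm
      · have h0 : ((c : KK s) • (0 : SA s)) = 0 := smul_zero _
        exact (congrArg (fun z : SA s => z ∈ spanAt s x T) h0).mpr (spanAt s x T).zero_mem
      · intro a b _ _ ha hb
        have h0 : ((c : KK s) • ((a : SA s) + (b : SA s))) = (c : KK s) • (a : SA s) +
          (c : KK s) • (b : SA s) := smul_add _ _ _
        exact (congrArg (fun z : SA s => z ∈ spanAt s x T) h0).mpr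
          ((spanAt s x T).add_mem ha hb)
      · intro a _ ha
        have h0 : ((c : KK s) • (-(a : SA s))) = -((c : KK s) • (a : SA s)) := smul_neg _ _
        exact (congrArg (fun z : SA s => z ∈ spanAt s x T) h0).mpr ((spanAt s x T).neg_mem ha)
    exact key v hv

lemma span_of_mem {x : X} {T : Set (SA s)} {τ : SA s} (h : τ ∈ spanAt s x T) :
    τ ∈ Submodule.span (regAt s x) T := by
  refine AddSubgroup.closure_induction (p := fun w _ => (w : SA s) ∈
    Submodule.span (regAt s x) T) ?_ ?_ ?_ ?_ h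
  · rintro _ ⟨d, hd, v, hv, rfl⟩
    have h1 : toSA (scal s d v) = (⟨d, hd⟩ : regAt s x) • toSA v := scal_eq s d v
    exact (congrArg (fun z : SA s => z ∈ Submodule.span (regAt s x) T) h1).mpr
      (Submodule.smul_mem _ _ (Submodule.subset_span hv))
  · exact Submodule.zero_mem _
  · intro a b _ _ ha hb
    exact Submodule.add_mem _ ha hb
  · intro a _ ha
    exact Submodule.neg_mem _ ha

lemma exists_open_reg {C : Set (KK s)} (hC : C.Finite) (W : X.Opens)
    (hW : genericPoint X ∈ W) : ∃ U : X.Opens, (U : Set X).Nonempty ∧ U ≤ W ∧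
      ∀ x ∈ U, C ⊆ regAt s x := by
  obtain ⟨_, ⟨V, hV, rfl⟩, hξV, hVW⟩ := X.isBasis_affineOpens.exists_subset_of_mem_open hW W.2
  have hne : Nonempty V := ⟨⟨_, hξV⟩⟩
  obtain ⟨b, hb0, hb⟩ := exists_common_den s hV hne hC
  have hu : ∀ x ∈ nonvan b, Un (regAt s x) (gK s hne b) := fun x hx =>
    ((mem_basicOpen_iff s hne b x).mp hx).2
  refine ⟨nonvan b, ⟨genericPoint X, (mem_basicOpen_iff s hne b _).mpr ⟨hξV, ?_⟩⟩,
    (nonvan_le b).trans hVW, ?_⟩
  · refine ⟨gK_mem s hne b hξV, hb0, ?_⟩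
    rw [regAt_gen]
    exact Algebra.mem_top
  · intro x hx c hc
    obtain ⟨e, he⟩ := hb c hc
    have h1 := hu x hx
    have e1 : c = gK s hne e * (gK s hne b)⁻¹ := by
      rw [← he, mul_assoc, mul_inv_cancel₀ hb0, mul_one]
    rw [SetLike.mem_coe, e1]
    exact mul_mem (gK_mem s hne e (nonvan_le b hx)) h1.2.2

theorem criterion {L : LineBundle X} (hL : L.IsAmple) {n : ℕ} {t y : KK s} {f g : Polynomial ℂ}
    (hLT : ∀ x, LT (regAt s x) t y n f g) (hout : AlgOut (KK s) n t y f g) :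
    TangentPseudoEffective s := by
  obtain ⟨S, R, hSf, hRf, hS0, E1, E2, hE, hΦ⟩ := hout
  obtain ⟨A, hA, σ, hσ0, hσg, hσr⟩ := exists_ample s hL hSf
  obtain ⟨i0, hi0⟩ := A.covers (genericPoint X)
  obtain ⟨U, hUne, hUi, hU⟩ := exists_open_reg s
    (C := R ∪ {(σ i0)⁻¹}) (hRf.union (Set.finite_singleton _)) (A.U i0) hi0
  refine ⟨A, hA, U, hUne, fun m hm => ?_⟩
  obtain ⟨Φ, hΦ1, hΦ2⟩ := hΦ m hm
  have hreg : ∀ τ ∈ Φ, ∀ i, ∀ x ∈ A.U i, (σ i • τ : SA s) ∈ symAt s x m := by
    intro τ hτ i x hx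
    obtain ⟨h, hh, hmem⟩ := hΦ1 (regAt s x) (loc_regAt s x) (hLT x)
    have e : σ i • τ = (σ i * h⁻¹) • (h • τ) := by
      rw [smul_smul, mul_assoc, inv_mul_cancel₀ (hS0 h hh), mul_one]
    have h1 : σ i • τ ∈ Sy (regAt s x) m := by
      rw [e]
      exact Sy.smul_mem (hσr h hh i x hx) (hmem τ hτ)
    exact mem_spanAt_of s h1
  let sec : ∀ τ ∈ Φ, TensorSection s A m := fun τ hτ =>
    { val := fun i => (σ i • τ : SA s)
      regular := hreg τ hτ
      glue := fun i j h => by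
        refine Eq.trans ?_ (scal_eq s _ _).symm
        rw [hσg i j h, mul_smul]
        rfl }
  intro x hx i hxi
  have hRx : R ⊆ regAt s x := Set.subset_union_left.trans (hU x hx)
  have hσx : (σ i0)⁻¹ ∈ regAt s x := hU x hx (Set.mem_union_right _ rfl)
  have hij : Nonempty (A.U i ⊓ A.U i0 : X.Opens) := ⟨⟨x, hxi, hUi hx⟩⟩
  have hσi : (σ i)⁻¹ ∈ regAt s x := by
    rw [hσg i i0 hij, mul_inv]
    exact mul_mem (gK_un s hij _ (x := x) ⟨hxi, hUi hx⟩).2.2 hσx
  have hσi0 : σ i ≠ 0 := hσ0 i ⟨⟨x, hxi⟩⟩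
  -- the elements of `Φ`
  have h1 : Submodule.span (regAt s x) Φ ≤ Submodule.span (regAt s x)
      (Set.range fun σ : TensorSection s A m => toSA (σ.val i)) := by
    rw [Submodule.span_le]
    intro τ hτ
    have e : τ = (⟨(σ i)⁻¹, hσi⟩ : regAt s x) • toSA ((sec τ hτ).val i) := by
      show τ = (σ i)⁻¹ • (σ i • τ)
      rw [smul_smul, inv_mul_cancel₀ hσi0, one_smul]
    rw [SetLike.mem_coe, e]
    exact Submodule.smul_mem _ _ (Submodule.subset_span ⟨sec τ hτ, rfl⟩)
  have h2 : Submodule.span (regAt s x) (Mon (ii E1) (ii E2) m) ≤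
      Submodule.span (regAt s x) Φ := by
    rw [Submodule.span_le]
    rintro _ ⟨j, k, hjk, rfl⟩
    exact hΦ2 (regAt s x) hRx j k hjk
  have h3 : Submodule.span (regAt s x) {τ : SA s | ∃ D : Fin m → Derivation ℂ (KK s) (KK s),
      (∀ k, D k ∈ TT (regAt s x)) ∧ τ = ∏ k, ii (D k)} ≤
      Submodule.span (regAt s x) (Mon (ii E1) (ii E2) m) := by
    rw [Submodule.span_le]
    rintro _ ⟨D, hD, rfl⟩
    refine mon_prod m _ fun k => ?_
    obtain ⟨a, ha, b, hb, hab⟩ := hE (regAt s x) hRx (D k) (hD k)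
    refine ⟨a, ha, b, hb, ?_⟩
    rw [hab]
    exact (map_add (SymmetricAlgebra.ι (KK s) (Derivation ℂ (KK s) (KK s))) _ _).trans
      (by rw [map_smul, map_smul])
  intro τ hτ
  exact mem_spanAt_of s (h1 (h2 (h3 (span_of_mem s hτ))))

end

/-- The tangent bundle of the blow-up of `𝔽_n` at four points in general position is
pseudo-effective. -/
theorem main (n : ℕ) : ∃ P : MvPolynomial (Fin 4 × Fin 2) ℂ, P ≠ 0 ∧
    ∀ p : Fin 4 × Fin 2 → ℂ, MvPolynomial.eval p P ≠ 0 →
    ∀ (F : Scheme.{0}) (s : F ⟶ SC) (H : Hirzebruch n s) (X : Scheme.{0}) (β : X ⟶ F)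
      [IsIntegral X], IsBlowUp β (H.pointsIdeal p) → IsProjectiveManifold (β ≫ s) →
      TangentPseudoEffective (β ≫ s) := by
  refine ⟨genPoly n, genPoly_ne n, fun p hp F s H X β _ hβ hX => ?_⟩
  rw [genPoly_eval] at hp
  have ha : Function.Injective fun i => p (i, 0) := QV_inj (left_ne_zero_of_mul hp)
  obtain ⟨f, hf3, hf⟩ := exists_f ha (fun i => p (i, 1))
  obtain ⟨t, y, hc⟩ := exists_isCoord H hβ
  obtain ⟨Dt, Dy, hD, hDD⟩ := exists_coord (genK_all H hβ hc ha hf) hc.ai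
  obtain ⟨L, hL⟩ := hX.projective
  exact criterion _ hL (LT_all H hβ hc ha hf) (alg_main n hp hf3 hf hD hc.ai hDD)

end Pool.Agent.MP2b98ed
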