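import Pool.Agent.MP2b98ed.Small4

/-!
# General position
-/

set_option autoImplicit false

open Polynomial

namespace Pool.Agent.MP2b98ed

/-- the condition for `n = 0` -/
def Q0 {R : Type} [CommRing R] (a c : Fin 4 → R) : R :=
  c 0 * c 1 * c 2 * c 3 * ((c 0 - c 2) * (c 1 - c 2) * (c 1 - c 3) * (c 2 - c 3)) *
    ((a 0 - a 3) * (a 1 - a 2) * ((c 1 - c 0) * (c 3 - c 2)) -
    (a 0 - a 1) * (a 2 - a 3) * ((c 3 - c 0) * (c 2 - c 1)))

/-- the condition for `n = 1` -/
def Q1 {R : Type} [CommRing R] (a c : Fin 4 → R) : R :=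
  (c 1 - c 0) * (c 2 - c 0) * (c 3 - c 0) *
    ((a 1 - a 0) * (c 2 - c 0) - (a 2 - a 0) * (c 1 - c 0)) *
    ((a 1 - a 0) * (c 3 - c 0) - (a 3 - a 0) * (c 1 - c 0)) *
    ((a 2 - a 0) * (c 3 - c 0) - (a 3 - a 0) * (c 2 - c 0)) *
    ((c 1 - c 0) * (a 2 - a 3) + (c 2 - c 0) * (a 3 - a 1) + (c 3 - c 0) * (a 1 - a 2))

/-- the condition for `n = 2` -/
def Q2 {R : Type} [CommRing R] (a c : Fin 4 → R) : R :=
  ((c 2 - c 0) * (a 1 - a 0) - (c 1 - c 0) * (a 2 - a 0)) *
  ((c 3 - c 0) * (a 1 - a 0) - (c 1 - c 0) * (a 3 - a 0)) *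
  ((a 2 - a 0) * (a 2 - a 1) * ((c 3 - c 0) * (a 1 - a 0) - (c 1 - c 0) * (a 3 - a 0)) -
    (a 3 - a 0) * (a 3 - a 1) * ((c 2 - c 0) * (a 1 - a 0) - (c 1 - c 0) * (a 2 - a 0)))

/-- the polynomial of the general position -/
def QV {R : Type} [CommRing R] (a : Fin 4 → R) : R :=
  (a 0 - a 1) * (a 0 - a 2) * (a 0 - a 3) * (a 1 - a 2) * (a 1 - a 3) * (a 2 - a 3)

/-- the condition of general position for every `n` -/
def QN {R : Type} [CommRing R] (n : ℕ) (a c : Fin 4 → R) : R :=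
  QV a * (if n = 0 then Q0 a c else if n = 1 then Q1 a c else if n = 2 then Q2 a c else 1)

/-- the polynomial of the condition of general position. -/
noncomputable def genPoly (n : ℕ) : MvPolynomial (Fin 4 × Fin 2) ℂ :=
  QN n (fun i => MvPolynomial.X (i, 0)) (fun i => MvPolynomial.X (i, 1))

lemma genPoly_eval (n : ℕ) (p : Fin 4 × Fin 2 → ℂ) : MvPolynomial.eval p (genPoly n) =
    QN n (fun i => p (i, 0)) (fun i => p (i, 1)) := by
  unfold genPoly QN
  split_ifs <;> simp [QV, Q0, Q1, Q2]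

lemma genPoly_ne (n : ℕ) : genPoly n ≠ 0 := by
  intro h
  have h0 : ∀ a c : Fin 4 → ℂ, QN n a c = 0 := fun a c => by
    have := genPoly_eval n (fun x => if x.2 = 0 then a x.1 else c x.1)
    rw [h, map_zero] at this
    simpa using this.symm
  rcases Nat.lt_or_ge n 3 with hn | hn
  · interval_cases n
    · have := h0 ![0, 1, 2, 3] ![1, 2, 3, 5]
      simp [QN, QV, Q0] at this
      norm_num at this
    · have := h0 ![0, 1, 2, 3] ![0, 1, 4, 8]
      simp [QN, QV, Q1] at this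
      norm_num at this
    · have := h0 ![0, 1, 2, 3] ![0, 0, 1, 1]
      simp [QN, QV, Q2] at this
      norm_num at this
  · have := h0 ![0, 1, 2, 3] ![0, 0, 1, 1]
    have e0 : n ≠ 0 := by omega
    have e1 : n ≠ 1 := by omega
    have e2 : n ≠ 2 := by omega
    simp [QN, QV, e0, e1, e2] at this
    norm_num at this

lemma QV_inj {a : Fin 4 → ℂ} (h : QV a ≠ 0) : Function.Injective a := by
  simp only [QV, ne_eq, mul_eq_zero, not_or, sub_eq_zero] at h
  obtain ⟨⟨⟨⟨⟨h01, h02⟩, h03⟩, h12⟩, h13⟩, h23⟩ := h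
  have H : ∀ i, i = 0 ∨ i = 1 ∨ i = 2 ∨ i = (3 : Fin 4) := by decide
  intro i j hij
  rcases H i with rfl | rfl | rfl | rfl <;> rcases H j with rfl | rfl | rfl | rfl <;>
    first | rfl | exact absurd hij ‹_› | exact absurd hij.symm ‹_›

/-- the polynomial `l` -/
noncomputable def ll (n : ℕ) (a c : Fin 4 → ℂ) : ℂ[X] :=
  if n = 0 then 0 else if n = 1 then C (c 0) else
    C (c 0) + C ((c 1 - c 0) / (a 1 - a 0)) * (X - C (a 0))

/-- the set `s` -/
def ss (n : ℕ) : Finset (Fin 4) := if n = 0 then ∅ else if n = 1 then {0} else {0, 1}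

/-- the coordinates `b` -/
noncomputable def bb (n : ℕ) (a c : Fin 4 → ℂ) (i : Fin 4) : ℂ :=
  if i ∈ ss n then 0 else (gp a (ss n)).eval (a i) / (c i - (ll n a c).eval (a i))

/-- the condition of general position for `n ≤ 2`. -/
structure GP2 (a c : Fin 4 → ℂ) (l : ℂ[X]) (s : Finset (Fin 4)) (b : Fin 4 → ℂ) : Prop where
  l0 : ∀ i ∈ s, l.eval (a i) = c i
  l1 : ∀ i ∉ s, l.eval (a i) ≠ c i
  h12 : b 1 ≠ b 2
  h13 : b 1 ≠ b 3
  h23 : b 2 ≠ b 3
  h02 : b 0 ≠ b 2
  hE : Ec a b ≠ 0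

lemma fin4 (i : Fin 4) : i = 0 ∨ i = 1 ∨ i = 2 ∨ i = 3 := by
  revert i; decide

lemma gp_two {n : ℕ} (hn : n ≤ 2) {a c : Fin 4 → ℂ} (h : QN n a c ≠ 0) :
    GP2 a c (ll n a c) (ss n) (bb n a c) := by
  have hV : QV a ≠ 0 := left_ne_zero_of_mul h
  have h' := right_ne_zero_of_mul h
  have hV' := hV
  simp only [QV, ne_eq, mul_eq_zero, not_or] at hV
  obtain ⟨⟨⟨⟨⟨h01, h02⟩, h03⟩, h12⟩, h13⟩, h23⟩ := hV
  interval_cases n
  · simp only [if_true, Q0, ne_eq, mul_eq_zero, not_or] at h'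
    obtain ⟨⟨⟨⟨⟨c0, c1⟩, c2⟩, c3⟩, ⟨⟨⟨d02, d12⟩, d13⟩, d23⟩⟩, hE⟩ := h'
    have hb : bb 0 a c = fun i => (c i)⁻¹ := by
      funext i; simp [bb, ss, gp, ll]
    have hc : ∀ i, c i ≠ 0 := fun i => by
      rcases fin4 i with rfl | rfl | rfl | rfl <;> assumption
    rw [hb]
    refine ⟨by simp [ss], fun i _ => ?_, ?_, ?_, ?_, ?_, ?_⟩
    · simpa [ll] using (hc i).symm
    · exact fun h => d12 (sub_eq_zero.mpr (inv_injective h))
    · exact fun h => d13 (sub_eq_zero.mpr (inv_injective h))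
    · exact fun h => d23 (sub_eq_zero.mpr (inv_injective h))
    · exact fun h => d02 (sub_eq_zero.mpr (inv_injective h))
    · intro h
      apply hE
      have e : (a 0 - a 3) * (a 1 - a 2) * ((c 1 - c 0) * (c 3 - c 2)) -
          (a 0 - a 1) * (a 2 - a 3) * ((c 3 - c 0) * (c 2 - c 1)) =
          c 0 * c 1 * c 2 * c 3 * Ec a (fun i => (c i)⁻¹) := by
        unfold Ec
        have := hc 0
        have := hc 1
        have := hc 2
        have := hc 3
        field_simp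
      rw [e, h, mul_zero]
  · simp only [one_ne_zero, if_false, if_true, Q1, ne_eq, mul_eq_zero, not_or] at h'
    obtain ⟨⟨⟨⟨⟨⟨c1, c2⟩, c3⟩, d12⟩, d13⟩, d23⟩, hE⟩ := h'
    have b0 : bb 1 a c 0 = 0 := by simp [bb, ss]
    have b1 : bb 1 a c 1 = (a 1 - a 0) / (c 1 - c 0) := by simp [bb, ss, gp, ll]
    have b2 : bb 1 a c 2 = (a 2 - a 0) / (c 2 - c 0) := by simp [bb, ss, gp, ll]
    have b3 : bb 1 a c 3 = (a 3 - a 0) / (c 3 - c 0) := by simp [bb, ss, gp, ll]
    refine ⟨by simp [ss, ll], fun i hi => ?_, ?_, ?_, ?_, ?_, ?_⟩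
    · rcases fin4 i with rfl | rfl | rfl | rfl
      · exact absurd (by simp [ss]) hi
      · simp only [ll, one_ne_zero, if_false, if_true, eval_C]
        exact fun h => c1 (by rw [h, sub_self])
      · simp only [ll, one_ne_zero, if_false, if_true, eval_C]
        exact fun h => c2 (by rw [h, sub_self])
      · simp only [ll, one_ne_zero, if_false, if_true, eval_C]
        exact fun h => c3 (by rw [h, sub_self])
    · rw [b1, b2, ne_eq, div_eq_div_iff c1 c2]
      exact fun h => d12 (sub_eq_zero.mpr h)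
    · rw [b1, b3, ne_eq, div_eq_div_iff c1 c3]
      exact fun h => d13 (sub_eq_zero.mpr h)
    · rw [b2, b3, ne_eq, div_eq_div_iff c2 c3]
      exact fun h => d23 (sub_eq_zero.mpr h)
    · rw [b0, b2]
      refine (div_ne_zero ?_ c2).symm
      intro h; apply h02; linear_combination -h
    · intro h
      apply hE
      have a1 : a 1 - a 0 ≠ 0 := fun h => h01 (by linear_combination -h)
      have a2 : a 2 - a 0 ≠ 0 := fun h => h02 (by linear_combination -h)
      have a3 : a 3 - a 0 ≠ 0 := fun h => h03 (by linear_combination -h)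
      have e : (a 1 - a 0) * (a 2 - a 0) * (a 3 - a 0) * ((c 1 - c 0) * (a 2 - a 3) +
          (c 2 - c 0) * (a 3 - a 1) + (c 3 - c 0) * (a 1 - a 2)) =
          ((c 1 - c 0) * (c 2 - c 0) * (c 3 - c 0)) * Ec a (bb 1 a c) := by
        unfold Ec
        rw [b0, b1, b2, b3]
        field_simp
        ring
      rw [h, mul_zero] at e
      exact (mul_eq_zero.mp e).resolve_left (mul_ne_zero (mul_ne_zero a1 a2) a3)
  · simp only [OfNat.ofNat_ne_zero, OfNat.ofNat_ne_one, if_false, if_true, Q2, ne_eq,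
      mul_eq_zero, not_or] at h'
    obtain ⟨⟨z2, z3⟩, hd⟩ := h'
    have a1 : a 1 - a 0 ≠ 0 := fun h => h01 (by linear_combination -h)
    have a2 : a 2 - a 0 ≠ 0 := fun h => h02 (by linear_combination -h)
    have a3 : a 3 - a 0 ≠ 0 := fun h => h03 (by linear_combination -h)
    have a21 : a 2 - a 1 ≠ 0 := fun h => h12 (by linear_combination -h)
    have a31 : a 3 - a 1 ≠ 0 := fun h => h13 (by linear_combination -h)
    have hl : ∀ i, (ll 2 a c).eval (a i) = c 0 + (c 1 - c 0) / (a 1 - a 0) * (a i - a 0) := by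
      intro i; simp [ll]
    have hz : ∀ i, c i - (ll 2 a c).eval (a i) =
        ((c i - c 0) * (a 1 - a 0) - (c 1 - c 0) * (a i - a 0)) / (a 1 - a 0) := by
      intro i; rw [hl]; field_simp; ring
    have b0 : bb 2 a c 0 = 0 := by simp [bb, ss]
    have b1 : bb 2 a c 1 = 0 := by simp [bb, ss]
    have b2 : bb 2 a c 2 = (a 2 - a 0) * (a 2 - a 1) * (a 1 - a 0) /
        ((c 2 - c 0) * (a 1 - a 0) - (c 1 - c 0) * (a 2 - a 0)) := by
      simp only [bb, hz]
      simp [ss, gp]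
      field_simp
    have b3 : bb 2 a c 3 = (a 3 - a 0) * (a 3 - a 1) * (a 1 - a 0) /
        ((c 3 - c 0) * (a 1 - a 0) - (c 1 - c 0) * (a 3 - a 0)) := by
      simp only [bb, hz]
      simp [ss, gp]
      field_simp
    have n2 : bb 2 a c 2 ≠ 0 := by
      rw [b2]; exact div_ne_zero (mul_ne_zero (mul_ne_zero a2 a21) a1) z2
    have n3 : bb 2 a c 3 ≠ 0 := by
      rw [b3]; exact div_ne_zero (mul_ne_zero (mul_ne_zero a3 a31) a1) z3
    refine ⟨fun i hi => ?_, fun i hi => ?_, ?_, ?_, ?_, ?_, ?_⟩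
    · rcases fin4 i with rfl | rfl | rfl | rfl
      · rw [hl]; ring
      · rw [hl]; field_simp; ring
      · exact absurd hi (by simp [ss])
      · exact absurd hi (by simp [ss])
    · rcases fin4 i with rfl | rfl | rfl | rfl
      · exact absurd (by simp [ss]) hi
      · exact absurd (by simp [ss]) hi
      · exact fun h => div_ne_zero z2 a1 (by rw [← hz, h, sub_self])
      · exact fun h => div_ne_zero z3 a1 (by rw [← hz, h, sub_self])
    · rw [b1]; exact n2.symm
    · rw [b1]; exact n3.symm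
    · rw [b2, b3, ne_eq, div_eq_div_iff z2 z3]
      intro h
      apply hd
      apply mul_right_cancel₀ a1
      linear_combination h
    · rw [b0]; exact n2.symm
    · have e : Ec a (bb 2 a c) = -((a 0 - a 1) * (a 2 - a 3) * (bb 2 a c 3 * bb 2 a c 2)) := by
        unfold Ec
        rw [b0, b1]
        ring
      rw [e]
      exact neg_ne_zero.mpr (mul_ne_zero (mul_ne_zero h01 h23) (mul_ne_zero n3 n2))

lemma exists_el {n : ℕ} (hn : n ≤ 2) {a c : Fin 4 → ℂ} (ha : Function.Injective a) {f : ℂ[X]}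
    (hf : ∀ i, f.eval (a i) = c i) (hG : GP2 a c (ll n a c) (ss n) (bb n a c)) :
    ∃ h, ElData a (bb n a c) (ss n) n f (ll n a c) h := by
  have hdvd : gp a (ss n) ∣ f - ll n a c := by
    unfold gp
    refine Finset.prod_dvd_of_coprime ?_ ?_
    · intro i _ j _ hij
      exact pairwise_coprime_X_sub_C ha hij
    · intro i hi
      rw [dvd_iff_isRoot, IsRoot, eval_sub, hf, hG.l0 i hi, sub_self]
  obtain ⟨h, hh⟩ := hdvd
  refine ⟨h, ha, ?_, ?_, ?_, ?_, ?_⟩
  · interval_cases n <;> rfl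
  · rw [← hh]; ring
  · interval_cases n
    · simp [ll]
    · simp [ll]
    · simp only [ll, OfNat.ofNat_ne_zero, OfNat.ofNat_ne_one, if_false]
      compute_degree
      omega
  · intro i hi
    simp [bb, hi]
  · intro i hi
    have h1 := congrArg (Polynomial.eval (a i)) hh
    rw [eval_sub, eval_mul, hf] at h1
    have h2 : (gp a (ss n)).eval (a i) ≠ 0 := by
      unfold gp
      rw [eval_prod]
      refine Finset.prod_ne_zero_iff.mpr fun j hj => ?_
      rw [eval_sub, eval_X, eval_C]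
      exact sub_ne_zero.mpr fun h => hi (ha h ▸ hj)
    have h3 : c i - (ll n a c).eval (a i) ≠ 0 := sub_ne_zero.mpr (hG.l1 i hi).symm
    simp only [bb, if_neg hi]
    rw [div_mul_eq_mul_div, h1.symm, div_self h3]

end Pool.Agent.MP2b98ed
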