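import Pool.Agent.MP2b98ed.Stmt
import Pool.Agent.MP77a250.Comap

/-!
# Ideal sheaves on affine schemes
-/

set_option autoImplicit false

open CategoryTheory Limits AlgebraicGeometry TopologicalSpace

namespace Pool.Agent.MP2b98ed

open Pool.Agent.MP77a250.St St Scheme.IdealSheafData

/-- the ideal of `R` given by an ideal sheaf on `Spec R` -/
noncomputable def idl {R : CommRingCat.{0}} (J : (Spec R).IdealSheafData) : Ideal R :=
  (J.ideal ⟨⊤, isAffineOpen_top _⟩).comap (Scheme.ΓSpecIso R).inv.hom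

lemma idl_eq_map {R : CommRingCat.{0}} (J : (Spec R).IdealSheafData) :
    idl J = (J.ideal ⟨⊤, isAffineOpen_top _⟩).map (Scheme.ΓSpecIso R).hom.hom := by
  exact Ideal.comap_symm (Scheme.ΓSpecIso R).commRingCatIsoToRingEquiv

lemma ideal_eq_idl_map {R : CommRingCat.{0}} (J : (Spec R).IdealSheafData) :
    J.ideal ⟨⊤, isAffineOpen_top _⟩ = (idl J).map (Scheme.ΓSpecIso R).inv.hom := by
  rw [idl_eq_map, Ideal.map_map, ← CommRingCat.hom_comp, Iso.hom_inv_id]
  simp

lemma idl_comap {R S : CommRingCat.{0}} (φ : R ⟶ S) (J : (Spec R).IdealSheafData) :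
    idl (J.comap (Spec.map φ)) = (idl J).map φ.hom := by
  rw [idl_eq_map, Pool.Agent.MP77a250.comap_ideal_top, ideal_eq_idl_map, Ideal.map_map,
    Ideal.map_map]
  congr 1
  rw [← CommRingCat.hom_comp, ← CommRingCat.hom_comp, Scheme.ΓSpecIso_naturality,
    Iso.inv_hom_id_assoc]

lemma idl_iInf {R : CommRingCat.{0}} {ι : Type} [Finite ι] (J : ι → (Spec R).IdealSheafData) :
    idl (⨅ i, J i) = ⨅ i, idl (J i) := by
  unfold idl
  rw [ideal_iInf, iInf_apply, Ideal.comap_iInf]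

lemma idl_ker {R S : CommRingCat.{0}} (φ : R ⟶ S) :
    idl (Spec.map φ).ker = RingHom.ker φ.hom := by
  unfold idl
  rw [Scheme.Hom.ker_apply, RingHom.comap_ker]
  have h1 : ((Spec.map φ).app ⊤).hom.comp (Scheme.ΓSpecIso R).inv.hom =
      (Scheme.ΓSpecIso S).inv.hom.comp φ.hom := by
    rw [← CommRingCat.hom_comp, ← CommRingCat.hom_comp]
    exact congrArg _ (Scheme.ΓSpecIso_inv_naturality φ).symm
  rw [h1]
  have h2 : Function.Injective (Scheme.ΓSpecIso S).inv.hom :=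
    (ConcreteCategory.bijective_of_isIso (Scheme.ΓSpecIso S).inv).1
  exact RingHom.ker_comp_of_injective _ h2

lemma nzd_inv {R : CommRingCat.{0}} [IsDomain R] {a : R} (ha : a ≠ 0) :
    (Scheme.ΓSpecIso R).inv.hom a ∈ nonZeroDivisors Γ(Spec R, ⊤) := by
  rw [mem_nonZeroDivisors_iff_right]
  intro z hz
  have h1 : (Scheme.ΓSpecIso R).hom.hom z * a = 0 := by
    have := congrArg (Scheme.ΓSpecIso R).hom.hom hz
    rw [map_zero, map_mul] at this
    have h2 : (Scheme.ΓSpecIso R).hom.hom ((Scheme.ΓSpecIso R).inv.hom a) = a := by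
      rw [← CommRingCat.comp_apply, Iso.inv_hom_id]; rfl
    rwa [h2] at this
  have h3 := (mul_eq_zero.mp h1).resolve_right ha
  exact (map_eq_zero_iff _ (ConcreteCategory.bijective_of_isIso (Scheme.ΓSpecIso R).hom).1).mp h3

lemma nzd_hom {R : CommRingCat.{0}} {a : Γ(Spec R, ⊤)} (ha : a ∈ nonZeroDivisors Γ(Spec R, ⊤)) :
    (Scheme.ΓSpecIso R).hom.hom a ∈ nonZeroDivisors R := by
  rw [mem_nonZeroDivisors_iff_right] at ha ⊢
  intro z hz
  have h0 : (Scheme.ΓSpecIso R).inv.hom ((Scheme.ΓSpecIso R).hom.hom a) = a := by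
    rw [← CommRingCat.comp_apply, Iso.hom_inv_id]; rfl
  have h1 : (Scheme.ΓSpecIso R).inv.hom z * a = 0 := by
    have := congrArg (Scheme.ΓSpecIso R).inv.hom hz
    rwa [map_zero, map_mul, h0] at this
  exact (map_eq_zero_iff _ (ConcreteCategory.bijective_of_isIso (Scheme.ΓSpecIso R).inv).1).mp
    (ha _ h1)

lemma inv_of_idl {R : CommRingCat.{0}} [IsDomain R] (J : (Spec R).IdealSheafData) {a : R}
    (ha : a ≠ 0) (h : idl J = Ideal.span {a}) : IsInvertibleIdeal J := by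
  intro y
  refine ⟨⟨⊤, isAffineOpen_top _⟩, trivial, (Scheme.ΓSpecIso R).inv.hom a, nzd_inv ha, ?_⟩
  show J.ideal ⟨⊤, isAffineOpen_top _⟩ = _
  rw [ideal_eq_idl_map, h, Ideal.map_span, Set.image_singleton]
  rfl

lemma idl_top {R : CommRingCat.{0}} : idl (⊤ : (Spec R).IdealSheafData) = ⊤ := by
  unfold idl
  rw [ideal_top]
  exact Ideal.comap_top

lemma idl_of_eq {R : CommRingCat.{0}} (J : (Spec R).IdealSheafData) (a : Γ(Spec R, ⊤))
    (h : J.ideal ⟨⊤, isAffineOpen_top _⟩ = Ideal.span {a}) :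
    idl J = Ideal.span {(Scheme.ΓSpecIso R).hom.hom a} := by
  rw [idl_eq_map, h, Ideal.map_span, Set.image_singleton]

/-- over a local ring, an invertible ideal sheaf is given by a principal ideal. -/
lemma idl_of_inv {R : CommRingCat.{0}} [IsLocalRing R] (J : (Spec R).IdealSheafData)
    (h : IsInvertibleIdeal J) : ∃ a ∈ nonZeroDivisors R, idl J = Ideal.span {a} := by
  obtain ⟨⟨U, hU⟩, hyU, a, ha, hJ⟩ := h (IsLocalRing.closedPoint R)
  have htop : U = ⊤ := IsLocalRing.closed_point_mem_iff.mp hyU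
  subst htop
  exact ⟨(Scheme.ΓSpecIso R).hom.hom a, nzd_hom ha, idl_of_eq J a hJ⟩

end Pool.Agent.MP2b98ed
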