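import Pool.Agent.MP2b98ed.Geo1
import Pool.Agent.MP2b98ed.AlgMain

/-!
# The ideal of the four points
-/

set_option autoImplicit false

open CategoryTheory Limits AlgebraicGeometry TopologicalSpace

namespace Pool.Agent.MP2b98ed

open Pool.Agent.MP77a250.St St Scheme.IdealSheafData

lemma comap_iInf_open {X Y : Scheme.{0}} (f : X ⟶ Y) [IsOpenImmersion f] {ι : Type} [Finite ι]
    (J : ι → Y.IdealSheafData) : (⨅ i, J i).comap f = ⨅ i, (J i).comap f := by
  ext U : 2
  rw [ideal_comap_of_isOpenImmersion, ideal_iInf, ideal_iInf, iInf_apply, iInf_apply,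
    Ideal.comap_iInf]
  exact iInf_congr fun i => (ideal_comap_of_isOpenImmersion _ _ _).symm

lemma ker_comp_comap {X Y Z : Scheme.{0}} (g : X ⟶ Y) (f : Y ⟶ Z) [IsOpenImmersion f]
    [QuasiCompact g] [QuasiCompact (g ≫ f)] : (g ≫ f).ker.comap f = g.ker := by
  ext U : 2
  rw [ideal_comap_of_isOpenImmersion, Scheme.Hom.ker_apply, Scheme.Hom.ker_apply,
    RingHom.comap_ker, ← CommRingCat.hom_comp]
  have h := IsOpenImmersion.app_eq_appIso_inv_app_of_comp_eq g f (g ≫ f) rfl U.1
  rw [h, ← Category.assoc, CommRingCat.hom_comp _ (X.presheaf.map _)]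
  exact (RingHom.ker_comp_of_injective _ (ConcreteCategory.bijective_of_isIso _).1).symm

/-- naturality of the points of the plane -/
lemma map_planePt {R R' : Type} [CommRing R] [CommRing R'] [Algebra ℂ R] [Algebra ℂ R']
    (f : R →ₐ[ℂ] R') (a b : R) :
    Spec.map (CommRingCat.ofHom f.toRingHom) ≫ planePt a b = planePt (f a) (f b) := by
  have h : f.comp (MvPolynomial.aeval ![a, b]) = MvPolynomial.aeval ![f a, f b] := by
    apply MvPolynomial.algHom_ext
    intro i
    fin_cases i <;> simp
  exact (Spec.map_comp _ _).symm.trans (congrArg (fun g : MvPolynomial (Fin 2) ℂ →ₐ[ℂ] R' =>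
    Spec.map (CommRingCat.ofHom g.toRingHom)) h)

lemma planePt_str {R : Type} [CommRing R] [Algebra ℂ R] (a b : R) :
    planePt a b ≫ planeStr = Spec.map (CommRingCat.ofHom (algebraMap ℂ R)) := by
  refine (Spec.map_comp _ _).symm.trans (congrArg Spec.map ?_)
  ext c
  simp

section pts

variable {n : ℕ} {F : Scheme.{0}} {s : F ⟶ SC} (H : Hirzebruch n s)

include H

lemma pt_str (a b : ℂ) : H.pt a b ≫ s = 𝟙 _ := by
  unfold Hirzebruch.pt
  rw [Category.assoc, H.chart_str, planePt_str]
  exact Spec.map_id _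

lemma pt_closed (a b : ℂ) : IsClosedImmersion (H.pt a b) := by
  have := H.separated
  have h1 : IsClosedImmersion (H.pt a b ≫ s) := by
    rw [pt_str]
    exact inferInstanceAs (IsClosedImmersion (𝟙 (Spec (CommRingCat.of ℂ))))
  exact IsClosedImmersion.of_comp _ s

lemma comap_pointsIdeal (p : Fin 4 × Fin 2 → ℂ) : (H.pointsIdeal p).comap (H.chart 0) =
    ⨅ i : Fin 4, (planePt (p (i, 0)) (p (i, 1))).ker := by
  have := H.open_immersion 0
  unfold Hirzebruch.pointsIdeal
  rw [comap_iInf_open]
  refine iInf_congr fun i => ?_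
  have h1 : IsClosedImmersion (planePt (p (i, 0)) (p (i, 1)) ≫ H.chart 0) := pt_closed H _ _
  have h2 : QuasiCompact (planePt (p (i, 0)) (p (i, 1))) := by
    unfold planePt
    infer_instance
  exact ker_comp_comap _ _

end pts

/-- the ideal of four points with distinct first coordinates. -/
lemma ideal_four {a c : Fin 4 → ℂ} (ha : Function.Injective a) {f : Polynomial ℂ}
    (hf : ∀ i, f.eval (a i) = c i) :
    (⨅ i : Fin 4, RingHom.ker (MvPolynomial.aeval (R := ℂ) ![a i, c i]).toRingHom) =
      Ideal.span {Polynomial.aeval (MvPolynomial.X 0 : MvPolynomial (Fin 2) ℂ)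
        (gp a Finset.univ), MvPolynomial.X 1 - Polynomial.aeval (MvPolynomial.X 0) f} := by
  apply le_antisymm
  · intro P hP
    rw [Ideal.mem_iInf] at hP
    set Q : Polynomial ℂ := MvPolynomial.aeval ![Polynomial.X, f] P with hQ
    have hQe : ∀ c' : ℂ, Q.eval c' = MvPolynomial.aeval (R := ℂ) ![c', f.eval c'] P := by
      intro c'
      have h1 : (Polynomial.aeval (R := ℂ) c').comp (MvPolynomial.aeval ![Polynomial.X, f]) =
          MvPolynomial.aeval ![c', f.eval c'] := by
        apply MvPolynomial.algHom_ext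
        intro i
        fin_cases i <;> simp
      exact DFunLike.congr_fun h1 P
    have hdvd : gp a Finset.univ ∣ Q := by
      unfold gp
      refine Finset.prod_dvd_of_coprime ?_ ?_
      · intro i _ j _ hij
        exact Polynomial.pairwise_coprime_X_sub_C ha hij
      · intro i _
        rw [Polynomial.dvd_iff_isRoot, Polynomial.IsRoot, hQe, hf]
        exact hP i
    have h1 : P - Polynomial.aeval (MvPolynomial.X 0) Q ∈ Ideal.span
        {MvPolynomial.X 1 - Polynomial.aeval (MvPolynomial.X 0 : MvPolynomial (Fin 2) ℂ) f} := by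
      rw [← Ideal.Quotient.eq]
      have h2 : (Ideal.Quotient.mkₐ ℂ (Ideal.span
          {MvPolynomial.X 1 - Polynomial.aeval (MvPolynomial.X 0 : MvPolynomial (Fin 2) ℂ) f})) =
          ((Ideal.Quotient.mkₐ ℂ (Ideal.span
          {MvPolynomial.X 1 - Polynomial.aeval (MvPolynomial.X 0 : MvPolynomial (Fin 2) ℂ) f})).comp
          (Polynomial.aeval (MvPolynomial.X 0))).comp (MvPolynomial.aeval ![Polynomial.X, f]) := by
        apply MvPolynomial.algHom_ext
        intro i
        fin_cases i
        · simp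
        · simp only [Fin.mk_one, AlgHom.comp_apply, MvPolynomial.aeval_X, Matrix.cons_val_one,
            Matrix.cons_val_fin_one]
          exact Ideal.Quotient.eq.mpr (Ideal.subset_span rfl)
      exact DFunLike.congr_fun h2 P
    obtain ⟨Q', hQ'⟩ := hdvd
    have h3 : P = (P - Polynomial.aeval (MvPolynomial.X 0) Q) +
        Polynomial.aeval (MvPolynomial.X 0) Q' * Polynomial.aeval (MvPolynomial.X 0)
          (gp a Finset.univ) := by
      rw [hQ', map_mul]; ring
    rw [h3]
    exact Ideal.add_mem _ (Ideal.span_mono (by simp) h1)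
      (Ideal.mul_mem_left _ _ (Ideal.subset_span (by simp)))
  · rw [Ideal.span_le]
    have key : ∀ (i : Fin 4) (g : Polynomial ℂ), MvPolynomial.aeval (R := ℂ) ![a i, c i]
        (Polynomial.aeval (MvPolynomial.X 0 : MvPolynomial (Fin 2) ℂ) g) = g.eval (a i) := by
      intro i g
      rw [← Polynomial.aeval_algHom_apply, MvPolynomial.aeval_X]
      simp
    rintro P (rfl | rfl)
    · rw [SetLike.mem_coe, Ideal.mem_iInf]
      intro i
      show MvPolynomial.aeval (R := ℂ) ![a i, c i] _ = 0
      rw [key]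
      unfold gp
      rw [Polynomial.eval_prod]
      exact Finset.prod_eq_zero (Finset.mem_univ i) (by simp)
    · rw [SetLike.mem_coe, Ideal.mem_iInf]
      intro i
      show MvPolynomial.aeval (R := ℂ) ![a i, c i] _ = 0
      rw [map_sub, key, MvPolynomial.aeval_X, hf]
      simp

lemma idl_pts {n : ℕ} {F : Scheme.{0}} {s : F ⟶ SC} (H : Hirzebruch n s)
    {p : Fin 4 × Fin 2 → ℂ} (ha : Function.Injective fun i => p (i, 0)) {f : Polynomial ℂ}
    (hf : ∀ i, f.eval (p (i, 0)) = p (i, 1)) {B : Type} [CommRing B] [Algebra ℂ B] (t y : B) :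
    idl (R := CommRingCat.of B) ((H.pointsIdeal p).comap (planePt t y ≫ H.chart 0)) =
      Ideal.span {Polynomial.aeval t (gp (fun i => p (i, 0)) Finset.univ),
        y - Polynomial.aeval t f} := by
  rw [comap_comp, comap_pointsIdeal]
  have h1 : idl (R := CommRingCat.of (MvPolynomial (Fin 2) ℂ))
      (⨅ i : Fin 4, (planePt (p (i, 0)) (p (i, 1))).ker) =
      Ideal.span {Polynomial.aeval (MvPolynomial.X 0 : MvPolynomial (Fin 2) ℂ)
        (gp (fun i => p (i, 0)) Finset.univ),
        MvPolynomial.X 1 - Polynomial.aeval (MvPolynomial.X 0) f} := by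
    have h2 := idl_iInf (R := CommRingCat.of (MvPolynomial (Fin 2) ℂ))
      (fun i : Fin 4 => (planePt (p (i, 0)) (p (i, 1))).ker)
    refine h2.trans ?_
    rw [← ideal_four ha hf]
    exact iInf_congr fun i => idl_ker _
  have h3 := idl_comap (CommRingCat.ofHom (MvPolynomial.aeval (R := ℂ) ![t, y]).toRingHom)
    (⨅ i : Fin 4, (planePt (p (i, 0)) (p (i, 1))).ker)
  refine h3.trans ?_
  rw [h1, Ideal.map_span, Set.image_pair]
  have key : ∀ g : Polynomial ℂ, MvPolynomial.aeval (R := ℂ) ![t, y]
      (Polynomial.aeval (MvPolynomial.X 0 : MvPolynomial (Fin 2) ℂ) g) =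
      Polynomial.aeval t g := by
    intro g
    rw [← Polynomial.aeval_algHom_apply, MvPolynomial.aeval_X]
    simp
  have e1 : (CommRingCat.ofHom (MvPolynomial.aeval (R := ℂ) ![t, y]).toRingHom).hom
      (Polynomial.aeval (MvPolynomial.X 0 : MvPolynomial (Fin 2) ℂ)
        (gp (fun i => p (i, 0)) Finset.univ)) =
      Polynomial.aeval t (gp (fun i => p (i, 0)) Finset.univ) := key _
  have e2 : (CommRingCat.ofHom (MvPolynomial.aeval (R := ℂ) ![t, y]).toRingHom).hom
      (MvPolynomial.X 1 - Polynomial.aeval (MvPolynomial.X 0) f) = y - Polynomial.aeval t f := by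
    rw [map_sub]
    congr 1
    · show MvPolynomial.aeval (R := ℂ) ![t, y] _ = _
      rw [MvPolynomial.aeval_X]
      simp
    · exact key _
  rw [e1, e2]

end Pool.Agent.MP2b98ed
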