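import Pool.Agent.MP2b98ed.Geo2

/-!
# The support of the ideal of the four points
-/

set_option autoImplicit false

open CategoryTheory Limits AlgebraicGeometry TopologicalSpace

namespace Pool.Agent.MP2b98ed

open Pool.Agent.MP77a250.St St Scheme.IdealSheafData

lemma mem_support_iInf {X : Scheme.{0}} {ι : Type} [Finite ι] (J : ι → X.IdealSheafData) {z : X}
    (hz : z ∈ (⨅ i, J i).support) : ∃ i, z ∈ (J i).support := by
  by_contra hcon
  push Not at hcon
  obtain ⟨_, ⟨U, hU, rfl⟩, hzU, -⟩ := X.isBasis_affineOpens.exists_subset_of_mem_open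
    (Set.mem_univ z) isOpen_univ
  have h1 : ∀ i, ∃ f ∈ (J i).ideal ⟨U, hU⟩, z ∈ X.basicOpen f := by
    intro i
    have := hcon i
    rw [mem_support_iff_of_mem (U := ⟨U, hU⟩) hzU, Scheme.mem_zeroLocus_iff] at this
    push Not at this
    exact this
  choose f hf hzf using h1
  classical
  have := Fintype.ofFinite ι
  rw [mem_support_iff_of_mem (U := ⟨U, hU⟩) hzU, Scheme.mem_zeroLocus_iff] at hz
  apply hz (∏ i, f i)
  · rw [ideal_iInf, iInf_apply, SetLike.mem_coe, Ideal.mem_iInf]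
    intro i
    rw [← Finset.mul_prod_erase _ _ (Finset.mem_univ i)]
    exact Ideal.mul_mem_right _ _ (hf i)
  · rw [X.mem_basicOpen _ _ hzU, map_prod]
    refine Finset.prod_induction _ IsUnit (fun _ _ => IsUnit.mul) isUnit_one fun i _ => ?_
    exact (X.mem_basicOpen _ _ hzU).mp (hzf i)

section pts

variable {n : ℕ} {F : Scheme.{0}} {s : F ⟶ SC} (H : Hirzebruch n s)

include H

lemma mem_support_pts {p : Fin 4 × Fin 2 → ℂ} {z : F} (hz : z ∈ (H.pointsIdeal p).support) :
    ∃ i, z ∈ Set.range (H.pt (p (i, 0)) (p (i, 1))) := by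
  obtain ⟨i, hi⟩ := mem_support_iInf _ hz
  refine ⟨i, ?_⟩
  have h1 := pt_closed H (p (i, 0)) (p (i, 1))
  have h2 := (SetLike.ext'_iff.mp (rfl : (H.pt (p (i, 0)) (p (i, 1))).ker.support = _)).trans
    (Scheme.Hom.support_ker (H.pt (p (i, 0)) (p (i, 1))))
  have h3 : z ∈ closure (Set.range (H.pt (p (i, 0)) (p (i, 1)))) := by
    rw [← h2]
    exact hi
  rwa [h1.isClosedEmbedding.isClosed_range.closure_eq] at h3

lemma support_chart0 {p : Fin 4 × Fin 2 → ℂ} {z : F} (hz : z ∈ (H.pointsIdeal p).support) :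
    z ∈ Set.range (H.chart 0) := by
  obtain ⟨i, x, rfl⟩ := mem_support_pts H hz
  exact ⟨planePt _ _ x, rfl⟩

end pts

lemma comap_eq_top {X Y : Scheme.{0}} (I : Y.IdealSheafData) (g : X ⟶ Y)
    (h : ∀ x, g x ∉ I.support) : I.comap g = ⊤ := by
  rw [← support_eq_bot_iff, support_comap]
  ext x
  simpa using h x

lemma inv_top {R : CommRingCat.{0}} [IsDomain R] : IsInvertibleIdeal (⊤ : (Spec R).IdealSheafData) :=
  inv_of_idl _ one_ne_zero (by rw [idl_top, Ideal.span_singleton_one])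

end Pool.Agent.MP2b98ed
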