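import Pool.Agent.MP2b98ed.Geo3

/-!
# The spectra of the local rings
-/

set_option autoImplicit false

open CategoryTheory Limits AlgebraicGeometry TopologicalSpace

namespace Pool.Agent.MP2b98ed

open Pool.Agent.MP77a250.St St Scheme.IdealSheafData

section

variable {X : Scheme.{0}} [IsIntegral X] (s : X ⟶ SC)

lemma stalkHom_injective (x : X) : Function.Injective (stalkHom s x) :=
  IsFractionRing.injective (X.presheaf.stalk x) X.functionField

/-- the local ring as a subalgebra -/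
noncomputable def stalkTo (x : X) : X.presheaf.stalk x →+* regAt s x :=
  (stalkHom s x).codRestrict (regAt s x) (fun a => ⟨a, rfl⟩)

lemma stalkTo_coe (x : X) (a : X.presheaf.stalk x) : (stalkTo s x a : KK s) = stalkHom s x a := rfl

lemma stalkTo_bijective (x : X) : Function.Bijective (stalkTo s x) := by
  constructor
  · intro a b h
    exact stalkHom_injective s x (congrArg Subtype.val h)
  · rintro ⟨_, a, rfl⟩
    exact ⟨a, rfl⟩

instance regAt_local (x : X) : IsLocalRing (regAt s x) :=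
  IsLocalRing.of_surjective' (stalkTo s x) (stalkTo_bijective s x).2

instance stalkTo_localHom (x : X) : IsLocalHom (stalkTo s x) := by
  constructor
  intro a ha
  obtain ⟨b, hb⟩ := ha.exists_right_inv
  obtain ⟨c, rfl⟩ := (stalkTo_bijective s x).2 b
  refine IsUnit.of_mul_eq_one c ((stalkTo_bijective s x).1 ?_)
  rw [map_mul, hb, map_one]

/-- the spectrum of the local ring -/
noncomputable def jx (x : X) : Spec (CommRingCat.of (regAt s x)) ⟶ X :=
  Spec.map (CommRingCat.ofHom (stalkTo s x)) ≫ X.fromSpecStalk x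

instance jx_mono (x : X) : Mono (jx s x) := by
  have : IsIso (CommRingCat.ofHom (stalkTo s x)) :=
    (ConcreteCategory.isIso_iff_bijective _).mpr (stalkTo_bijective s x)
  unfold jx
  infer_instance

lemma jx_closed (x : X) : jx s x (IsLocalRing.closedPoint (regAt s x)) = x := by
  unfold jx
  rw [Scheme.Hom.comp_apply]
  have h : Spec.map (CommRingCat.ofHom (stalkTo s x))
      (IsLocalRing.closedPoint (regAt s x)) = IsLocalRing.closedPoint (X.presheaf.stalk x) := by
    have : IsLocalHom (CommRingCat.ofHom (stalkTo s x)).hom := stalkTo_localHom s x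
    exact Spec_closedPoint
  rw [h]
  exact Scheme.fromSpecStalk_closedPoint

/-- the spectrum of the function field -/
noncomputable def jK : Spec (CommRingCat.of (KK s)) ⟶ X := X.fromSpecStalk (genericPoint X)

lemma map_jx (x : X) : Spec.map (CommRingCat.ofHom (regAt s x).val.toRingHom) ≫ jx s x = jK s := by
  unfold jx
  rw [← Category.assoc, ← Spec.map_comp]
  exact Scheme.SpecMap_stalkSpecializes_fromSpecStalk
    ((genericPoint_spec X).specializes (Set.mem_univ x))

lemma spec_str {A : CommRingCat.{0}} (g : Spec A ⟶ SC) : ∃ r : CommRingCat.of ℂ ⟶ A,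
    g = Spec.map r := ⟨Spec.preimage g, (Spec.map_preimage g).symm⟩

lemma fromSpecStalk_str' {X : Scheme.{0}} {R : CommRingCat.{0}} (s : X ⟶ Spec R) (x : X) :
    X.fromSpecStalk x ≫ s = Spec.map ((Scheme.ΓSpecIso R).inv ≫ s.appTop ≫
      X.presheaf.germ ⊤ x trivial) := by
  have h4 : s = X.toSpecΓ ≫ Spec.map s.appTop ≫ Spec.map (Scheme.ΓSpecIso R).inv := by
    rw [← Scheme.toSpecΓ_naturality_assoc, ← SpecMap_ΓSpecIso_hom, ← Spec.map_comp,
      Iso.inv_hom_id, Spec.map_id, Category.comp_id]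
  conv_lhs => rw [h4]
  rw [Scheme.fromSpecStalk_toSpecΓ_assoc, ← Spec.map_comp, ← Spec.map_comp, Category.assoc]

lemma jK_str : jK s ≫ s = Spec.map (CommRingCat.ofHom (algebraMap ℂ (KK s))) := by
  refine (fromSpecStalk_str' s (genericPoint X)).trans (congrArg Spec.map ?_)
  ext c
  show _ = constHom s c
  have h : s.appLE ⊤ ⊤ le_top = s.appTop := Scheme.Hom.appLE_eq_app s
  have : Nonempty (⊤ : X.Opens) := ⟨⟨genericPoint X, trivial⟩⟩
  have h2 : constHom s c = (X.germToFunctionField ⊤).hom ((s.appLE ⊤ ⊤ le_top).hom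
    ((Scheme.ΓSpecIso (CommRingCat.of ℂ)).inv.hom c)) := rfl
  rw [h2, h]
  rfl

lemma jx_str (x : X) : jx s x ≫ s = Spec.map (CommRingCat.ofHom (algebraMap ℂ (regAt s x))) := by
  obtain ⟨r, hr⟩ := spec_str (jx s x ≫ s)
  have h1 : Spec.map (CommRingCat.ofHom (regAt s x).val.toRingHom) ≫ jx s x ≫ s =
      Spec.map (CommRingCat.ofHom (algebraMap ℂ (KK s))) := by
    rw [← jK_str, ← map_jx s x, Category.assoc]
  rw [hr] at h1 ⊢
  have h2 : r ≫ CommRingCat.ofHom (regAt s x).val.toRingHom =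
      CommRingCat.ofHom (algebraMap ℂ (KK s)) :=
    Spec.map_injective ((Spec.map_comp _ _).trans h1)
  refine congrArg Spec.map ?_
  ext c
  have h3 := congrArg (fun g => g.hom c) h2
  exact h3

lemma appLE_fromSpecStalk {X : Scheme.{0}} {x : X} {U : X.Opens} (hxU : x ∈ U)
    (h : ⊤ ≤ (X.fromSpecStalk x) ⁻¹ᵁ U) : (X.fromSpecStalk x).appLE U ⊤ h =
      X.presheaf.germ U x hxU ≫ (Scheme.ΓSpecIso (X.presheaf.stalk x)).inv := by
  rw [Scheme.Hom.appLE, Scheme.fromSpecStalk_app hxU, Category.assoc, Category.assoc,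
    ← Functor.map_comp]
  have : (homOfLE le_top).op ≫ (homOfLE h).op = 𝟙 (Opposite.op (⊤ : (Spec (X.presheaf.stalk x)).Opens)) := rfl
  rw [this, CategoryTheory.Functor.map_id, Category.comp_id]

lemma fromSpecStalk_ne {X : Scheme.{0}} [IsIntegral X] {x : X} {U : X.Opens} (hxU : x ∈ U)
    (h : ⊤ ≤ (X.fromSpecStalk x) ⁻¹ᵁ U) {a : Γ(X, U)} (ha : a ≠ 0) :
    (X.fromSpecStalk x).appLE U ⊤ h a ≠ 0 := by
  intro h2
  rw [appLE_fromSpecStalk hxU h, CommRingCat.comp_apply] at h2
  have h5 := (map_eq_zero_iff _ (ConcreteCategory.bijective_of_isIso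
    (Scheme.ΓSpecIso (X.presheaf.stalk x)).inv).1).mp h2
  exact ha ((map_eq_zero_iff _ (germ_injective_of_isIntegral _ _ _)).mp h5)

lemma jx_pull_ne (x : X) {V : X.Opens} (hx : x ∈ V) (h : ⊤ ≤ jx s x ⁻¹ᵁ V) {a : Γ(X, V)}
    (ha : a ≠ 0) : (jx s x).appLE V ⊤ h a ≠ 0 := by
  intro h0
  have hξ : genericPoint X ∈ V := ((genericPoint_spec X).mem_open_set_iff V.2).mpr ⟨x, trivial, hx⟩
  have h1 : ⊤ ≤ jK s ⁻¹ᵁ V := by
    rw [← map_jx s x, Scheme.Hom.comp_preimage]
    intro z _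
    exact h trivial
  have h2 : (jK s).appLE V ⊤ h1 a = 0 := by
    have h3 : (jK s).appLE V ⊤ h1 = (jx s x).appLE V ⊤ h ≫
        (Spec.map (CommRingCat.ofHom (regAt s x).val.toRingHom)).appLE ⊤ ⊤ le_top := by
      rw [Scheme.Hom.appLE_comp_appLE]
      congr 1
      exact (map_jx s x).symm
    rw [h3, CommRingCat.comp_apply, h0, map_zero]
  exact fromSpecStalk_ne hξ h1 ha h2

lemma inv_jx_aux (x : X) {J : X.IdealSheafData} {V : X.Opens} (hV : IsAffineOpen V)
    (hxV : x ∈ V) {a : Γ(X, V)} (ha : a ∈ nonZeroDivisors Γ(X, V))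
    (hJ : J.ideal ⟨V, hV⟩ = Ideal.span {a}) : IsInvertibleIdeal (J.comap (jx s x)) := by
  have h : ⊤ ≤ jx s x ⁻¹ᵁ V := by
    have h1 : jx s x (IsLocalRing.closedPoint (regAt s x)) ∈ V := by rw [jx_closed]; exact hxV
    exact (IsLocalRing.closed_point_mem_iff.mp h1).ge
  have h2 := Pool.Agent.MP77a250.comap_ideal J (jx s x) ⟨V, hV⟩ ⟨⊤, isAffineOpen_top _⟩ h
  have hne : Nonempty V := ⟨⟨x, hxV⟩⟩
  have ha0 : a ≠ 0 := nonZeroDivisors.ne_zero ha
  have h4 := jx_pull_ne s x hxV h ha0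
  have h5 : (J.comap (jx s x)).ideal ⟨⊤, isAffineOpen_top _⟩ =
      Ideal.span {(jx s x).appLE V ⊤ h a} := by
    rw [h2, hJ, Ideal.map_span, Set.image_singleton]
    rfl
  have h6 := idl_of_eq _ _ h5
  refine inv_of_idl (R := CommRingCat.of (regAt s x)) _ ?_ h6
  intro h7
  exact h4 ((map_eq_zero_iff _ (ConcreteCategory.bijective_of_isIso (Scheme.ΓSpecIso
    (CommRingCat.of (regAt s x))).hom).1).mp h7)

lemma inv_jx (x : X) {J : X.IdealSheafData} (hJ : IsInvertibleIdeal J) :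
    IsInvertibleIdeal (J.comap (jx s x)) := by
  obtain ⟨⟨V, hV⟩, hxV, a, ha, hJa⟩ := hJ x
  exact inv_jx_aux s x hV hxV ha hJa

end

end Pool.Agent.MP2b98ed
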