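import Pool.Agent.MP2b98ed.Geo4

/-!
# Local rings of blow-ups
-/

set_option autoImplicit false

open CategoryTheory Limits AlgebraicGeometry TopologicalSpace

namespace Pool.Agent.MP2b98ed

open Pool.Agent.MP77a250.St St Scheme.IdealSheafData

section

variable {X : Scheme.{0}} [IsIntegral X] (s : X ⟶ SC)

lemma un_iff {x : X} {a : KK s} (ha : a ∈ regAt s x) : Un (regAt s x) a ↔
    IsUnit (⟨a, ha⟩ : regAt s x) := by
  constructor
  · rintro ⟨-, h0, hi⟩
    exact IsUnit.of_mul_eq_one ⟨a⁻¹, hi⟩ (Subtype.ext (mul_inv_cancel₀ h0))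
  · intro h
    obtain ⟨b, hb⟩ := h.exists_right_inv
    have h1 : a * (b : KK s) = 1 := congrArg Subtype.val hb
    have h0 : a ≠ 0 := left_ne_zero_of_mul_eq_one h1
    refine ⟨ha, h0, ?_⟩
    rw [← eq_inv_of_mul_eq_one_right h1]
    exact b.2

lemma loc_regAt (x : X) : Loc (regAt s x) := by
  intro a ha b hb hab
  have h : (⟨a, ha⟩ : regAt s x) + ⟨b, hb⟩ = 1 := Subtype.ext hab
  rcases IsLocalRing.isUnit_or_isUnit_of_add_one h with h1 | h1
  · left; exact (un_iff s ha).mpr h1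
  · right; exact (un_iff s hb).mpr h1

lemma exists_theta {X : Scheme.{0}} {R : CommRingCat.{0}} [IsLocalRing R] (ψ : Spec R ⟶ X) {x : X}
    (hx : ψ (IsLocalRing.closedPoint R) = x) : ∃ θ : X.presheaf.stalk x ⟶ R,
      Spec.map θ ≫ X.fromSpecStalk x = ψ := by
  subst hx
  exact ⟨Scheme.stalkClosedPointTo ψ, Scheme.Spec_stalkClosedPointTo_fromSpecStalk ψ⟩

variable {s}

theorem lemG {F : Scheme.{0}} {β : X ⟶ F} {I : F.IdealSheafData} (hβ : IsBlowUp β I) {x : X}
    {B : Subalgebra ℂ (KK s)} (hB : B ≤ regAt s x)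
    (hu : ∀ r ∈ B, Un (regAt s x) r → r⁻¹ ∈ B) (φ : Spec (CommRingCat.of B) ⟶ F)
    (hφ : Spec.map (CommRingCat.ofHom (Subalgebra.inclusion hB).toRingHom) ≫ φ = jx s x ≫ β)
    (hI : IsInvertibleIdeal (I.comap φ)) : regAt s x ≤ B := by
  obtain ⟨ψ, hψ, -⟩ := hβ.universal _ φ hI
  have hjI : IsInvertibleIdeal (I.comap (jx s x ≫ β)) := by
    rw [comap_comp]
    exact inv_jx s x hβ.invertible
  have h1 : Spec.map (CommRingCat.ofHom (Subalgebra.inclusion hB).toRingHom) ≫ ψ = jx s x :=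
    (hβ.universal _ (jx s x ≫ β) hjI).unique (by rw [Category.assoc, hψ, hφ]) rfl
  -- `B` is a local ring
  have hunit : ∀ b : B, IsUnit (Subalgebra.inclusion hB b) → IsUnit b := by
    intro b hb
    have h2 := (un_iff s (hB b.2)).mpr hb
    exact IsUnit.of_mul_eq_one ⟨_, hu b b.2 h2⟩ (Subtype.ext (mul_inv_cancel₀ h2.2.1))
  have hloc : IsLocalHom (Subalgebra.inclusion hB).toRingHom := ⟨fun b hb => hunit b hb⟩
  have hBloc : IsLocalRing B := RingHom.domain_isLocalRing (Subalgebra.inclusion hB).toRingHom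
  have hcl : ψ (IsLocalRing.closedPoint B) = x := by
    have h2 : Spec.map (CommRingCat.ofHom (Subalgebra.inclusion hB).toRingHom)
        (IsLocalRing.closedPoint (regAt s x)) = IsLocalRing.closedPoint B :=
      IsLocalRing.comap_closedPoint _
    rw [← h2, ← Scheme.Hom.comp_apply, h1]
    exact jx_closed s x
  obtain ⟨θ, hθ⟩ := exists_theta (R := CommRingCat.of B) ψ hcl
  have h3 : Spec.map (θ ≫ CommRingCat.ofHom (Subalgebra.inclusion hB).toRingHom) ≫
      X.fromSpecStalk x = Spec.map (CommRingCat.ofHom (stalkTo s x)) ≫ X.fromSpecStalk x := by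
    rw [Spec.map_comp, Category.assoc, hθ, h1]
    rfl
  have h4 := Spec.map_injective ((cancel_mono _).mp h3)
  intro a ha
  obtain ⟨c, hc⟩ := (stalkTo_bijective s x).2 ⟨a, ha⟩
  have h5 : ((θ ≫ CommRingCat.ofHom (Subalgebra.inclusion hB).toRingHom).hom c) =
      (CommRingCat.ofHom (stalkTo s x)).hom c := by rw [h4]
  have h6 : ((θ.hom c : B) : KK s) = a := by
    have := congrArg Subtype.val (h5.trans hc)
    exact this
  rw [← h6]
  exact (θ.hom c).2

end

end Pool.Agent.MP2b98ed
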