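import Pool.Agent.MP2b98ed.Geo5

/-!
# Coordinates
-/

set_option autoImplicit false

open CategoryTheory Limits AlgebraicGeometry TopologicalSpace

namespace Pool.Agent.MP2b98ed

open Pool.Agent.MP77a250.St St Scheme.IdealSheafData

lemma plane_hom {R : Type} [CommRing R] [Algebra ℂ R] (g : Spec (CommRingCat.of R) ⟶ Plane)
    (hg : g ≫ planeStr = Spec.map (CommRingCat.ofHom (algebraMap ℂ R))) :
    ∃ a b : R, g = planePt a b := by
  obtain ⟨r, hr⟩ : ∃ r : CommRingCat.of (MvPolynomial (Fin 2) ℂ) ⟶ CommRingCat.of R,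
      g = Spec.map r := ⟨Spec.preimage g, (Spec.map_preimage g).symm⟩
  subst hr
  have h1 : CommRingCat.ofHom (algebraMap ℂ (MvPolynomial (Fin 2) ℂ)) ≫ r =
      CommRingCat.ofHom (algebraMap ℂ R) := Spec.map_injective ((Spec.map_comp _ _).trans hg)
  have h2 : ∀ c : ℂ, r.hom (MvPolynomial.C c) = algebraMap ℂ R c := fun c =>
    congrArg (fun f => f.hom c) h1
  refine ⟨r.hom (MvPolynomial.X 0), r.hom (MvPolynomial.X 1), congrArg Spec.map ?_⟩
  let r' : MvPolynomial (Fin 2) ℂ →ₐ[ℂ] R := { r.hom with commutes' := h2 }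
  have h3 : r' = MvPolynomial.aeval ![r.hom (MvPolynomial.X 0), r.hom (MvPolynomial.X 1)] := by
    apply MvPolynomial.algHom_ext
    intro i
    fin_cases i
    · simp; rfl
    · simp; rfl
  have h4 : r = CommRingCat.ofHom r'.toRingHom := rfl
  exact h4.trans (congrArg (fun f : MvPolynomial (Fin 2) ℂ →ₐ[ℂ] R =>
    CommRingCat.ofHom f.toRingHom) h3)

lemma planePt_inj {R : Type} [CommRing R] [Algebra ℂ R] {a b a' b' : R}
    (h : planePt a b = planePt a' b') : a = a' ∧ b = b' := by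
  have h1 := Spec.map_injective h
  have h2 : ∀ P : MvPolynomial (Fin 2) ℂ, MvPolynomial.aeval ![a, b] P =
      MvPolynomial.aeval ![a', b'] P := fun P => congrArg (fun f => f.hom P) h1
  have h3 := h2 (MvPolynomial.X 0)
  have h4 := h2 (MvPolynomial.X 1)
  rw [MvPolynomial.aeval_X, MvPolynomial.aeval_X] at h3 h4
  exact ⟨h3, h4⟩

section

variable {n : ℕ} {F : Scheme.{0}} {sF : F ⟶ SC} (H : Hirzebruch n sF)
  {X : Scheme.{0}} [IsIntegral X] {β : X ⟶ F}

lemma jx_chart {x : X} {k : Fin 4} (hk : β x ∈ Set.range (H.chart k)) :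
    ∃ a b : regAt (β ≫ sF) x, jx (β ≫ sF) x ≫ β = planePt a b ≫ H.chart k := by
  have := H.open_immersion k
  have hr : Set.range (jx (β ≫ sF) x ≫ β) ⊆ Set.range (H.chart k) := by
    rintro _ ⟨z, rfl⟩
    have h1 : (jx (β ≫ sF) x ≫ β) z ⤳ (jx (β ≫ sF) x ≫ β)
        (IsLocalRing.closedPoint (regAt (β ≫ sF) x)) :=
      (IsLocalRing.specializes_closedPoint z).map (jx (β ≫ sF) x ≫ β).continuous
    have h2 : (jx (β ≫ sF) x ≫ β) (IsLocalRing.closedPoint (regAt (β ≫ sF) x)) ∈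
        (H.chart k).opensRange := by
      rw [Scheme.Hom.comp_apply, jx_closed]
      exact hk
    exact h1.mem_open (H.chart k).opensRange.2 h2
  obtain ⟨a, b, hab⟩ := plane_hom (R := regAt (β ≫ sF) x)
    (IsOpenImmersion.lift (H.chart k) (jx (β ≫ sF) x ≫ β) hr) (by
      rw [← H.chart_str k, ← Category.assoc, IsOpenImmersion.lift_fac, Category.assoc]
      exact jx_str _ x)
  exact ⟨a, b, by rw [← hab, IsOpenImmersion.lift_fac]⟩

lemma planePt_apply {R : Type} [CommRing R] [Algebra ℂ R] (a b : R)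
    (z : Spec (CommRingCat.of R)) (P : MvPolynomial (Fin 2) ℂ) :
    P ∈ (show PrimeSpectrum (MvPolynomial (Fin 2) ℂ) from planePt a b z).asIdeal ↔
      MvPolynomial.aeval ![a, b] P ∈ (show PrimeSpectrum R from z).asIdeal := Iff.rfl

/-- the generic point of the plane -/
noncomputable def etaP : Plane := (⊥ : PrimeSpectrum (MvPolynomial (Fin 2) ℂ))

lemma etaP_eq {R : Type} [Field R] [Algebra ℂ R] {a b : R} (h : AlgebraicIndependent ℂ ![a, b])
    (z : Spec (CommRingCat.of R)) : planePt a b z = etaP := by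
  refine PrimeSpectrum.ext (Ideal.ext fun P => ?_)
  rw [planePt_apply]
  have h1 : (show PrimeSpectrum R from z).asIdeal = ⊥ :=
    ((Ideal.eq_bot_or_top _).resolve_right (show PrimeSpectrum R from z).isPrime.ne_top)
  rw [h1]
  show _ ↔ P ∈ (⊥ : Ideal _)
  rw [Ideal.mem_bot, Ideal.mem_bot]
  exact ⟨fun h2 => algebraicIndependent_iff.mp h P h2, fun h2 => by rw [h2, map_zero]⟩

lemma ai_of_etaP {R : Type} [Field R] [Algebra ℂ R] {a b : R} {z : Spec (CommRingCat.of R)}
    (h : planePt a b z = etaP) : AlgebraicIndependent ℂ ![a, b] := by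
  rw [algebraicIndependent_iff]
  intro P hP
  have h1 : P ∈ (show PrimeSpectrum (MvPolynomial (Fin 2) ℂ) from planePt a b z).asIdeal := by
    rw [planePt_apply, hP]
    exact Ideal.zero_mem _
  rw [h] at h1
  exact h1

/-- rational functions in two variables -/
abbrev K2 : Type := FractionRing (MvPolynomial (Fin 2) ℂ)

lemma ai_K2 : AlgebraicIndependent ℂ
    ![algebraMap (MvPolynomial (Fin 2) ℂ) K2 (MvPolynomial.X 0),
      algebraMap (MvPolynomial (Fin 2) ℂ) K2 (MvPolynomial.X 1)] := by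
  rw [algebraicIndependent_iff]
  intro P hP
  have h1 : MvPolynomial.aeval (R := ℂ) ![algebraMap (MvPolynomial (Fin 2) ℂ) K2 (MvPolynomial.X 0),
      algebraMap (MvPolynomial (Fin 2) ℂ) K2 (MvPolynomial.X 1)] =
      IsScalarTower.toAlgHom ℂ (MvPolynomial (Fin 2) ℂ) K2 := by
    apply MvPolynomial.algHom_ext
    intro i
    fin_cases i <;> simp
  rw [h1] at hP
  exact (map_eq_zero_iff _ (IsFractionRing.injective (MvPolynomial (Fin 2) ℂ) K2)).mp hP

lemma etaP_not_support (p : Fin 4 × Fin 2 → ℂ) : H.chart 0 etaP ∉ (H.pointsIdeal p).support := by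
  intro h
  have := H.open_immersion 0
  obtain ⟨i, w, hw⟩ := mem_support_pts H h
  have h1 : H.chart 0 (planePt (p (i, 0)) (p (i, 1)) w) = H.chart 0 etaP := hw
  have h2 := (H.chart 0).isOpenEmbedding.injective h1
  have h3 : MvPolynomial.X 0 - MvPolynomial.C (p (i, 0)) ∈
      (show PrimeSpectrum (MvPolynomial (Fin 2) ℂ) from
        planePt (p (i, 0)) (p (i, 1)) w).asIdeal := by
    rw [planePt_apply]
    simp
  rw [h2] at h3
  have h4 : (MvPolynomial.X 0 - MvPolynomial.C (p (i, 0)) : MvPolynomial (Fin 2) ℂ) = 0 := h3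
  have h5 := congrArg (MvPolynomial.eval ![p (i, 0) + 1, 0]) h4
  simp at h5

lemma beta_gen {p : Fin 4 × Fin 2 → ℂ} (hβ : IsBlowUp β (H.pointsIdeal p)) :
    β (genericPoint X) = H.chart 0 etaP := by
  have := H.open_immersion 0
  let τ : Spec (CommRingCat.of K2) ⟶ F :=
    planePt (algebraMap (MvPolynomial (Fin 2) ℂ) K2 (MvPolynomial.X 0))
      (algebraMap (MvPolynomial (Fin 2) ℂ) K2 (MvPolynomial.X 1)) ≫ H.chart 0
  have hτ : ∀ z, τ z = H.chart 0 etaP := fun z => congrArg (H.chart 0) (etaP_eq ai_K2 z)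
  have htop : (H.pointsIdeal p).comap τ = ⊤ :=
    comap_eq_top _ _ fun z => by rw [hτ]; exact etaP_not_support H p
  obtain ⟨ψ, hψ, -⟩ := hβ.universal _ τ (by rw [htop]; exact inv_top)
  have z : Spec (CommRingCat.of K2) := IsLocalRing.closedPoint K2
  have h1 : genericPoint X ⤳ ψ z := (genericPoint_spec X).specializes (Set.mem_univ _)
  have h2 : β (genericPoint X) ⤳ H.chart 0 etaP := by
    have h3 := h1.map β.continuous
    rw [← Scheme.Hom.comp_apply, hψ, hτ] at h3
    exact h3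
  obtain ⟨w, hw⟩ : β (genericPoint X) ∈ (H.chart 0).opensRange :=
    h2.mem_open (H.chart 0).opensRange.2 ⟨etaP, rfl⟩
  rw [← hw] at h2 ⊢
  have h3 : w ⤳ etaP := (H.chart 0).isOpenEmbedding.isInducing.specializes_iff.mp h2
  have h4 : (show PrimeSpectrum (MvPolynomial (Fin 2) ℂ) from w) ≤ ⊥ :=
    (PrimeSpectrum.le_iff_specializes _ _).mpr h3
  have h5 : (show PrimeSpectrum (MvPolynomial (Fin 2) ℂ) from w) = ⊥ := le_bot_iff.mp h4
  have h6 : w = etaP := h5
  rw [h6]

/-- `t`, `y` are the coordinates on `X`. -/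
structure IsCoord (t y : KK (β ≫ sF)) : Prop where
  eq : jK (β ≫ sF) ≫ β = planePt t y ≫ H.chart 0
  ai : AlgebraicIndependent ℂ ![t, y]

lemma exists_isCoord {p : Fin 4 × Fin 2 → ℂ} (hβ : IsBlowUp β (H.pointsIdeal p)) :
    ∃ t y : KK (β ≫ sF), IsCoord H t y := by
  have := H.open_immersion 0
  obtain ⟨a, b, hab⟩ := jx_chart H (x := genericPoint X) (k := 0)
    ⟨etaP, (beta_gen H hβ).symm⟩
  have h1 : jK (β ≫ sF) ≫ β = planePt (a : KK (β ≫ sF)) (b : KK (β ≫ sF)) ≫ H.chart 0 := by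
    rw [← map_jx _ (genericPoint X), Category.assoc, hab, ← Category.assoc, map_planePt]
    rfl
  refine ⟨a, b, h1, ?_⟩
  have h2 : (jK (β ≫ sF) ≫ β) (IsLocalRing.closedPoint (KK (β ≫ sF))) = H.chart 0 etaP := by
    rw [← beta_gen H hβ, Scheme.Hom.comp_apply]
    exact congrArg β Scheme.fromSpecStalk_closedPoint
  rw [h1, Scheme.Hom.comp_apply] at h2
  exact ai_of_etaP ((H.chart 0).isOpenEmbedding.injective h2)

/-- the first coordinate in the `k`-th chart -/
def cA {K : Type} [Field K] (t : K) : Fin 4 → K := ![t, t, t⁻¹, t⁻¹]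

/-- the second coordinate in the `k`-th chart -/
def cB {K : Type} [Field K] (n : ℕ) (t y : K) : Fin 4 → K :=
  ![y, y⁻¹, t⁻¹ ^ n * y, (t⁻¹ ^ n * y)⁻¹]

lemma chart_K {K : Type} [Field K] [Algebra ℂ K] {t y : K} (ht : t ≠ 0) (hy : y ≠ 0)
    (k : Fin 4) : planePt (cA t k) (cB n t y k) ≫ H.chart k = planePt t y ≫ H.chart 0 := by
  have h01 := H.glue01 K t (Units.mk0 y hy)
  have h02 := H.glue02 K (Units.mk0 t ht) y
  have h13 := H.glue13 K (Units.mk0 t ht) y⁻¹
  simp only [Units.val_mk0, Units.val_inv_eq_inv_val] at h01 h02 h13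
  have e : (t⁻¹ ^ n * y)⁻¹ = t ^ n * y⁻¹ := by rw [mul_inv, inv_pow, inv_inv]
  rcases fin4 k with rfl | rfl | rfl | rfl
  · rfl
  · exact h01.symm
  · exact h02.symm
  · show planePt t⁻¹ (t⁻¹ ^ n * y)⁻¹ ≫ H.chart 3 = _
    rw [e, ← h13, ← h01]

variable {t y : KK (β ≫ sF)} (hc : IsCoord H t y)

include hc

lemma IsCoord.t0 : t ≠ 0 := by simpa using ai_fst hc.ai 0

lemma IsCoord.y0 : y ≠ 0 := by simpa using ai_snd hc.ai 0

lemma jK_chart (k : Fin 4) :
    jK (β ≫ sF) ≫ β = planePt (cA t k) (cB n t y k) ≫ H.chart k := by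
  rw [chart_K H (IsCoord.t0 H hc) (IsCoord.y0 H hc), hc.eq]

/-- At the points over the `k`-th chart, the coordinates of the chart are regular. -/
lemma coord_mem {x : X} {k : Fin 4} (hk : β x ∈ Set.range (H.chart k)) :
    ∃ (ha : cA t k ∈ regAt (β ≫ sF) x) (hb : cB n t y k ∈ regAt (β ≫ sF) x),
      jx (β ≫ sF) x ≫ β =
        planePt (R := regAt (β ≫ sF) x) ⟨cA t k, ha⟩ ⟨cB n t y k, hb⟩ ≫ H.chart k := by
  have := H.open_immersion k
  obtain ⟨a, b, hab⟩ := jx_chart H hk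
  have h1 : jK (β ≫ sF) ≫ β = planePt (a : KK (β ≫ sF)) (b : KK (β ≫ sF)) ≫ H.chart k := by
    rw [← map_jx _ x, Category.assoc, hab, ← Category.assoc, map_planePt]
    rfl
  rw [jK_chart H hc k] at h1
  obtain ⟨h2, h3⟩ := planePt_inj ((cancel_mono _).mp h1)
  have ha : cA t k ∈ regAt (β ≫ sF) x := by rw [h2]; exact a.2
  have hb : cB n t y k ∈ regAt (β ≫ sF) x := by rw [h3]; exact b.2
  refine ⟨ha, hb, ?_⟩
  have e1 : (⟨cA t k, ha⟩ : regAt (β ≫ sF) x) = a := Subtype.ext h2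
  have e2 : (⟨cB n t y k, hb⟩ : regAt (β ≫ sF) x) = b := Subtype.ext h3
  rw [e1, e2, hab]

lemma dominant_jx (x : X) :
    IsDominant (Spec.map (CommRingCat.ofHom (regAt (β ≫ sF) x).val.toRingHom)) := by
  constructor
  refine (PrimeSpectrum.denseRange_comap_iff_ker_le_nilRadical _).mpr ?_
  intro a ha
  have h1 : (a : KK (β ≫ sF)) = 0 := ha
  have h2 : a = 0 := Subtype.ext h1
  rw [h2]
  exact Ideal.zero_mem _

/-- If the coordinates of the `k`-th chart are regular at `x`, then `x` lies over the chart. -/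
lemma chart_of_mem {x : X} {k : Fin 4} (ha : cA t k ∈ regAt (β ≫ sF) x)
    (hb : cB n t y k ∈ regAt (β ≫ sF) x) : β x ∈ Set.range (H.chart k) := by
  have := H.separated
  have hdom := dominant_jx H hc x
  have hred : IsReduced (Spec (CommRingCat.of (regAt (β ≫ sF) x))) := by
    have : IsReduced (CommRingCat.of (regAt (β ≫ sF) x)) :=
      inferInstanceAs (IsReduced (regAt (β ≫ sF) x))
    infer_instance
  have h : jx (β ≫ sF) x ≫ β =
        planePt (R := regAt (β ≫ sF) x) ⟨cA t k, ha⟩ ⟨cB n t y k, hb⟩ ≫ H.chart k := by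
    refine ext_of_isDominant_of_isSeparated sF ?_
      (Spec.map (CommRingCat.ofHom (regAt (β ≫ sF) x).val.toRingHom)) ?_
    · rw [Category.assoc, Category.assoc, H.chart_str, planePt_str]
      exact jx_str _ x
    · rw [← Category.assoc, map_jx, jK_chart H hc k, ← Category.assoc, map_planePt]
      rfl
  have h1 : (jx (β ≫ sF) x ≫ β) (IsLocalRing.closedPoint (regAt (β ≫ sF) x)) = β x := by
    rw [Scheme.Hom.comp_apply, jx_closed]
  rw [← h1, h]
  exact ⟨_, rfl⟩

end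

end Pool.Agent.MP2b98ed
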