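import Pool.Agent.MP2b98ed.Filt

/-!
# Cancelling poles at infinity
-/

set_option autoImplicit false

open Polynomial

namespace Pool.Agent.MP2b98ed

variable {K A : Type} [Field K] [Algebra ℂ K] [CommRing A] [Algebra K A]

/-- polynomials in `1/t` -/
def Rs (t : K) : Subalgebra ℂ K := Algebra.adjoin ℂ {t⁻¹}

/-- Laurent polynomials in `t` -/
def RL (t : K) : Subalgebra ℂ K := Algebra.adjoin ℂ {t, t⁻¹}

lemma mem_RL_t (t : K) : t ∈ RL t := Algebra.subset_adjoin (by simp)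

lemma mem_RL_s (t : K) : t⁻¹ ∈ RL t := Algebra.subset_adjoin (by simp)

lemma mem_Rs_s (t : K) : t⁻¹ ∈ Rs t := Algebra.subset_adjoin (by simp)

lemma aeval_mem_of_mem {S : Subalgebra ℂ K} {a : K} (ha : a ∈ S) (p : ℂ[X]) : aeval a p ∈ S := by
  have h : aeval a p = (aeval (⟨a, ha⟩ : S) p : S) := by
    have := (Polynomial.aeval_algHom_apply S.val (⟨a, ha⟩ : S) p)
    simpa using this
  rw [h]
  exact Subtype.property _

lemma RL_form {t : K} (ht : t ≠ 0) {f : K} (hf : f ∈ RL t) :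
    ∃ (N : ℕ) (p : ℂ[X]), f = t ^ N * aeval t⁻¹ p := by
  induction hf using Algebra.adjoin_induction with
  | mem x hx =>
    rcases hx with rfl | hx
    · exact ⟨1, 1, by simp⟩
    · rw [Set.mem_singleton_iff] at hx
      exact ⟨0, X, by simp [hx]⟩
  | algebraMap c => exact ⟨0, C c, by simp⟩
  | add x y _ _ hx hy =>
    obtain ⟨N, p, rfl⟩ := hx
    obtain ⟨M, q, rfl⟩ := hy
    refine ⟨N + M, X ^ M * p + X ^ N * q, ?_⟩
    simp only [map_add, map_mul, map_pow, aeval_X]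
    have h1 : t ^ (N + M) * (t⁻¹ ^ M * aeval t⁻¹ p + t⁻¹ ^ N * aeval t⁻¹ q) =
        t ^ N * (t ^ M * t⁻¹ ^ M) * aeval t⁻¹ p + t ^ M * (t ^ N * t⁻¹ ^ N) * aeval t⁻¹ q := by
      ring
    rw [h1, ← mul_pow, ← mul_pow, mul_inv_cancel₀ ht]
    ring
  | mul x y _ _ hx hy =>
    obtain ⟨N, p, rfl⟩ := hx
    obtain ⟨M, q, rfl⟩ := hy
    refine ⟨N + M, p * q, ?_⟩
    rw [map_mul]
    ring

lemma pole_aux {t : K} (ht : t ≠ 0) (u : ℂ[X]) (hu : u.coeff 0 ≠ 0) (a : ℕ) (ha : a ≤ 1) (N : ℕ) :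
    ∀ p : ℂ[X], ∃ c r : ℂ[X],
      t ^ N * aeval t⁻¹ p - aeval t c * (t ^ (2 * a) * aeval t⁻¹ u) = t ^ 2 * aeval t⁻¹ r := by
  induction N with
  | zero =>
    intro p
    refine ⟨0, X ^ 2 * p, ?_⟩
    simp only [map_mul, map_pow, aeval_X, map_zero]
    have h1 : t ^ 2 * (t⁻¹ ^ 2 * aeval t⁻¹ p) = (t ^ 2 * t⁻¹ ^ 2) * aeval t⁻¹ p := by ring
    rw [h1, ← mul_pow, mul_inv_cancel₀ ht]
    ring
  | succ N ih =>
    intro p
    by_cases hN : N + 1 ≤ 2
    · refine ⟨0, X ^ (2 - (N + 1)) * p, ?_⟩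
      simp only [map_mul, map_pow, aeval_X, map_zero]
      have h1 : t ^ 2 = t ^ (N + 1) * t ^ (2 - (N + 1)) := by
        rw [← pow_add]
        congr 1
        omega
      have h2 : t ^ 2 * (t⁻¹ ^ (2 - (N + 1)) * aeval t⁻¹ p) =
          t ^ (N + 1) * (t ^ (2 - (N + 1)) * t⁻¹ ^ (2 - (N + 1))) * aeval t⁻¹ p := by
        rw [h1]
        ring
      rw [h2, ← mul_pow, mul_inv_cancel₀ ht]
      ring
    · -- cancel the leading pole
      set k : ℂ := p.coeff 0 / u.coeff 0 with hk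
      have hz : (p - C k * u).coeff 0 = 0 := by
        simp only [coeff_sub, coeff_C_mul, hk]
        field_simp
        ring
      obtain ⟨p', hp'⟩ := X_dvd_iff.mpr hz
      obtain ⟨c, r, hcr⟩ := ih p'
      refine ⟨C k * X ^ (N + 1 - 2 * a) + c, r, ?_⟩
      rw [← hcr]
      have h1 : aeval t⁻¹ p = t⁻¹ * aeval t⁻¹ p' + algebraMap ℂ K k * aeval t⁻¹ u := by
        have : p = X * p' + C k * u := by rw [← hp']; ring
        conv_lhs => rw [this]
        simp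
      have h2 : t ^ (N + 1) = t ^ (N + 1 - 2 * a) * t ^ (2 * a) := by
        rw [← pow_add]
        congr 1
        omega
      have h3 : t ^ (N + 1) * t⁻¹ = t ^ N := by
        rw [pow_succ, mul_assoc, mul_inv_cancel₀ ht, mul_one]
      simp only [map_add, map_mul, aeval_C, map_pow, aeval_X]
      rw [h1]
      have h4 : t ^ (N + 1) * (t⁻¹ * aeval t⁻¹ p' + algebraMap ℂ K k * aeval t⁻¹ u) =
          (t ^ (N + 1) * t⁻¹) * aeval t⁻¹ p' + t ^ (N + 1) * (algebraMap ℂ K k * aeval t⁻¹ u) := by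
        ring
      rw [h4, h3, h2]
      ring

/-- Every Laurent polynomial is a polynomial multiple of `ε` plus a function with a pole of order
at most two at infinity. -/
lemma pole {t : K} (ht : t ≠ 0) (u : ℂ[X]) (hu : u.coeff 0 ≠ 0) (a : ℕ) (ha : a ≤ 1) {f : K}
    (hf : f ∈ RL t) : ∃ c r : ℂ[X],
      f - aeval t c * (t ^ (2 * a) * aeval t⁻¹ u) = t ^ 2 * aeval t⁻¹ r := by
  obtain ⟨N, p, rfl⟩ := RL_form ht hf
  exact pole_aux ht u hu a ha N p

theorem cancel {t : K} (ht : t ≠ 0) {x y : A} {m : ℕ} (e : ℕ → A) (u : ℕ → ℂ[X]) (a : ℕ → ℕ)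
    (hu : ∀ i, (u i).coeff 0 ≠ 0) (ha : ∀ i, a i ≤ 1)
    (he : ∀ i ≤ m, Lead (RL t) x y m i (t ^ (2 * a i) * aeval t⁻¹ (u i)) (e i)) :
    ∀ i ≤ m + 1, ∀ Q ∈ WW (RL t) x y m i, ∃ c : ℕ → ℂ[X],
      (t⁻¹ ^ 2) • (Q - ∑ j ∈ Finset.range i, (aeval t (c j) : K) • e j) ∈ WW (Rs t) x y m i := by
  intro i
  induction i with
  | zero =>
    intro _ Q hQ
    refine ⟨fun _ => 0, ?_⟩
    have : Q = 0 := by
      have h : WW (RL t) x y m 0 = ⊥ := by
        unfold WW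
        rw [Submodule.span_eq_bot]
        rintro τ ⟨j, k, hj, -, -⟩
        exact absurd hj (by omega)
      rw [h] at hQ
      exact (Submodule.mem_bot _).mp hQ
    subst this
    simp
  | succ i ih =>
    intro hi Q hQ
    have hRt : ∀ c : ℂ[X], aeval t c ∈ RL t := fun c => aeval_mem_of_mem (mem_RL_t t) c
    obtain ⟨k, hk, hlead⟩ := he i (by omega)
    obtain ⟨f, hf, Q', hQ', rfl⟩ := WW.succ_decomp hk hQ
    obtain ⟨c, r, hcr⟩ := pole ht (u i) (hu i) (a i) (ha i) hf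
    set ε := t ^ (2 * a i) * aeval t⁻¹ (u i) with hε
    have hQ'' : Q' - (aeval t c : K) • (e i - ε • (x ^ i * y ^ k)) ∈ WW (RL t) x y m i :=
      Submodule.sub_mem _ hQ' (WW.smul (hRt c) hlead)
    obtain ⟨c', hc'⟩ := ih (by omega) _ hQ''
    refine ⟨Function.update c' i c, ?_⟩
    rw [Finset.sum_range_succ, Function.update_self]
    have hs : ∑ j ∈ Finset.range i, (aeval t (Function.update c' i c j) : K) • e j =
        ∑ j ∈ Finset.range i, (aeval t (c' j) : K) • e j := by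
      apply Finset.sum_congr rfl
      intro j hj
      rw [Function.update_of_ne (by have := Finset.mem_range.mp hj; omega)]
    rw [hs]
    have e1 : (t⁻¹ ^ 2) • (f • (x ^ i * y ^ k) + Q' -
        (∑ j ∈ Finset.range i, (aeval t (c' j) : K) • e j + (aeval t c : K) • e i)) =
        (t⁻¹ ^ 2 * (f - aeval t c * ε)) • (x ^ i * y ^ k) +
        (t⁻¹ ^ 2) • (Q' - (aeval t c : K) • (e i - ε • (x ^ i * y ^ k)) -
          ∑ j ∈ Finset.range i, (aeval t (c' j) : K) • e j) := by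
      simp only [Algebra.smul_def, map_mul, map_sub]
      ring
    rw [e1, hcr]
    have e2 : t⁻¹ ^ 2 * (t ^ 2 * aeval t⁻¹ r) = aeval t⁻¹ r := by
      rw [← mul_assoc, ← mul_pow, inv_mul_cancel₀ ht, one_pow, one_mul]
    rw [e2]
    exact Submodule.add_mem _ (WW.smul (aeval_mem_of_mem (mem_Rs_s t) r)
      (WW.gen (by omega) hk)) (WW.mono (Nat.le_succ i) hc')

end Pool.Agent.MP2b98ed
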