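import Pool.Agent.MP2b98ed.Big

/-!
# Two quadratic tensors on the blow-ups of `ℙ¹ × ℙ¹` at four points
-/

set_option autoImplicit false

open Polynomial

namespace Pool.Agent.MP2b98ed

variable {K : Type} [Field K] [Algebra ℂ K]

/-- congruence modulo `T` in `O`. -/
def Cg (O : Subalgebra ℂ K) (T x : K) (c : ℂ) : Prop := ∃ N ∈ O, x = algebraMap ℂ K c + T * N

section Cg

variable {O : Subalgebra ℂ K} {T x x' : K} {c c' : ℂ}

lemma Cg.const (c : ℂ) : Cg O T (algebraMap ℂ K c) c := ⟨0, O.zero_mem, by simp⟩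

lemma Cg.add (h : Cg O T x c) (h' : Cg O T x' c') : Cg O T (x + x') (c + c') := by
  obtain ⟨N, hN, rfl⟩ := h
  obtain ⟨N', hN', rfl⟩ := h'
  exact ⟨N + N', O.add_mem hN hN', by rw [map_add]; ring⟩

lemma Cg.sub (h : Cg O T x c) (h' : Cg O T x' c') : Cg O T (x - x') (c - c') := by
  obtain ⟨N, hN, rfl⟩ := h
  obtain ⟨N', hN', rfl⟩ := h'
  exact ⟨N - N', O.sub_mem hN hN', by rw [map_sub]; ring⟩

lemma Cg.mul (hT : T ∈ O) (h : Cg O T x c) (h' : Cg O T x' c') : Cg O T (x * x') (c * c') := by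
  obtain ⟨N, hN, rfl⟩ := h
  obtain ⟨N', hN', rfl⟩ := h'
  refine ⟨algebraMap ℂ K c * N' + algebraMap ℂ K c' * N + T * N * N', ?_, by rw [map_mul]; ring⟩
  have := O.algebraMap_mem c
  have := O.algebraMap_mem c'
  apply_rules [O.add_mem, O.mul_mem]

lemma Cg.sq (hT : T ∈ O) (h : Cg O T x c) : Cg O T (x ^ 2) (c ^ 2) := by
  rw [pow_two, pow_two]; exact h.mul hT h

end Cg

/-- `G(t)` -/
def GG {R : Type} [CommRing R] (t a0 a1 a2 a3 : R) : R :=
  (t - a0) * (t - a1) * (t - a2) * (t - a3)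

/-- `B(t, w)` -/
def BB {R : Type} [CommRing R] (t w a0 a1 a2 a3 b0 b1 b2 b3 r0 r1 r2 r3 : R) : R :=
  r0 * ((w - b1) * (w - b2) * (w - b3)) * (t - a0) ^ 2 +
  r1 * ((w - b0) * (w - b2) * (w - b3)) * (t - a1) ^ 2 +
  r2 * ((w - b0) * (w - b1) * (w - b3)) * (t - a2) ^ 2 +
  r3 * ((w - b0) * (w - b1) * (w - b2)) * (t - a3) ^ 2

/-- the expansion of `B` and `G` at the point `(α, β)` -/
def SP (O : Subalgebra ℂ K) (t w α β : K) (B G E : K) : Prop :=
  ∀ T ∈ O, (∃ N ∈ O, t - α = T * N) → (∃ N ∈ O, w - β = T * N) →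
    ∃ R ∈ O, ∃ Gi ∈ O, ∃ N ∈ O, B = R * (t - α) ^ 2 + (w - β) * (T * N + E * Gi) ∧
      G = (t - α) * Gi

lemma split_gen (O : Subalgebra ℂ K) {t w : K} (ht : t ∈ O) (hw : w ∈ O)
    (a0 a1 a2 a3 b0 b1 b2 b3 r0 r1 r2 r3 E : ℂ)
    (hId : r1 * (a0 - a1) ^ 2 * ((b0 - b2) * (b0 - b3)) +
      r2 * (a0 - a2) ^ 2 * ((b0 - b1) * (b0 - b3)) +
      r3 * (a0 - a3) ^ 2 * ((b0 - b1) * (b0 - b2)) =
      E * ((a0 - a1) * (a0 - a2) * (a0 - a3))) :
    SP O t w (algebraMap ℂ K a0) (algebraMap ℂ K b0)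
      (BB t w (algebraMap ℂ K a0) (algebraMap ℂ K a1) (algebraMap ℂ K a2) (algebraMap ℂ K a3)
        (algebraMap ℂ K b0) (algebraMap ℂ K b1) (algebraMap ℂ K b2) (algebraMap ℂ K b3)
        (algebraMap ℂ K r0) (algebraMap ℂ K r1) (algebraMap ℂ K r2) (algebraMap ℂ K r3))
      (GG t (algebraMap ℂ K a0) (algebraMap ℂ K a1) (algebraMap ℂ K a2) (algebraMap ℂ K a3))
      (algebraMap ℂ K E) := by
  rintro T hT ⟨N1, hN1, h1⟩ ⟨N2, hN2, h2⟩
  have hta : Cg O T t a0 := ⟨N1, hN1, by rw [← h1]; ring⟩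
  have hwb : Cg O T w b0 := ⟨N2, hN2, by rw [← h2]; ring⟩
  have ct : ∀ c : ℂ, Cg O T (t - algebraMap ℂ K c) (a0 - c) := fun c => hta.sub (Cg.const c)
  have cw : ∀ c : ℂ, Cg O T (w - algebraMap ℂ K c) (b0 - c) := fun c => hwb.sub (Cg.const c)
  have key : Cg O T
      (algebraMap ℂ K r1 * (t - algebraMap ℂ K a1) ^ 2 *
          ((w - algebraMap ℂ K b2) * (w - algebraMap ℂ K b3)) +
        algebraMap ℂ K r2 * (t - algebraMap ℂ K a2) ^ 2 *
          ((w - algebraMap ℂ K b1) * (w - algebraMap ℂ K b3)) +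
        algebraMap ℂ K r3 * (t - algebraMap ℂ K a3) ^ 2 *
          ((w - algebraMap ℂ K b1) * (w - algebraMap ℂ K b2)) -
        algebraMap ℂ K E * ((t - algebraMap ℂ K a1) * (t - algebraMap ℂ K a2) *
          (t - algebraMap ℂ K a3)))
      (r1 * (a0 - a1) ^ 2 * ((b0 - b2) * (b0 - b3)) +
      r2 * (a0 - a2) ^ 2 * ((b0 - b1) * (b0 - b3)) +
      r3 * (a0 - a3) ^ 2 * ((b0 - b1) * (b0 - b2)) -
      E * ((a0 - a1) * (a0 - a2) * (a0 - a3))) := by
    have := ct a1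
    have := ct a2
    have := ct a3
    have := cw b1
    have := cw b2
    have := cw b3
    have := Cg.const (O := O) (T := T) r1
    have := Cg.const (O := O) (T := T) r2
    have := Cg.const (O := O) (T := T) r3
    have := Cg.const (O := O) (T := T) E
    apply_rules [Cg.sub, Cg.add, Cg.mul, Cg.sq]
  rw [hId, sub_self] at key
  obtain ⟨N, hN, hkey⟩ := key
  rw [map_zero, zero_add] at hkey
  have m := O.algebraMap_mem
  refine ⟨algebraMap ℂ K r0 * ((w - algebraMap ℂ K b1) * (w - algebraMap ℂ K b2) *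
    (w - algebraMap ℂ K b3)), ?_, (t - algebraMap ℂ K a1) * (t - algebraMap ℂ K a2) *
    (t - algebraMap ℂ K a3), ?_, N, hN, ?_, ?_⟩
  · apply_rules [O.mul_mem, O.sub_mem]
  · apply_rules [O.mul_mem, O.sub_mem]
  · rw [← hkey]
    unfold BB
    ring
  · unfold GG
    ring

/-- the quadratic tensor -/
noncomputable def QQ (Et Ew : Derivation ℂ K K) (EG B : K) :
    SymmetricAlgebra K (Derivation ℂ K K) :=
  ii Et * (EG • ii Et + B • ii Ew)

lemma der_div_t {t w α β : K} (hα : ∀ D : Derivation ℂ K K, D α = 0)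
    (hβ : ∀ D : Derivation ℂ K K, D β = 0) (D : Derivation ℂ K K) (hne : t - α ≠ 0) :
    D ((w - β) / (t - α)) = (D w - (w - β) / (t - α) * D t) / (t - α) := by
  rw [div_eq_mul_inv, der_mul, der_inv, map_sub, map_sub, hα, hβ, sub_zero, sub_zero]
  field_simp
  ring

section types

variable {t w : K} {Et Ew : Derivation ℂ K K} (hc : Coord t w Et Ew) {O : Subalgebra ℂ K}

include hc

lemma typeW5 {α β : K} (hα : ∀ D : Derivation ℂ K K, D α = 0)
    (hβ : ∀ D : Derivation ℂ K K, D β = 0) (hαO : α ∈ O) (hβO : β ∈ O) (hne : t - α ≠ 0)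
    (hG : Gen O {t, (w - β) / (t - α)}) {B G E : K} (hE : E ∈ O)
    (hSP : t ∈ O → w ∈ O → SP O t w α β B G E) :
    t - α ∈ O ∧ (t - α) • ii Et ∈ Sy O 1 ∧ (t - α) • ii Ew ∈ Sy O 1 ∧
      QQ Et Ew (E * G) B ∈ Sy O 2 := by
  set u := (w - β) / (t - α) with hu
  have ht : t ∈ O := hG.1 (by simp)
  have huO : u ∈ O := hG.1 (by simp)
  have hT : t - α ∈ O := O.sub_mem ht hαO
  have hwu : w - β = (t - α) * u := by rw [hu, mul_div_cancel₀ _ hne]
  have hw : w ∈ O := by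
    have : w = (t - α) * u + β := by rw [← hwu]; ring
    rw [this]
    exact O.add_mem (O.mul_mem hT huO) hβO
  have hD : ∀ D : Derivation ℂ K K, D u = (D w - u * D t) / (t - α) :=
    fun D => der_div_t hα hβ D hne
  have h1 : Et + u • Ew ∈ TT O := by
    apply hG.mem_TT
    rintro x (rfl | rfl)
    · rw [Derivation.add_apply, Derivation.smul_apply, hc.tt, hc.yt, smul_zero, add_zero]
      exact O.one_mem
    · rw [Derivation.add_apply, Derivation.smul_apply, hD, hD, hc.tt, hc.yt, hc.ty, hc.yy,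
        smul_eq_mul]
      convert O.zero_mem using 1
      field_simp
      ring
  have h2 : (t - α) • Ew ∈ TT O := by
    apply hG.mem_TT
    rintro x (rfl | rfl)
    · rw [Derivation.smul_apply, hc.yt, smul_zero]
      exact O.zero_mem
    · rw [Derivation.smul_apply, hD, hc.yt, hc.yy, smul_eq_mul]
      convert O.one_mem using 1
      field_simp
      ring
  have h3 : (t - α) • Et ∈ TT O := by
    have e : (t - α) • Et = (t - α) • (Et + u • Ew) - u • ((t - α) • Ew) := by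
      rw [smul_add, smul_smul, smul_smul, mul_comm u]
      abel
    rw [e]
    exact TT.sub (TT.smul hT h1) (TT.smul huO h2)
  refine ⟨hT, ?_, ?_, ?_⟩
  · rw [← map_smul]; exact Sy.ii_mem h3
  · rw [← map_smul]; exact Sy.ii_mem h2
  · obtain ⟨R, hR, Gi, hGi, N, hN, hB, hGG⟩ := hSP ht hw (t - α) hT ⟨1, O.one_mem, by ring⟩
      ⟨u, huO, hwu⟩
    have e : QQ Et Ew (E * G) B = ii ((t - α) • Et) *
        ((E * Gi) • ii (Et + u • Ew) + (R + u * N) • ii ((t - α) • Ew)) := by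
      rw [QQ, hB, hGG, hwu]
      simp only [map_smul, map_add, Algebra.smul_def, map_mul, map_pow]
      ring
    rw [e]
    exact Sy.mul_mem' (Sy.ii_mem h3) (Submodule.add_mem _
      (Sy.smul_mem (O.mul_mem hE hGi) (Sy.ii_mem h1))
      (Sy.smul_mem (O.add_mem hR (O.mul_mem huO hN)) (Sy.ii_mem h2))) rfl

lemma typeW6 {α β : K} (hα : ∀ D : Derivation ℂ K K, D α = 0)
    (hβ : ∀ D : Derivation ℂ K K, D β = 0) (hαO : α ∈ O) (hβO : β ∈ O) (hne : w - β ≠ 0)
    (hG : Gen O {w, (t - α) / (w - β)}) {B G E : K} (hE : E ∈ O)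
    (hSP : t ∈ O → w ∈ O → SP O t w α β B G E) :
    w - β ∈ O ∧ (w - β) • ii Et ∈ Sy O 1 ∧ (w - β) • ii Ew ∈ Sy O 1 ∧
      QQ Et Ew (E * G) B ∈ Sy O 2 := by
  set z := (t - α) / (w - β) with hz
  have hw : w ∈ O := hG.1 (by simp)
  have hzO : z ∈ O := hG.1 (by simp)
  have hW : w - β ∈ O := O.sub_mem hw hβO
  have htz : t - α = (w - β) * z := by rw [hz, mul_div_cancel₀ _ hne]
  have ht : t ∈ O := by
    have : t = (w - β) * z + α := by rw [← htz]; ring
    rw [this]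
    exact O.add_mem (O.mul_mem hW hzO) hαO
  have hD : ∀ D : Derivation ℂ K K, D z = (D t - z * D w) / (w - β) :=
    fun D => der_div_t (t := w) (w := t) hβ hα D hne
  have h1 : Ew + z • Et ∈ TT O := by
    apply hG.mem_TT
    rintro x (rfl | rfl)
    · rw [Derivation.add_apply, Derivation.smul_apply, hc.yy, hc.ty, smul_zero, add_zero]
      exact O.one_mem
    · rw [Derivation.add_apply, Derivation.smul_apply, hD, hD, hc.tt, hc.yt, hc.ty, hc.yy,
        smul_eq_mul]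
      convert O.zero_mem using 1
      field_simp
      ring
  have h2 : (w - β) • Et ∈ TT O := by
    apply hG.mem_TT
    rintro x (rfl | rfl)
    · rw [Derivation.smul_apply, hc.ty, smul_zero]
      exact O.zero_mem
    · rw [Derivation.smul_apply, hD, hc.ty, hc.tt, smul_eq_mul]
      convert O.one_mem using 1
      field_simp
      ring
  have h3 : (w - β) • Ew ∈ TT O := by
    have e : (w - β) • Ew = (w - β) • (Ew + z • Et) - z • ((w - β) • Et) := by
      rw [smul_add, smul_smul, smul_smul, mul_comm z]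
      abel
    rw [e]
    exact TT.sub (TT.smul hW h1) (TT.smul hzO h2)
  refine ⟨hW, ?_, ?_, ?_⟩
  · rw [← map_smul]; exact Sy.ii_mem h2
  · rw [← map_smul]; exact Sy.ii_mem h3
  · obtain ⟨R, hR, Gi, hGi, N, hN, hB, hGG⟩ := hSP ht hw (w - β) hW ⟨z, hzO, htz⟩
      ⟨1, O.one_mem, by ring⟩
    have e : QQ Et Ew (E * G) B = ii ((w - β) • Et) *
        ((R * z ^ 2 * (w - β) + ((w - β) * N + E * Gi)) • ii (Ew + z • Et) -
          (z * (R * z ^ 2 + N)) • ii ((w - β) • Et)) := by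
      rw [QQ, hB, hGG, htz]
      simp only [map_smul, map_add, Algebra.smul_def, map_mul, map_pow]
      ring
    rw [e]
    refine Sy.mul_mem' (Sy.ii_mem h2) (Submodule.sub_mem _
      (Sy.smul_mem ?_ (Sy.ii_mem h1)) (Sy.smul_mem ?_ (Sy.ii_mem h2))) rfl
    · apply_rules [O.add_mem, O.mul_mem, O.pow_mem]
    · apply_rules [O.add_mem, O.mul_mem, O.pow_mem]

end types

end Pool.Agent.MP2b98ed
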