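import Pool.Agent.MP2b98ed.Small

/-!
# The quadratic tensors at the other points
-/

set_option autoImplicit false

open Polynomial

namespace Pool.Agent.MP2b98ed

section

variable {K : Type} [Field K]

lemma BB_mul (t w a0 a1 a2 a3 b0 b1 b2 b3 r0 r1 r2 r3 l : K) :
    BB t w a0 a1 a2 a3 b0 b1 b2 b3 r0 r1 r2 r3 * l ^ 2 =
      (r0 * ((t - a0) * l) ^ 2) * ((w - b1) * (w - b2) * (w - b3)) +
      (r1 * ((t - a1) * l) ^ 2) * ((w - b0) * (w - b2) * (w - b3)) +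
      (r2 * ((t - a2) * l) ^ 2) * ((w - b0) * (w - b1) * (w - b3)) +
      (r3 * ((t - a3) * l) ^ 2) * ((w - b0) * (w - b1) * (w - b2)) := by
  unfold BB
  ring

lemma sum_rel (t l a0 a1 a2 a3 r0 r1 r2 r3 : K) (h0 : r0 + r1 + r2 + r3 = 0)
    (h1 : r0 * a0 + r1 * a1 + r2 * a2 + r3 * a3 = 0)
    (h2 : r0 * a0 ^ 2 + r1 * a1 ^ 2 + r2 * a2 ^ 2 + r3 * a3 ^ 2 = 0) :
    (r0 * ((t - a0) * l) ^ 2) + (r1 * ((t - a1) * l) ^ 2) + (r2 * ((t - a2) * l) ^ 2) +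
      (r3 * ((t - a3) * l) ^ 2) = 0 := by
  linear_combination (t ^ 2 * l ^ 2) * h0 - (2 * t * l ^ 2) * h1 + l ^ 2 * h2

lemma hinf (w wi b0 b1 b2 b3 c0 c1 c2 c3 : K) (hw : w * wi = 1) (h : c0 + c1 + c2 + c3 = 0) :
    (c0 * ((w - b1) * (w - b2) * (w - b3)) + c1 * ((w - b0) * (w - b2) * (w - b3)) +
      c2 * ((w - b0) * (w - b1) * (w - b3)) + c3 * ((w - b0) * (w - b1) * (w - b2))) * wi ^ 2 =
    c0 * (-(b1 + b2 + b3) + (b1 * b2 + b1 * b3 + b2 * b3) * wi - b1 * b2 * b3 * wi ^ 2) +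
    c1 * (-(b0 + b2 + b3) + (b0 * b2 + b0 * b3 + b2 * b3) * wi - b0 * b2 * b3 * wi ^ 2) +
    c2 * (-(b0 + b1 + b3) + (b0 * b1 + b0 * b3 + b1 * b3) * wi - b0 * b1 * b3 * wi ^ 2) +
    c3 * (-(b0 + b1 + b2) + (b0 * b1 + b0 * b2 + b1 * b2) * wi - b0 * b1 * b2 * wi ^ 2) := by
  have h3 : w ^ 3 * wi ^ 2 = w := by
    have : w ^ 3 * wi ^ 2 = w * (w * wi) ^ 2 := by ring
    rw [this, hw]; ring
  have h2 : w ^ 2 * wi ^ 2 = 1 := by
    have : w ^ 2 * wi ^ 2 = (w * wi) ^ 2 := by ring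
    rw [this, hw]; ring
  have h1 : w * wi ^ 2 = wi := by
    have : w * wi ^ 2 = (w * wi) * wi := by ring
    rw [this, hw]; ring
  linear_combination (c0 + c1 + c2 + c3) * h3 -
    (c0 * (b1 + b2 + b3) + c1 * (b0 + b2 + b3) + c2 * (b0 + b1 + b3) + c3 * (b0 + b1 + b2)) * h2 +
    (c0 * (b1 * b2 + b1 * b3 + b2 * b3) + c1 * (b0 * b2 + b0 * b3 + b2 * b3) +
      c2 * (b0 * b1 + b0 * b3 + b1 * b3) + c3 * (b0 * b1 + b0 * b2 + b1 * b2)) * h1 + w * h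

lemma GG_mul (t s a0 a1 a2 a3 : K) (h : t * s = 1) :
    GG t a0 a1 a2 a3 * s ^ 4 = (1 - a0 * s) * (1 - a1 * s) * (1 - a2 * s) * (1 - a3 * s) := by
  have : GG t a0 a1 a2 a3 * s ^ 4 =
      (t * s - a0 * s) * (t * s - a1 * s) * (t * s - a2 * s) * (t * s - a3 * s) := by
    unfold GG; ring
  rw [this, h]

end

variable {K : Type} [Field K] [Algebra ℂ K]

section types

variable {t w : K} {Et Ew : Derivation ℂ K K} (hc : Coord t w Et Ew) {O : Subalgebra ℂ K}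
  {a0 a1 a2 a3 b0 b1 b2 b3 r0 r1 r2 r3 E : K}
  (ha0 : a0 ∈ O) (ha1 : a1 ∈ O) (ha2 : a2 ∈ O) (ha3 : a3 ∈ O)
  (hb0 : b0 ∈ O) (hb1 : b1 ∈ O) (hb2 : b2 ∈ O) (hb3 : b3 ∈ O)
  (hr0 : r0 ∈ O) (hr1 : r1 ∈ O) (hr2 : r2 ∈ O) (hr3 : r3 ∈ O) (hE : E ∈ O)
  (h0 : r0 + r1 + r2 + r3 = 0) (h1 : r0 * a0 + r1 * a1 + r2 * a2 + r3 * a3 = 0)
  (h2 : r0 * a0 ^ 2 + r1 * a1 ^ 2 + r2 * a2 ^ 2 + r3 * a3 ^ 2 = 0)

include hc ha0 ha1 ha2 ha3 hb0 hb1 hb2 hb3 hr0 hr1 hr2 hr3 hE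

lemma typeW1 (hG : Gen O {t, w}) :
    ii Et ∈ Sy O 1 ∧ ii Ew ∈ Sy O 1 ∧
      QQ Et Ew (E * GG t a0 a1 a2 a3) (BB t w a0 a1 a2 a3 b0 b1 b2 b3 r0 r1 r2 r3) ∈ Sy O 2 := by
  have ht : t ∈ O := hG.1 (by simp)
  have hw : w ∈ O := hG.1 (by simp)
  have hEt : Et ∈ TT O := by
    apply hG.mem_TT
    rintro x (rfl | rfl)
    · rw [hc.tt]; exact O.one_mem
    · rw [hc.ty]; exact O.zero_mem
  have hEw : Ew ∈ TT O := by
    apply hG.mem_TT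
    rintro x (rfl | rfl)
    · rw [hc.yt]; exact O.zero_mem
    · rw [hc.yy]; exact O.one_mem
  refine ⟨Sy.ii_mem hEt, Sy.ii_mem hEw, ?_⟩
  refine Sy.mul_mem' (Sy.ii_mem hEt) (Submodule.add_mem _ (Sy.smul_mem ?_ (Sy.ii_mem hEt))
    (Sy.smul_mem ?_ (Sy.ii_mem hEw))) rfl
  · unfold GG
    repeat' (first | assumption | apply O.add_mem | apply O.sub_mem | apply O.mul_mem |
        apply O.pow_mem | apply O.neg_mem)
  · unfold BB
    repeat' (first | assumption | apply O.add_mem | apply O.sub_mem | apply O.mul_mem |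
        apply O.pow_mem | apply O.neg_mem)

include h0 h1 h2

lemma typeW2 (hw0 : w ≠ 0) (hG : Gen O {t, w⁻¹}) :
    ii Et ∈ Sy O 1 ∧ ii Ew ∈ Sy O 1 ∧
      QQ Et Ew (E * GG t a0 a1 a2 a3) (BB t w a0 a1 a2 a3 b0 b1 b2 b3 r0 r1 r2 r3) ∈ Sy O 2 := by
  have ht : t ∈ O := hG.1 (by simp)
  have hwi : w⁻¹ ∈ O := hG.1 (by simp)
  have hEt : Et ∈ TT O := by
    apply hG.mem_TT
    rintro x (rfl | rfl)
    · rw [hc.tt]; exact O.one_mem
    · rw [der_inv, hc.ty, mul_zero, neg_zero]; exact O.zero_mem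
  have hD : -(w ^ 2 • Ew) ∈ TT O := by
    apply hG.mem_TT
    rintro x (rfl | rfl)
    · rw [Derivation.neg_apply, Derivation.smul_apply, hc.yt, smul_zero, neg_zero]
      exact O.zero_mem
    · rw [Derivation.neg_apply, Derivation.smul_apply, der_inv, hc.yy, smul_eq_mul]
      convert O.one_mem using 1
      field_simp
  have eEw : ii Ew = (-w⁻¹ ^ 2) • ii (-(w ^ 2 • Ew)) := by
    rw [map_neg, map_smul, smul_neg, smul_smul, neg_mul, ← mul_pow, inv_mul_cancel₀ hw0]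
    simp
  refine ⟨Sy.ii_mem hEt, ?_, ?_⟩
  · rw [eEw]
    exact Sy.smul_mem (O.neg_mem (O.pow_mem hwi 2)) (Sy.ii_mem hD)
  · have hB : BB t w a0 a1 a2 a3 b0 b1 b2 b3 r0 r1 r2 r3 * w⁻¹ ^ 2 ∈ O := by
      have e := BB_mul t w a0 a1 a2 a3 b0 b1 b2 b3 r0 r1 r2 r3 1
      rw [one_pow, mul_one] at e
      rw [e, hinf w w⁻¹ b0 b1 b2 b3 _ _ _ _ (mul_inv_cancel₀ hw0)
        (sum_rel t 1 a0 a1 a2 a3 r0 r1 r2 r3 h0 h1 h2)]
      have := O.one_mem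
      repeat' (first | assumption | apply O.add_mem | apply O.sub_mem | apply O.mul_mem |
        apply O.pow_mem | apply O.neg_mem)
    have e : QQ Et Ew (E * GG t a0 a1 a2 a3) (BB t w a0 a1 a2 a3 b0 b1 b2 b3 r0 r1 r2 r3) =
        ii Et * ((E * GG t a0 a1 a2 a3) • ii Et -
          (BB t w a0 a1 a2 a3 b0 b1 b2 b3 r0 r1 r2 r3 * w⁻¹ ^ 2) • ii (-(w ^ 2 • Ew))) := by
      rw [QQ, eEw, smul_smul, mul_neg, neg_smul, ← sub_eq_add_neg]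
    rw [e]
    refine Sy.mul_mem' (Sy.ii_mem hEt) (Submodule.sub_mem _ (Sy.smul_mem ?_ (Sy.ii_mem hEt))
      (Sy.smul_mem hB (Sy.ii_mem hD))) rfl
    unfold GG
    repeat' (first | assumption | apply O.add_mem | apply O.sub_mem | apply O.mul_mem |
        apply O.pow_mem | apply O.neg_mem)

omit h0 h1 h2 in
lemma typeW3 (ht0 : t ≠ 0) (hG : Gen O {t⁻¹, w}) :
    ii Et ∈ Sy O 1 ∧ ii Ew ∈ Sy O 1 ∧
      QQ Et Ew (E * GG t a0 a1 a2 a3) (BB t w a0 a1 a2 a3 b0 b1 b2 b3 r0 r1 r2 r3) ∈ Sy O 2 := by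
  have hs : t⁻¹ ∈ O := hG.1 (by simp)
  have hw : w ∈ O := hG.1 (by simp)
  have h1' := O.one_mem
  have hEw : Ew ∈ TT O := by
    apply hG.mem_TT
    rintro x (rfl | rfl)
    · rw [der_inv, hc.yt, mul_zero, neg_zero]; exact O.zero_mem
    · rw [hc.yy]; exact O.one_mem
  have hD : -(t ^ 2 • Et) ∈ TT O := by
    apply hG.mem_TT
    rintro x (rfl | rfl)
    · rw [Derivation.neg_apply, Derivation.smul_apply, der_inv, hc.tt, smul_eq_mul]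
      convert O.one_mem using 1
      field_simp
    · rw [Derivation.neg_apply, Derivation.smul_apply, hc.ty, smul_zero, neg_zero]
      exact O.zero_mem
  have eEt : ii Et = (-t⁻¹ ^ 2) • ii (-(t ^ 2 • Et)) := by
    rw [map_neg, map_smul, smul_neg, smul_smul, neg_mul, ← mul_pow, inv_mul_cancel₀ ht0]
    simp
  have hl : ∀ a ∈ O, (t - a) * t⁻¹ ∈ O := by
    intro a ha
    have : (t - a) * t⁻¹ = 1 - a * t⁻¹ := by field_simp
    rw [this]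
    exact O.sub_mem O.one_mem (O.mul_mem ha hs)
  have hl0 := hl a0 ha0
  have hl1 := hl a1 ha1
  have hl2 := hl a2 ha2
  have hl3 := hl a3 ha3
  refine ⟨?_, Sy.ii_mem hEw, ?_⟩
  · rw [eEt]
    exact Sy.smul_mem (O.neg_mem (O.pow_mem hs 2)) (Sy.ii_mem hD)
  · have e : QQ Et Ew (E * GG t a0 a1 a2 a3) (BB t w a0 a1 a2 a3 b0 b1 b2 b3 r0 r1 r2 r3) =
        ii (-(t ^ 2 • Et)) * ((E * (GG t a0 a1 a2 a3 * t⁻¹ ^ 4)) • ii (-(t ^ 2 • Et)) -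
          (BB t w a0 a1 a2 a3 b0 b1 b2 b3 r0 r1 r2 r3 * t⁻¹ ^ 2) • ii Ew) := by
      rw [QQ, eEt]
      simp only [Algebra.smul_def, map_mul, map_pow, map_neg]
      ring
    rw [e]
    refine Sy.mul_mem' (Sy.ii_mem hD) (Submodule.sub_mem _ (Sy.smul_mem ?_ (Sy.ii_mem hD))
      (Sy.smul_mem ?_ (Sy.ii_mem hEw))) rfl
    · rw [GG_mul t t⁻¹ a0 a1 a2 a3 (mul_inv_cancel₀ ht0)]
      repeat' (first | assumption | apply O.add_mem | apply O.sub_mem | apply O.mul_mem |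
        apply O.pow_mem | apply O.neg_mem)
    · rw [BB_mul]
      repeat' (first | assumption | apply O.add_mem | apply O.sub_mem | apply O.mul_mem |
        apply O.pow_mem | apply O.neg_mem)

lemma typeW4 (ht0 : t ≠ 0) (hw0 : w ≠ 0) (hG : Gen O {t⁻¹, w⁻¹}) :
    ii Et ∈ Sy O 1 ∧ ii Ew ∈ Sy O 1 ∧
      QQ Et Ew (E * GG t a0 a1 a2 a3) (BB t w a0 a1 a2 a3 b0 b1 b2 b3 r0 r1 r2 r3) ∈ Sy O 2 := by
  have hs : t⁻¹ ∈ O := hG.1 (by simp)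
  have hwi : w⁻¹ ∈ O := hG.1 (by simp)
  have h1' := O.one_mem
  have hDw : -(w ^ 2 • Ew) ∈ TT O := by
    apply hG.mem_TT
    rintro x (rfl | rfl)
    · rw [Derivation.neg_apply, Derivation.smul_apply, der_inv, hc.yt]
      simp
    · rw [Derivation.neg_apply, Derivation.smul_apply, der_inv, hc.yy, smul_eq_mul]
      convert O.one_mem using 1
      field_simp
  have hD : -(t ^ 2 • Et) ∈ TT O := by
    apply hG.mem_TT
    rintro x (rfl | rfl)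
    · rw [Derivation.neg_apply, Derivation.smul_apply, der_inv, hc.tt, smul_eq_mul]
      convert O.one_mem using 1
      field_simp
    · rw [Derivation.neg_apply, Derivation.smul_apply, der_inv, hc.ty]
      simp
  have eEw : ii Ew = (-w⁻¹ ^ 2) • ii (-(w ^ 2 • Ew)) := by
    rw [map_neg, map_smul, smul_neg, smul_smul, neg_mul, ← mul_pow, inv_mul_cancel₀ hw0]
    simp
  have eEt : ii Et = (-t⁻¹ ^ 2) • ii (-(t ^ 2 • Et)) := by
    rw [map_neg, map_smul, smul_neg, smul_smul, neg_mul, ← mul_pow, inv_mul_cancel₀ ht0]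
    simp
  have hl : ∀ a ∈ O, (t - a) * t⁻¹ ∈ O := by
    intro a ha
    have : (t - a) * t⁻¹ = 1 - a * t⁻¹ := by field_simp
    rw [this]
    exact O.sub_mem O.one_mem (O.mul_mem ha hs)
  have hl0 := hl a0 ha0
  have hl1 := hl a1 ha1
  have hl2 := hl a2 ha2
  have hl3 := hl a3 ha3
  refine ⟨?_, ?_, ?_⟩
  · rw [eEt]
    exact Sy.smul_mem (O.neg_mem (O.pow_mem hs 2)) (Sy.ii_mem hD)
  · rw [eEw]
    exact Sy.smul_mem (O.neg_mem (O.pow_mem hwi 2)) (Sy.ii_mem hDw)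
  · have e : QQ Et Ew (E * GG t a0 a1 a2 a3) (BB t w a0 a1 a2 a3 b0 b1 b2 b3 r0 r1 r2 r3) =
        ii (-(t ^ 2 • Et)) * ((E * (GG t a0 a1 a2 a3 * t⁻¹ ^ 4)) • ii (-(t ^ 2 • Et)) +
          (BB t w a0 a1 a2 a3 b0 b1 b2 b3 r0 r1 r2 r3 * t⁻¹ ^ 2 * w⁻¹ ^ 2) •
            ii (-(w ^ 2 • Ew))) := by
      rw [QQ, eEt, eEw]
      simp only [Algebra.smul_def, map_mul, map_pow, map_neg]
      ring
    rw [e]
    refine Sy.mul_mem' (Sy.ii_mem hD) (Submodule.add_mem _ (Sy.smul_mem ?_ (Sy.ii_mem hD))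
      (Sy.smul_mem ?_ (Sy.ii_mem hDw))) rfl
    · rw [GG_mul t t⁻¹ a0 a1 a2 a3 (mul_inv_cancel₀ ht0)]
      repeat' (first | assumption | apply O.add_mem | apply O.sub_mem | apply O.mul_mem |
        apply O.pow_mem | apply O.neg_mem)
    · rw [BB_mul, hinf w w⁻¹ b0 b1 b2 b3 _ _ _ _ (mul_inv_cancel₀ hw0)
        (sum_rel t t⁻¹ a0 a1 a2 a3 r0 r1 r2 r3 h0 h1 h2)]
      repeat' (first | assumption | apply O.add_mem | apply O.sub_mem | apply O.mul_mem |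
        apply O.pow_mem | apply O.neg_mem)

end types

end Pool.Agent.MP2b98ed
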