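import Pool.Agent.MP2b98ed.Small2

/-!
# Generation by the quadratic tensors
-/

set_option autoImplicit false

open Polynomial

namespace Pool.Agent.MP2b98ed

section fam

variable {K A : Type} [Field K] [Algebra ℂ K] [CommRing A] [Algebra K A] {O : Subalgebra ℂ K}

lemma osmul {M : Submodule O A} {c : K} (hc : c ∈ O) {x : A} (hx : x ∈ M) : c • x ∈ M :=
  M.smul_mem (⟨c, hc⟩ : O) hx

/-- products of powers of `q`, `q'` and of monomials of degree one or two in `x`, `y`. -/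
def Fam (q q' x y : A) (m : ℕ) : Set A :=
  {τ | ∃ a b j k, 2 * (a + b) + (j + k) = m ∧ 1 ≤ j + k ∧ j + k ≤ 2 ∧
    τ = q ^ a * q' ^ b * (x ^ j * y ^ k)}

lemma Fam.mul_left {q q' x y : A} {m : ℕ} {τ : A} (h : τ ∈ Submodule.span O (Fam q q' x y m)) :
    q * τ ∈ Submodule.span O (Fam q q' x y (m + 2)) := by
  induction h using Submodule.span_induction with
  | zero => rw [mul_zero]; exact Submodule.zero_mem _
  | add x y _ _ hx hy => rw [mul_add]; exact Submodule.add_mem _ hx hy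
  | smul c x _ hx => rw [mul_smul_comm]; exact Submodule.smul_mem _ _ hx
  | mem x hx =>
    obtain ⟨a, b, j, k, h1, h2, h3, rfl⟩ := hx
    exact Submodule.subset_span ⟨a + 1, b, j, k, by omega, h2, h3, by ring⟩

lemma Fam.mul_right {q q' x y : A} {m : ℕ} {τ : A} (h : τ ∈ Submodule.span O (Fam q q' x y m)) :
    q' * τ ∈ Submodule.span O (Fam q q' x y (m + 2)) := by
  induction h using Submodule.span_induction with
  | zero => rw [mul_zero]; exact Submodule.zero_mem _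
  | add x y _ _ hx hy => rw [mul_add]; exact Submodule.add_mem _ hx hy
  | smul c x _ hx => rw [mul_smul_comm]; exact Submodule.smul_mem _ _ hx
  | mem x hx =>
    obtain ⟨a, b, j, k, h1, h2, h3, rfl⟩ := hx
    exact Submodule.subset_span ⟨a, b + 1, j, k, by omega, h2, h3, by ring⟩

theorem fam_span {x y : A} {α β γ δ : K} (hα : α ≠ 0) (hδ : δ ≠ 0) (hΔ : α * δ - β * γ ≠ 0)
    (mα : α ∈ O) (mβ : β ∈ O) (mγ : γ ∈ O) (mδ : δ ∈ O) (mα' : α⁻¹ ∈ O) (mδ' : δ⁻¹ ∈ O)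
    (mΔ : (α * δ - β * γ)⁻¹ ∈ O) :
    ∀ m, 1 ≤ m → ∀ j k, j + k = m → x ^ j * y ^ k ∈
      Submodule.span O (Fam (x * (α • x + β • y)) (y * (δ • y + γ • x)) x y m) := by
  intro m
  induction m using Nat.strong_induction_on with
  | _ m ih =>
    intro hm j k hjk
    set q := x * (α • x + β • y) with hq
    set q' := y * (δ • y + γ • x) with hq'
    rcases Nat.lt_or_ge 2 m with hm3 | hm2
    swap
    · exact Submodule.subset_span ⟨0, 0, j, k, by omega, by omega, by omega, by simp⟩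
    obtain ⟨n, rfl⟩ : ∃ n, m = n + 2 := ⟨m - 2, by omega⟩
    have ihn := ih n (by omega) (by omega)
    -- `x^(j+1) y^k` times `q`, for `j + 1 + k = n`
    have L : ∀ j k, j + k = n → q * (x ^ j * y ^ k) ∈ Submodule.span O (Fam q q' x y (n + 2)) :=
      fun j k h => Fam.mul_left (ihn j k h)
    have R : ∀ j k, j + k = n → q' * (x ^ j * y ^ k) ∈ Submodule.span O (Fam q q' x y (n + 2)) :=
      fun j k h => Fam.mul_right (ihn j k h)
    -- two mixed monomials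
    have M1 : ∀ j k, j + k + 1 = n → x ^ (j + 2) * y ^ (k + 1) ∈
        Submodule.span O (Fam q q' x y (n + 2)) := by
      intro j k h
      have e : x ^ (j + 2) * y ^ (k + 1) = (α * δ - β * γ)⁻¹ •
          (δ • (q * (x ^ j * y ^ (k + 1))) - β • (q' * (x ^ (j + 1) * y ^ k))) := by
        have : (δ • (q * (x ^ j * y ^ (k + 1))) - β • (q' * (x ^ (j + 1) * y ^ k))) =
            (α * δ - β * γ) • (x ^ (j + 2) * y ^ (k + 1)) := by
          rw [hq, hq']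
          simp only [Algebra.smul_def, map_mul, map_sub]
          ring
        rw [this, smul_smul, inv_mul_cancel₀ hΔ, one_smul]
      rw [e]
      exact osmul mΔ (Submodule.sub_mem _
        (osmul mδ (L j (k + 1) (by omega)))
        (osmul mβ (R (j + 1) k (by omega))))
    have M2 : ∀ j k, j + k + 1 = n → x ^ (j + 1) * y ^ (k + 2) ∈
        Submodule.span O (Fam q q' x y (n + 2)) := by
      intro j k h
      have e : x ^ (j + 1) * y ^ (k + 2) = (α * δ - β * γ)⁻¹ •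
          (α • (q' * (x ^ (j + 1) * y ^ k)) - γ • (q * (x ^ j * y ^ (k + 1)))) := by
        have : (α • (q' * (x ^ (j + 1) * y ^ k)) - γ • (q * (x ^ j * y ^ (k + 1)))) =
            (α * δ - β * γ) • (x ^ (j + 1) * y ^ (k + 2)) := by
          rw [hq, hq']
          simp only [Algebra.smul_def, map_mul, map_sub]
          ring
        rw [this, smul_smul, inv_mul_cancel₀ hΔ, one_smul]
      rw [e]
      exact osmul mΔ (Submodule.sub_mem _
        (osmul mα (R (j + 1) k (by omega)))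
        (osmul mγ (L j (k + 1) (by omega))))
    rcases j with _ | j
    · -- `y^k`, `k ≥ 3`
      obtain ⟨l, rfl⟩ : ∃ l, k = l + 3 := ⟨k - 3, by omega⟩
      have e : x ^ 0 * y ^ (l + 3) = δ⁻¹ • (q' * (x ^ 0 * y ^ (l + 1)) -
          γ • (x ^ (0 + 1) * y ^ (l + 2))) := by
        have : q' * (x ^ 0 * y ^ (l + 1)) - γ • (x ^ (0 + 1) * y ^ (l + 2)) =
            δ • (x ^ 0 * y ^ (l + 3)) := by
          rw [hq']
          simp only [Algebra.smul_def]
          ring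
        rw [this, smul_smul, inv_mul_cancel₀ hδ, one_smul]
      rw [e]
      exact osmul mδ' (Submodule.sub_mem _ (R 0 (l + 1) (by omega))
        (osmul mγ (M2 0 l (by omega))))
    rcases k with _ | k
    · obtain ⟨l, rfl⟩ : ∃ l, j = l + 2 := ⟨j - 2, by omega⟩
      have e : x ^ (l + 2 + 1) * y ^ 0 = α⁻¹ • (q * (x ^ (l + 1) * y ^ 0) -
          β • (x ^ (l + 2) * y ^ (0 + 1))) := by
        have : q * (x ^ (l + 1) * y ^ 0) - β • (x ^ (l + 2) * y ^ (0 + 1)) =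
            α • (x ^ (l + 2 + 1) * y ^ 0) := by
          rw [hq]
          simp only [Algebra.smul_def]
          ring
        rw [this, smul_smul, inv_mul_cancel₀ hα, one_smul]
      rw [e]
      exact osmul mα' (Submodule.sub_mem _ (L (l + 1) 0 (by omega))
        (osmul mβ (M1 l 0 (by omega))))
    rcases j with _ | j
    · obtain ⟨l, rfl⟩ : ∃ l, k = l + 1 := ⟨k - 1, by omega⟩
      exact M2 0 l (by omega)
    · exact M1 j k (by omega)

end fam

/-- the coefficients `ρ` -/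
def rr (a : Fin 4 → ℂ) : Fin 4 → ℂ := ![(a 1 - a 2) * (a 1 - a 3) * (a 2 - a 3),
  -((a 0 - a 2) * (a 0 - a 3) * (a 2 - a 3)), (a 0 - a 1) * (a 0 - a 3) * (a 1 - a 3),
  -((a 0 - a 1) * (a 0 - a 2) * (a 1 - a 2))]

/-- the constant `E` -/
def Ec (a b : Fin 4 → ℂ) : ℂ :=
  (a 0 - a 3) * (a 1 - a 2) * ((b 0 - b 1) * (b 2 - b 3)) -
    (a 0 - a 1) * (a 2 - a 3) * ((b 0 - b 3) * (b 1 - b 2))

variable {K : Type} [Field K] [Algebra ℂ K]

/-- `G(t)` in `K` -/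
noncomputable def Gk (t : K) (a : Fin 4 → ℂ) : K :=
  GG t (algebraMap ℂ K (a 0)) (algebraMap ℂ K (a 1)) (algebraMap ℂ K (a 2)) (algebraMap ℂ K (a 3))

/-- `B(t, w)` in `K` -/
noncomputable def Bk (t w : K) (a b : Fin 4 → ℂ) : K :=
  BB t w (algebraMap ℂ K (a 0)) (algebraMap ℂ K (a 1)) (algebraMap ℂ K (a 2)) (algebraMap ℂ K (a 3))
    (algebraMap ℂ K (b 0)) (algebraMap ℂ K (b 1)) (algebraMap ℂ K (b 2)) (algebraMap ℂ K (b 3))
    (algebraMap ℂ K (rr a 0)) (algebraMap ℂ K (rr a 1)) (algebraMap ℂ K (rr a 2))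
    (algebraMap ℂ K (rr a 3))

/-- the quadratic tensor of the configuration -/
noncomputable def qk (t w : K) (Et Ew : Derivation ℂ K K) (a b : Fin 4 → ℂ) :
    SymmetricAlgebra K (Derivation ℂ K K) :=
  QQ Et Ew (algebraMap ℂ K (Ec a b) * Gk t a) (Bk t w a b)

lemma SP_all (O : Subalgebra ℂ K) {t w : K} (a b : Fin 4 → ℂ) (ht : t ∈ O) (hw : w ∈ O)
    (i : Fin 4) : SP O t w (algebraMap ℂ K (a i)) (algebraMap ℂ K (b i)) (Bk t w a b) (Gk t a)
      (algebraMap ℂ K (Ec a b)) := by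
  have e1 : Bk t w a b = BB t w (algebraMap ℂ K (a 1)) (algebraMap ℂ K (a 0))
      (algebraMap ℂ K (a 2)) (algebraMap ℂ K (a 3)) (algebraMap ℂ K (b 1)) (algebraMap ℂ K (b 0))
      (algebraMap ℂ K (b 2)) (algebraMap ℂ K (b 3)) (algebraMap ℂ K (rr a 1))
      (algebraMap ℂ K (rr a 0)) (algebraMap ℂ K (rr a 2)) (algebraMap ℂ K (rr a 3)) := by
    unfold Bk BB; ring
  have g1 : Gk t a = GG t (algebraMap ℂ K (a 1)) (algebraMap ℂ K (a 0))
      (algebraMap ℂ K (a 2)) (algebraMap ℂ K (a 3)) := by unfold Gk GG; ring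
  have e2 : Bk t w a b = BB t w (algebraMap ℂ K (a 2)) (algebraMap ℂ K (a 0))
      (algebraMap ℂ K (a 1)) (algebraMap ℂ K (a 3)) (algebraMap ℂ K (b 2)) (algebraMap ℂ K (b 0))
      (algebraMap ℂ K (b 1)) (algebraMap ℂ K (b 3)) (algebraMap ℂ K (rr a 2))
      (algebraMap ℂ K (rr a 0)) (algebraMap ℂ K (rr a 1)) (algebraMap ℂ K (rr a 3)) := by
    unfold Bk BB; ring
  have g2 : Gk t a = GG t (algebraMap ℂ K (a 2)) (algebraMap ℂ K (a 0))
      (algebraMap ℂ K (a 1)) (algebraMap ℂ K (a 3)) := by unfold Gk GG; ring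
  have e3 : Bk t w a b = BB t w (algebraMap ℂ K (a 3)) (algebraMap ℂ K (a 0))
      (algebraMap ℂ K (a 1)) (algebraMap ℂ K (a 2)) (algebraMap ℂ K (b 3)) (algebraMap ℂ K (b 0))
      (algebraMap ℂ K (b 1)) (algebraMap ℂ K (b 2)) (algebraMap ℂ K (rr a 3))
      (algebraMap ℂ K (rr a 0)) (algebraMap ℂ K (rr a 1)) (algebraMap ℂ K (rr a 2)) := by
    unfold Bk BB; ring
  have g3 : Gk t a = GG t (algebraMap ℂ K (a 3)) (algebraMap ℂ K (a 0))
      (algebraMap ℂ K (a 1)) (algebraMap ℂ K (a 2)) := by unfold Gk GG; ring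
  have H : ∀ i, i = 0 ∨ i = 1 ∨ i = 2 ∨ i = (3 : Fin 4) := by decide
  rcases H i with rfl | rfl | rfl | rfl
  · exact split_gen O ht hw (a 0) (a 1) (a 2) (a 3) (b 0) (b 1) (b 2) (b 3) (rr a 0) (rr a 1)
      (rr a 2) (rr a 3) (Ec a b) (by simp [rr, Ec]; ring)
  · rw [e1, g1]
    exact split_gen O ht hw (a 1) (a 0) (a 2) (a 3) (b 1) (b 0) (b 2) (b 3) (rr a 1) (rr a 0)
      (rr a 2) (rr a 3) (Ec a b) (by simp [rr, Ec]; ring)
  · rw [e2, g2]
    exact split_gen O ht hw (a 2) (a 0) (a 1) (a 3) (b 2) (b 0) (b 1) (b 3) (rr a 2) (rr a 0)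
      (rr a 1) (rr a 3) (Ec a b) (by simp [rr, Ec]; ring)
  · rw [e3, g3]
    exact split_gen O ht hw (a 3) (a 0) (a 1) (a 2) (b 3) (b 0) (b 1) (b 2) (rr a 3) (rr a 0)
      (rr a 1) (rr a 2) (Ec a b) (by simp [rr, Ec]; ring)

/-- the local rings of the blow-up of `ℙ¹ × ℙ¹` at the points `(a i, b i)`. -/
def WT (O : Subalgebra ℂ K) (t w : K) (a b : Fin 4 → ℂ) : Prop :=
  Gen O {t, w} ∨ Gen O {t, w⁻¹} ∨ Gen O {t⁻¹, w} ∨ Gen O {t⁻¹, w⁻¹} ∨
  (∃ i, Gen O {t, (w - algebraMap ℂ K (b i)) / (t - algebraMap ℂ K (a i))}) ∨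
  (∃ i, Gen O {w, (t - algebraMap ℂ K (a i)) / (w - algebraMap ℂ K (b i))})

lemma WT.symm {O : Subalgebra ℂ K} {t w : K} {a b : Fin 4 → ℂ} (h : WT O t w a b) :
    WT O w t b a := by
  rcases h with h | h | h | h | h | h
  · left; rwa [Set.pair_comm]
  · right; right; left; rwa [Set.pair_comm]
  · right; left; rwa [Set.pair_comm]
  · right; right; right; left; rwa [Set.pair_comm]
  · right; right; right; right; right; exact h
  · right; right; right; right; left; exact h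

lemma rr_rel (a : Fin 4 → ℂ) : rr a 0 + rr a 1 + rr a 2 + rr a 3 = 0 ∧
    rr a 0 * a 0 + rr a 1 * a 1 + rr a 2 * a 2 + rr a 3 * a 3 = 0 ∧
    rr a 0 * a 0 ^ 2 + rr a 1 * a 1 ^ 2 + rr a 2 * a 2 ^ 2 + rr a 3 * a 3 ^ 2 = 0 := by
  refine ⟨?_, ?_, ?_⟩ <;> simp [rr] <;> ring

theorem qk_mem {O : Subalgebra ℂ K} {t w : K} {Et Ew : Derivation ℂ K K} (hc : Coord t w Et Ew)
    {a b : Fin 4 → ℂ} (ht : ∀ c : ℂ, t ≠ algebraMap ℂ K c) (hw : ∀ c : ℂ, w ≠ algebraMap ℂ K c)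
    (h : WT O t w a b) :
    ∃ h ∈ O, (h = 1 ∨ (∃ i, h = t - algebraMap ℂ K (a i)) ∨
      (∃ i, h = w - algebraMap ℂ K (b i))) ∧ h • ii Et ∈ Sy O 1 ∧ h • ii Ew ∈ Sy O 1 ∧
      qk t w Et Ew a b ∈ Sy O 2 := by
  have m := O.algebraMap_mem
  have ht0 : t ≠ 0 := by simpa using ht 0
  have hw0 : w ≠ 0 := by simpa using hw 0
  obtain ⟨r0, r1, r2⟩ := rr_rel a
  have R0 := congrArg (algebraMap ℂ K) r0
  have R1 := congrArg (algebraMap ℂ K) r1
  have R2 := congrArg (algebraMap ℂ K) r2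
  simp only [map_add, map_mul, map_pow, map_zero] at R0 R1 R2
  rcases h with h | h | h | h | ⟨i, h⟩ | ⟨i, h⟩
  · obtain ⟨h1, h2, h3⟩ := typeW1 hc (m _) (m _) (m _) (m _) (m (b 0)) (m (b 1)) (m (b 2)) (m (b 3))
      (m (rr a 0)) (m (rr a 1)) (m (rr a 2)) (m (rr a 3)) (m (Ec a b)) h
    exact ⟨1, O.one_mem, Or.inl rfl, by rwa [one_smul], by rwa [one_smul], h3⟩
  · obtain ⟨h1, h2, h3⟩ := typeW2 hc (m _) (m _) (m _) (m _) (m (b 0)) (m (b 1)) (m (b 2)) (m (b 3))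
      (m (rr a 0)) (m (rr a 1)) (m (rr a 2)) (m (rr a 3)) (m (Ec a b)) R0 R1 R2 hw0 h
    exact ⟨1, O.one_mem, Or.inl rfl, by rwa [one_smul], by rwa [one_smul], h3⟩
  · obtain ⟨h1, h2, h3⟩ := typeW3 hc (m _) (m _) (m _) (m _) (m (b 0)) (m (b 1)) (m (b 2)) (m (b 3))
      (m (rr a 0)) (m (rr a 1)) (m (rr a 2)) (m (rr a 3)) (m (Ec a b)) ht0 h
    exact ⟨1, O.one_mem, Or.inl rfl, by rwa [one_smul], by rwa [one_smul], h3⟩
  · obtain ⟨h1, h2, h3⟩ := typeW4 hc (m _) (m _) (m _) (m _) (m (b 0)) (m (b 1)) (m (b 2)) (m (b 3))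
      (m (rr a 0)) (m (rr a 1)) (m (rr a 2)) (m (rr a 3)) (m (Ec a b)) R0 R1 R2 ht0 hw0 h
    exact ⟨1, O.one_mem, Or.inl rfl, by rwa [one_smul], by rwa [one_smul], h3⟩
  · obtain ⟨h1, h2, h3, h4⟩ := typeW5 hc (fun D => D.map_algebraMap _) (fun D => D.map_algebraMap _)
      (m (a i)) (m (b i)) (sub_ne_zero.mpr (ht _)) h (m (Ec a b))
      (fun h h' => SP_all O a b h h' i)
    exact ⟨_, h1, Or.inr (Or.inl ⟨i, rfl⟩), h2, h3, h4⟩
  · obtain ⟨h1, h2, h3, h4⟩ := typeW6 hc (fun D => D.map_algebraMap _) (fun D => D.map_algebraMap _)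
      (m (a i)) (m (b i)) (sub_ne_zero.mpr (hw _)) h (m (Ec a b))
      (fun h h' => SP_all O a b h h' i)
    exact ⟨_, h1, Or.inr (Or.inr ⟨i, rfl⟩), h2, h3, h4⟩

end Pool.Agent.MP2b98ed
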