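import Pool.Agent.MP2b98ed.Conv

/-!
# The sections for `n ≤ 2`
-/

set_option autoImplicit false

open Polynomial

namespace Pool.Agent.MP2b98ed

variable {K : Type} [Field K] [Algebra ℂ K]

lemma ai_ne {t w : K} (hai : AlgebraicIndependent ℂ ![t, w]) (P : MvPolynomial (Fin 2) ℂ)
    (c : Fin 2 → ℂ) (h : MvPolynomial.eval c P ≠ 0) : MvPolynomial.aeval ![t, w] P ≠ 0 := by
  intro h0
  apply h
  rw [(algebraicIndependent_iff.mp hai) P h0, map_zero]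

lemma ai_fst {t w : K} (hai : AlgebraicIndependent ℂ ![t, w]) (c : ℂ) :
    t ≠ algebraMap ℂ K c := by
  have := ai_ne hai (MvPolynomial.X 0 - MvPolynomial.C c) ![c + 1, 0] (by simp)
  intro h
  apply this
  simp [h]

lemma ai_snd {t w : K} (hai : AlgebraicIndependent ℂ ![t, w]) (c : ℂ) :
    w ≠ algebraMap ℂ K c := by
  have := ai_ne hai (MvPolynomial.X 1 - MvPolynomial.C c) ![0, c + 1] (by simp)
  intro h
  apply this
  simp [h]

lemma Ec_symm (a b : Fin 4 → ℂ) : Ec b a = -Ec a b := by unfold Ec; ring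

/-- the determinant, as a polynomial -/
noncomputable def detP (a b : Fin 4 → ℂ) : MvPolynomial (Fin 2) ℂ :=
  (MvPolynomial.C (Ec a b) * GG (MvPolynomial.X 0) (MvPolynomial.C (a 0)) (MvPolynomial.C (a 1))
    (MvPolynomial.C (a 2)) (MvPolynomial.C (a 3))) *
  (MvPolynomial.C (Ec b a) * GG (MvPolynomial.X 1) (MvPolynomial.C (b 0)) (MvPolynomial.C (b 1))
    (MvPolynomial.C (b 2)) (MvPolynomial.C (b 3))) -
  BB (MvPolynomial.X 0) (MvPolynomial.X 1) (MvPolynomial.C (a 0)) (MvPolynomial.C (a 1))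
    (MvPolynomial.C (a 2)) (MvPolynomial.C (a 3)) (MvPolynomial.C (b 0)) (MvPolynomial.C (b 1))
    (MvPolynomial.C (b 2)) (MvPolynomial.C (b 3)) (MvPolynomial.C (rr a 0))
    (MvPolynomial.C (rr a 1)) (MvPolynomial.C (rr a 2)) (MvPolynomial.C (rr a 3)) *
  BB (MvPolynomial.X 1) (MvPolynomial.X 0) (MvPolynomial.C (b 0)) (MvPolynomial.C (b 1))
    (MvPolynomial.C (b 2)) (MvPolynomial.C (b 3)) (MvPolynomial.C (a 0)) (MvPolynomial.C (a 1))
    (MvPolynomial.C (a 2)) (MvPolynomial.C (a 3)) (MvPolynomial.C (rr b 0))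
    (MvPolynomial.C (rr b 1)) (MvPolynomial.C (rr b 2)) (MvPolynomial.C (rr b 3))

lemma detP_aeval (t w : K) (a b : Fin 4 → ℂ) : MvPolynomial.aeval ![t, w] (detP a b) =
    (algebraMap ℂ K (Ec a b) * Gk t a) * (algebraMap ℂ K (Ec b a) * Gk w b) -
      Bk t w a b * Bk w t b a := by
  simp [detP, GG, BB, Gk, Bk]

lemma detP_eval {a b : Fin 4 → ℂ} (ha : Function.Injective a) (h12 : b 1 ≠ b 2) (h13 : b 1 ≠ b 3)
    (h23 : b 2 ≠ b 3) (h02 : b 0 ≠ b 2) : MvPolynomial.eval ![a 0, b 2] (detP a b) ≠ 0 := by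
  have e : MvPolynomial.eval ![a 0, b 2] (detP a b) =
      -((a 0 - a 1) * (a 0 - a 3) * (a 1 - a 3) * ((b 2 - b 0) * (b 2 - b 1) * (b 2 - b 3)) *
        (a 0 - a 2) ^ 2 * ((b 1 - b 2) * (b 1 - b 3) * (b 2 - b 3) *
          ((a 0 - a 1) * (a 0 - a 2) * (a 0 - a 3)) * (b 2 - b 0) ^ 2)) := by
    simp [detP, GG, BB, rr]
  rw [e]
  have a1 : a 0 - a 1 ≠ 0 := sub_ne_zero.mpr fun h => absurd (ha h) (by decide)
  have a2 : a 0 - a 2 ≠ 0 := sub_ne_zero.mpr fun h => absurd (ha h) (by decide)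
  have a3 : a 0 - a 3 ≠ 0 := sub_ne_zero.mpr fun h => absurd (ha h) (by decide)
  have a4 : a 1 - a 3 ≠ 0 := sub_ne_zero.mpr fun h => absurd (ha h) (by decide)
  have b1 := sub_ne_zero.mpr h12
  have b2 := sub_ne_zero.mpr h13
  have b3 := sub_ne_zero.mpr h23
  have b4 := sub_ne_zero.mpr h02.symm
  have b5 := sub_ne_zero.mpr h12.symm
  exact neg_ne_zero.mpr (mul_ne_zero (mul_ne_zero (mul_ne_zero (mul_ne_zero (mul_ne_zero a1 a3) a4)
    (mul_ne_zero (mul_ne_zero b4 b5) b3)) (pow_ne_zero 2 a2)) (mul_ne_zero (mul_ne_zero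
      (mul_ne_zero (mul_ne_zero b1 b2) b3) (mul_ne_zero (mul_ne_zero a1 a2) a3))
      (pow_ne_zero 2 b4)))

lemma GG_ne {t : K} (ht : ∀ c : ℂ, t ≠ algebraMap ℂ K c) (a : Fin 4 → ℂ) : Gk t a ≠ 0 := by
  unfold Gk GG
  exact mul_ne_zero (mul_ne_zero (mul_ne_zero (sub_ne_zero.mpr (ht _)) (sub_ne_zero.mpr (ht _)))
    (sub_ne_zero.mpr (ht _))) (sub_ne_zero.mpr (ht _))

theorem small_final {t w : K} {Et Ew : Derivation ℂ K K} (hc : Coord t w Et Ew)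
    (hai : AlgebraicIndependent ℂ ![t, w]) {a b : Fin 4 → ℂ} (ha : Function.Injective a)
    (h12 : b 1 ≠ b 2) (h13 : b 1 ≠ b 3) (h23 : b 2 ≠ b 3) (h02 : b 0 ≠ b 2) (hE : Ec a b ≠ 0)
    {m : ℕ} (hm : 1 ≤ m) :
    ∃ Φ : Set (SymmetricAlgebra K (Derivation ℂ K K)),
      (∀ O : Subalgebra ℂ K, WT O t w a b → ∃ h : K, (h = 1 ∨
        (∃ i, h = (t - algebraMap ℂ K (a i)) ^ 2) ∨ (∃ i, h = (w - algebraMap ℂ K (b i)) ^ 2)) ∧
        ∀ τ ∈ Φ, h • τ ∈ Sy O m) ∧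
      ∀ O : Subalgebra ℂ K, t ∈ O → w ∈ O → (algebraMap ℂ K (Ec a b) * Gk t a)⁻¹ ∈ O →
        (algebraMap ℂ K (Ec b a) * Gk w b)⁻¹ ∈ O →
        ((algebraMap ℂ K (Ec a b) * Gk t a) * (algebraMap ℂ K (Ec b a) * Gk w b) -
          Bk t w a b * Bk w t b a)⁻¹ ∈ O →
        ∀ i k, i + k = m → ii Et ^ i * ii Ew ^ k ∈ Submodule.span O Φ := by
  have ht := ai_fst hai
  have hw := ai_snd hai
  have hc' : Coord w t Ew Et := ⟨hc.yy, hc.yt, hc.ty, hc.tt⟩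
  refine ⟨Fam (qk t w Et Ew a b) (qk w t Ew Et b a) (ii Et) (ii Ew) m, ?_, ?_⟩
  · intro O hO
    obtain ⟨h, hhO, hh, h1, h2, h3⟩ := qk_mem hc ht hw hO
    obtain ⟨-, -, -, -, -, h4⟩ := qk_mem hc' hw ht hO.symm
    refine ⟨h ^ 2, ?_, ?_⟩
    · rcases hh with rfl | ⟨i, rfl⟩ | ⟨i, rfl⟩
      · left; simp
      · right; left; exact ⟨i, rfl⟩
      · right; right; exact ⟨i, rfl⟩
    · rintro τ ⟨k, l, j, r, e1, e2, e3, rfl⟩
      have e : h ^ 2 • (qk t w Et Ew a b ^ k * qk w t Ew Et b a ^ l * (ii Et ^ j * ii Ew ^ r)) =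
          h ^ (2 - (j + r)) • (qk t w Et Ew a b ^ k * qk w t Ew Et b a ^ l *
            ((h • ii Et) ^ j * (h • ii Ew) ^ r)) := by
        have e4 : h ^ 2 = h ^ (2 - (j + r)) * (h ^ j * h ^ r) := by
          rw [← pow_add, ← pow_add]; congr 1; omega
        rw [e4]
        simp only [Algebra.smul_def, map_mul, map_pow, mul_pow]
        ring
      rw [e]
      refine Sy.smul_mem (O.pow_mem hhO _) (Sy.mul_mem' (Sy.mul_mem' (Sy.pow_mem h3 _ _ rfl)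
        (Sy.pow_mem h4 _ _ rfl) rfl) (Sy.mul_mem' (Sy.pow_mem h1 _ _ rfl) (Sy.pow_mem h2 _ _ rfl)
          rfl) (by omega))
  · intro O htO hwO h1 h2 h3 i k hik
    have hα : algebraMap ℂ K (Ec a b) * Gk t a ≠ 0 := mul_ne_zero (by simpa using hE) (GG_ne ht a)
    have hδ : algebraMap ℂ K (Ec b a) * Gk w b ≠ 0 := mul_ne_zero (by
      rw [Ec_symm]; simpa using hE) (GG_ne hw b)
    have hΔ : (algebraMap ℂ K (Ec a b) * Gk t a) * (algebraMap ℂ K (Ec b a) * Gk w b) -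
        Bk t w a b * Bk w t b a ≠ 0 := by
      rw [← detP_aeval]
      exact ai_ne hai _ _ (detP_eval ha h12 h13 h23 h02)
    have mc := O.algebraMap_mem
    have mG : ∀ (t : K) (a : Fin 4 → ℂ), t ∈ O → Gk t a ∈ O := by
      intro t a ht
      unfold Gk GG
      exact O.mul_mem (O.mul_mem (O.mul_mem (O.sub_mem ht (mc _)) (O.sub_mem ht (mc _)))
        (O.sub_mem ht (mc _))) (O.sub_mem ht (mc _))
    have mB : ∀ (t w : K) (a b : Fin 4 → ℂ), t ∈ O → w ∈ O → Bk t w a b ∈ O := by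
      intro t w a b ht hw
      unfold Bk BB
      have t1 : ∀ c : ℂ, t - algebraMap ℂ K c ∈ O := fun c => O.sub_mem ht (mc c)
      have w1 : ∀ c : ℂ, w - algebraMap ℂ K c ∈ O := fun c => O.sub_mem hw (mc c)
      exact O.add_mem (O.add_mem (O.add_mem
        (O.mul_mem (O.mul_mem (mc _) (O.mul_mem (O.mul_mem (w1 _) (w1 _)) (w1 _)))
          (O.pow_mem (t1 _) 2))
        (O.mul_mem (O.mul_mem (mc _) (O.mul_mem (O.mul_mem (w1 _) (w1 _)) (w1 _)))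
          (O.pow_mem (t1 _) 2)))
        (O.mul_mem (O.mul_mem (mc _) (O.mul_mem (O.mul_mem (w1 _) (w1 _)) (w1 _)))
          (O.pow_mem (t1 _) 2)))
        (O.mul_mem (O.mul_mem (mc _) (O.mul_mem (O.mul_mem (w1 _) (w1 _)) (w1 _)))
          (O.pow_mem (t1 _) 2))
    exact fam_span hα hδ hΔ (O.mul_mem (mc _) (mG t a htO)) (mB t w a b htO hwO)
      (mB w t b a hwO htO) (O.mul_mem (mc _) (mG w b hwO)) h1 h2 h3 m hm i k hik

end Pool.Agent.MP2b98ed
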