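import Pool.Agent.MP77a250.Stmt

/-!
# The definitions used in the statement for MP_2b98ed_ag

Symmetric tensors on a complex variety, pseudo-effectivity of the tangent bundle, Hirzebruch
surfaces and their blow-ups at four points.

Line bundles, ample line bundles, projective manifolds and blow-ups are taken from
`Pool.Agent.MP77a250.Stmt`.
-/

set_option autoImplicit false

open CategoryTheory Limits AlgebraicGeometry TopologicalSpace

namespace Pool.Agent.MP2b98ed.St

open Pool.Agent.MP77a250.St

/-! ### Symmetric powers of the tangent bundle -/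

/-- The function field of an integral scheme `X` over `ℂ` (with structure morphism `s`). -/
def KK {X : Scheme.{0}} [IsIntegral X] (_ : X ⟶ SC) : Type := X.functionField

noncomputable instance instKK {X : Scheme.{0}} [IsIntegral X] (s : X ⟶ SC) : Field (KK s) :=
  @inferInstance (Field X.functionField) _

/-- The complex numbers as functions on the base. -/
noncomputable def cst : ℂ →+* Fn SC ⊤ := (Scheme.ΓSpecIso (CommRingCat.of ℂ)).inv.hom

/-- The complex numbers as rational functions on `X`. -/
noncomputable def constHom {X : Scheme.{0}} [IsIntegral X] (s : X ⟶ SC) : ℂ →+* KK s :=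
  (toRat (C := X) (U := ⊤) ⟨⟨genericPoint X, trivial⟩⟩).comp
    ((pull s (U := ⊤) (V := ⊤) le_top).comp cst)

noncomputable instance instAlg {X : Scheme.{0}} [IsIntegral X] (s : X ⟶ SC) :
    Algebra ℂ (KK s) := (constHom s).toAlgebra

/-- The inclusion of the local ring of `X` at `x` in the function field. -/
noncomputable def stalkHom {X : Scheme.{0}} [IsIntegral X] (s : X ⟶ SC) (x : X) :
    X.presheaf.stalk x →+* KK s :=
  algebraMap (X.presheaf.stalk x) X.functionField

theorem const_mem {X : Scheme.{0}} [IsIntegral X] (s : X ⟶ SC) (x : X) (c : ℂ) :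
    constHom s c ∈ (stalkHom s x).range := by
  have : Nonempty (⊤ : X.Opens) := ⟨⟨genericPoint X, trivial⟩⟩
  exact ⟨(X.presheaf.germ ⊤ x (show x ∈ (⊤ : X.Opens) from trivial)).hom
    (pull s (U := ⊤) (V := ⊤) le_top (cst c)),
    Scheme.algebraMap_germ_eq_germToFunctionField X (show x ∈ (⊤ : X.Opens) from trivial)
      (pull s (U := ⊤) (V := ⊤) le_top (cst c))⟩

/-- The local ring of `X` at `x`, as a subalgebra of the function field. -/
noncomputable def regAt {X : Scheme.{0}} [IsIntegral X] (s : X ⟶ SC) (x : X) :
    Subalgebra ℂ (KK s) :=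
  { (stalkHom s x).range with
    algebraMap_mem' := const_mem s x }

/-- The rational vector fields on `X`: the derivations of the function field over `ℂ`. -/
def VF {X : Scheme.{0}} [IsIntegral X] (s : X ⟶ SC) : Type := Derivation ℂ (KK s) (KK s)

noncomputable instance instVF {X : Scheme.{0}} [IsIntegral X] (s : X ⟶ SC) :
    AddCommMonoid (VF s) :=
  @inferInstance (AddCommMonoid (Derivation ℂ (KK s) (KK s))) _

noncomputable instance instVFModule {X : Scheme.{0}} [IsIntegral X] (s : X ⟶ SC) :
    Module (KK s) (VF s) :=
  @inferInstance (Module (KK s) (Derivation ℂ (KK s) (KK s))) _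

/-- The tangent vector fields of `X` at `x` (elements of the stalk at `x` of the tangent sheaf),
as derivations of the function field: those which preserve the local ring at `x`. -/
def tangentAt {X : Scheme.{0}} [IsIntegral X] (s : X ⟶ SC) (x : X) : Set (VF s) :=
  {D : Derivation ℂ (KK s) (KK s) | ∀ f ∈ regAt s x, D f ∈ regAt s x}

/-- The symmetric algebra of the tangent space at the generic point of `X`: it contains
the rational sections of all the symmetric powers `Sym^m T_X`. -/
def SymT {X : Scheme.{0}} [IsIntegral X] (s : X ⟶ SC) : Type :=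
  SymmetricAlgebra (KK s) (VF s)

noncomputable instance instSymT {X : Scheme.{0}} [IsIntegral X] (s : X ⟶ SC) :
    CommRing (SymT s) :=
  @inferInstance (CommRing (SymmetricAlgebra (KK s) (VF s))) _

/-- A rational vector field as a symmetric tensor of degree one. -/
noncomputable def vec {X : Scheme.{0}} [IsIntegral X] (s : X ⟶ SC) (D : VF s) : SymT s :=
  SymmetricAlgebra.ι (KK s) (VF s) D

/-- The rational functions as symmetric tensors of degree zero. -/
noncomputable def coef {X : Scheme.{0}} [IsIntegral X] (s : X ⟶ SC) : KK s →+* SymT s :=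
  algebraMap (KK s) (SymmetricAlgebra (KK s) (VF s))

/-- The product of a rational function and a symmetric tensor. -/
noncomputable def scal {X : Scheme.{0}} [IsIntegral X] (s : X ⟶ SC) (c : KK s) (τ : SymT s) :
    SymT s := coef s c * τ

/-- The submodule over the local ring at `x` generated by a set `T` of symmetric tensors:
the finite sums of products of a function regular at `x` and an element of `T`. -/
noncomputable def spanAt {X : Scheme.{0}} [IsIntegral X] (s : X ⟶ SC) (x : X)
    (T : Set (SymT s)) : AddSubgroup (SymT s) :=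
  AddSubgroup.closure {τ | ∃ c ∈ regAt s x, ∃ v ∈ T, τ = scal s c v}

/-- The stalk at `x` of the `m`-th symmetric power of the tangent sheaf, inside the stalk at the
generic point: it is generated, as a module over the local ring at `x`, by the products of `m`
tangent vector fields at `x`. -/
noncomputable def symAt {X : Scheme.{0}} [IsIntegral X] (s : X ⟶ SC) (x : X) (m : ℕ) :
    AddSubgroup (SymT s) :=
  spanAt s x {τ | ∃ D : Fin m → VF s, (∀ k, D k ∈ tangentAt s x) ∧ τ = ∏ k, vec s (D k)}

/-- A global section of `A ⊗ Sym^m T_X`, in the given trivialisations of the line bundle `A`. -/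
structure TensorSection {X : Scheme.{0}} [IsIntegral X] (s : X ⟶ SC) (A : LineBundle X)
    (m : ℕ) where
  /-- the local expressions of the section -/
  val : A.ι → SymT s
  /-- they are regular on the trivialising open sets -/
  regular : ∀ i, ∀ x ∈ A.U i, val i ∈ symAt s x m
  /-- the gluing condition -/
  glue : ∀ (i j : A.ι) (h : Nonempty (A.U i ⊓ A.U j : X.Opens)),
    val i = scal s (toRat h (A.g i j)) (val j)

/-- `A ⊗ Sym^m T_X` is generated by its global sections at every point of the open set `U`. -/
def GeneratedOn {X : Scheme.{0}} [IsIntegral X] (s : X ⟶ SC) (A : LineBundle X)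
    (m : ℕ) (U : X.Opens) : Prop :=
  ∀ x ∈ U, ∀ i, x ∈ A.U i →
    symAt s x m ≤ spanAt s x (Set.range fun σ : TensorSection s A m => σ.val i)

/-- The tangent bundle of `X` is pseudo-effective: there are an ample line bundle `A` and a
nonempty open set `U` such that `A ⊗ Sym^m T_X` is generated by its global sections at every point
of `U`, for all `m > 0`. -/
def TangentPseudoEffective {X : Scheme.{0}} [IsIntegral X] (s : X ⟶ SC) : Prop :=
  ∃ A : LineBundle X, A.IsAmple ∧ ∃ U : X.Opens, (U : Set X).Nonempty ∧
    ∀ m : ℕ, 0 < m → GeneratedOn s A m U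

/-! ### Hirzebruch surfaces -/

/-- The affine plane. -/
noncomputable def Plane : Scheme.{0} := Spec (CommRingCat.of (MvPolynomial (Fin 2) ℂ))

/-- The structure morphism of the affine plane. -/
noncomputable def planeStr : Plane ⟶ SC :=
  Spec.map (CommRingCat.ofHom (algebraMap ℂ (MvPolynomial (Fin 2) ℂ)))

/-- The point of the affine plane with coordinates `a`, `b` in a `ℂ`-algebra `R`, as a morphism
`Spec R ⟶ 𝔸²`. -/
noncomputable def planePt {R : Type} [CommRing R] [Algebra ℂ R] (a b : R) :
    Spec (CommRingCat.of R) ⟶ Plane :=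
  Spec.map (CommRingCat.ofHom (MvPolynomial.aeval (R := ℂ) ![a, b]).toRingHom)

/-- `F` is the Hirzebruch surface `𝔽_n = ℙ(𝒪 ⊕ 𝒪(-n))`: an integral separated scheme over `ℂ`,
covered by four affine planes with the coordinates `(t, y)`, `(t, 1/y)`, `(1/t, y/t^n)`,
`(1/t, t^n/y)`. Here `t` is the coordinate on the base `ℙ¹` and `y` is the coordinate in
the fibre. -/
structure Hirzebruch (n : ℕ) {F : Scheme.{0}} (s : F ⟶ SC) where
  integral : IsIntegral F
  separated : IsSeparated s
  /-- the four charts -/
  chart : Fin 4 → (Plane ⟶ F)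
  open_immersion : ∀ k, IsOpenImmersion (chart k)
  chart_str : ∀ k, chart k ≫ s = planeStr
  covers : ∀ z : F, ∃ k, z ∈ Set.range (chart k)
  /-- the point `(t, y)` of the first chart is the point `(t, 1/y)` of the second one -/
  glue01 : ∀ (R : Type) [CommRing R] [Algebra ℂ R] (t : R) (y : Rˣ),
    planePt t (y : R) ≫ chart 0 = planePt t ((y⁻¹ : Rˣ) : R) ≫ chart 1
  /-- the point `(t, y)` of the first chart is the point `(1/t, y/t^n)` of the third one -/
  glue02 : ∀ (R : Type) [CommRing R] [Algebra ℂ R] (t : Rˣ) (y : R),
    planePt (t : R) y ≫ chart 0 = planePt ((t⁻¹ : Rˣ) : R) (((t⁻¹ : Rˣ) : R) ^ n * y) ≫ chart 2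
  /-- the point `(t, v)` of the second chart is the point `(1/t, t^n v)` of the fourth one -/
  glue13 : ∀ (R : Type) [CommRing R] [Algebra ℂ R] (t : Rˣ) (v : R),
    planePt (t : R) v ≫ chart 1 = planePt ((t⁻¹ : Rˣ) : R) ((t : R) ^ n * v) ≫ chart 3

/-- The point of `𝔽_n` with coordinates `t = a`, `y = b` in the first chart, as a
morphism. -/
noncomputable def Hirzebruch.pt {n : ℕ} {F : Scheme.{0}} {s : F ⟶ SC} (H : Hirzebruch n s)
    (a b : ℂ) : Spec (CommRingCat.of ℂ) ⟶ F :=
  planePt a b ≫ H.chart 0

/-- The ideal sheaf of the reduced closed subscheme `{p₁, …, p₄}` of `𝔽_n`, where `p_i` has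
the coordinates `t = p (i, 0)`, `y = p (i, 1)` in the first chart. -/
noncomputable def Hirzebruch.pointsIdeal {n : ℕ} {F : Scheme.{0}} {s : F ⟶ SC}
    (H : Hirzebruch n s) (p : Fin 4 × Fin 2 → ℂ) : F.IdealSheafData :=
  ⨅ i : Fin 4, (H.pt (p (i, 0)) (p (i, 1))).ker

end Pool.Agent.MP2b98ed.St
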